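import Pool.Agent.U570.AG.Phys

/-! Averaging operators over progressions on `ZMod P`: near invariance, adjoints, energies. -/

set_option autoImplicit false
set_option linter.unusedSectionVars false

namespace Pool.Agent.U570.AG

open Finset

noncomputable section

variable {P : ℕ} [NeZero P]

/-- the average over a progression in the negative direction -/
def av' (N ℓ : ℕ) (f : ZMod P → ℝ) (x : ZMod P) : ℝ :=
  (ℓ : ℝ)⁻¹ * ∑ t ∈ range ℓ, f (x - ((N * t : ℕ) : ZMod P))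

/-- the symmetric average -/
def sv (N ℓ : ℕ) (f : ZMod P → ℝ) : ZMod P → ℝ := av' N ℓ (av N ℓ f)

/-- the mean value -/
def mn (f : ZMod P → ℝ) : ℝ := (P : ℝ)⁻¹ * ∑ x, f x

/-- near invariance under translations by the multiples `N t`, `t ≤ q` -/
def NI (N q : ℕ) (κ : ℝ) (g : ZMod P → ℝ) : Prop :=
  ∀ t : ℕ, t ≤ q → ∀ x, |g (x + ((N * t : ℕ) : ZMod P)) - g x| ≤ κ

/-- values in `[-1, 1]` -/
def U1 (f : ZMod P → ℝ) : Prop := ∀ x, |f x| ≤ 1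

theorem Pr : (0 : ℝ) < P := by exact_mod_cast Nat.pos_of_ne_zero (NeZero.ne P)

theorem mn_add (f g : ZMod P → ℝ) : mn (fun x => f x + g x) = mn f + mn g := by
  unfold mn; rw [sum_add_distrib, mul_add]

theorem mn_sub (f g : ZMod P → ℝ) : mn (fun x => f x - g x) = mn f - mn g := by
  unfold mn; rw [sum_sub_distrib, mul_sub]

theorem mn_smul (c : ℝ) (f : ZMod P → ℝ) : mn (fun x => c * f x) = c * mn f := by
  unfold mn; rw [← mul_sum]; ring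

theorem mn_const (c : ℝ) : mn (fun _ : ZMod P => c) = c := by
  unfold mn
  rw [sum_const, card_univ, ZMod.card, nsmul_eq_mul, ← mul_assoc, inv_mul_cancel₀ Pr.ne', one_mul]

theorem mn_mono {f g : ZMod P → ℝ} (h : ∀ x, f x ≤ g x) : mn f ≤ mn g :=
  mul_le_mul_of_nonneg_left (sum_le_sum fun x _ => h x) (by positivity)

theorem mn_nonneg {f : ZMod P → ℝ} (h : ∀ x, 0 ≤ f x) : 0 ≤ mn f :=
  mul_nonneg (by positivity) (sum_nonneg fun x _ => h x)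

theorem abs_mn_le (f : ZMod P → ℝ) : |mn f| ≤ mn (fun x => |f x|) := by
  unfold mn
  rw [abs_mul, abs_of_nonneg (by positivity : (0 : ℝ) ≤ (P : ℝ)⁻¹)]
  exact mul_le_mul_of_nonneg_left (abs_sum_le_sum_abs _ _) (by positivity)

theorem mn_close {f g : ZMod P → ℝ} {κ : ℝ} (h : ∀ x, |f x - g x| ≤ κ) : |mn f - mn g| ≤ κ := by
  rw [← mn_sub]
  refine (abs_mn_le _).trans ((mn_mono h).trans (le_of_eq (mn_const κ)))

/-- closeness in mean -/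
theorem mn_close1 {f g h : ZMod P → ℝ} (hh : U1 h) :
    |mn (fun x => f x * h x) - mn (fun x => g x * h x)| ≤ mn (fun x => |f x - g x|) := by
  rw [← mn_sub]
  refine (abs_mn_le _).trans (mn_mono fun x => ?_)
  rw [← sub_mul, abs_mul]
  exact mul_le_of_le_one_right (abs_nonneg _) (hh x)

theorem mn_shift (f : ZMod P → ℝ) (s : ZMod P) : mn (fun x => f (x - s)) = mn f := by
  unfold mn
  congr 1
  exact Equiv.sum_comp (Equiv.subRight s) f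

theorem mn_shift' (f : ZMod P → ℝ) (s : ZMod P) : mn (fun x => f (x + s)) = mn f := by
  unfold mn
  congr 1
  exact Equiv.sum_comp (Equiv.addRight s) f

theorem av_adj (N ℓ : ℕ) (f g : ZMod P → ℝ) :
    mn (fun x => av N ℓ f x * g x) = mn (fun x => f x * av' N ℓ g x) := by
  unfold mn av av'
  congr 1
  have e1 : ∀ x : ZMod P, (ℓ : ℝ)⁻¹ * (∑ t ∈ range ℓ, f (x + ((N * t : ℕ) : ZMod P))) * g x =
      ∑ t ∈ range ℓ, (ℓ : ℝ)⁻¹ * (f (x + ((N * t : ℕ) : ZMod P)) * g x) := by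
    intro x
    rw [mul_assoc, sum_mul, mul_sum]
  have e2 : ∀ x : ZMod P, f x * ((ℓ : ℝ)⁻¹ * ∑ t ∈ range ℓ, g (x - ((N * t : ℕ) : ZMod P))) =
      ∑ t ∈ range ℓ, (ℓ : ℝ)⁻¹ * (f x * g (x - ((N * t : ℕ) : ZMod P))) := by
    intro x
    rw [mul_left_comm, mul_sum, mul_sum]
  simp_rw [e1, e2]
  rw [sum_comm, sum_comm (s := univ) (t := range ℓ)]
  refine sum_congr rfl fun t _ => ?_
  have h := Equiv.sum_comp (Equiv.subRight (((N * t : ℕ) : ZMod P)))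
    (fun x => (ℓ : ℝ)⁻¹ * (f (x + ((N * t : ℕ) : ZMod P)) * g x))
  rw [← h]
  refine sum_congr rfl fun x _ => ?_
  simp only [Equiv.subRight_apply, sub_add_cancel]

theorem av_adj' (N ℓ : ℕ) (f g : ZMod P → ℝ) :
    mn (fun x => av' N ℓ f x * g x) = mn (fun x => f x * av N ℓ g x) := by
  have h := av_adj N ℓ g f
  have h1 : mn (fun x => av' N ℓ f x * g x) = mn (fun x => g x * av' N ℓ f x) := by
    congr 1; funext x; ring
  have h2 : mn (fun x => f x * av N ℓ g x) = mn (fun x => av N ℓ g x * f x) := by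
    congr 1; funext x; ring
  rw [h1, h2, h]

theorem av_comm' (N ℓ N' ℓ' : ℕ) (f : ZMod P → ℝ) : av N ℓ (av' N' ℓ' f) = av' N' ℓ' (av N ℓ f) := by
  funext x
  unfold av av'
  simp_rw [mul_sum]
  rw [sum_comm]
  refine sum_congr rfl fun t _ => sum_congr rfl fun t' _ => ?_
  have : x + ((N * t' : ℕ) : ZMod P) - ((N' * t : ℕ) : ZMod P) =
      x - ((N' * t : ℕ) : ZMod P) + ((N * t' : ℕ) : ZMod P) := by ring
  rw [this]
  ring

theorem av_comm (N ℓ N' ℓ' : ℕ) (f : ZMod P → ℝ) : av N ℓ (av N' ℓ' f) = av N' ℓ' (av N ℓ f) := by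
  funext x
  unfold av
  simp_rw [mul_sum]
  rw [sum_comm]
  refine sum_congr rfl fun t _ => sum_congr rfl fun t' _ => ?_
  have : x + ((N * t' : ℕ) : ZMod P) + ((N' * t : ℕ) : ZMod P) =
      x + ((N' * t : ℕ) : ZMod P) + ((N * t' : ℕ) : ZMod P) := by ring
  rw [this]
  ring

theorem sv_av (N ℓ N' ℓ' : ℕ) (f : ZMod P → ℝ) : sv N ℓ (av N' ℓ' f) = av N' ℓ' (sv N ℓ f) := by
  unfold sv
  rw [av_comm N ℓ N' ℓ', av_comm']

theorem sv_adj (N ℓ : ℕ) (f g : ZMod P → ℝ) :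
    mn (fun x => sv N ℓ f x * g x) = mn (fun x => f x * sv N ℓ g x) := by
  unfold sv
  rw [av_adj', av_adj, ← av_comm']

theorem av_shift (N ℓ : ℕ) (f : ZMod P → ℝ) (s : ZMod P) :
    av N ℓ (fun x => f (x - s)) = fun x => av N ℓ f (x - s) := by
  funext x
  unfold av
  congr 1
  refine sum_congr rfl fun t _ => ?_
  have : x + ((N * t : ℕ) : ZMod P) - s = x - s + ((N * t : ℕ) : ZMod P) := by ring
  simp only [this]

theorem av'_shift (N ℓ : ℕ) (f : ZMod P → ℝ) (s : ZMod P) :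
    av' N ℓ (fun x => f (x - s)) = fun x => av' N ℓ f (x - s) := by
  funext x
  unfold av'
  congr 1
  refine sum_congr rfl fun t _ => ?_
  have : x - ((N * t : ℕ) : ZMod P) - s = x - s - ((N * t : ℕ) : ZMod P) := by ring
  simp only [this]

theorem sv_shift (N ℓ : ℕ) (f : ZMod P → ℝ) (s : ZMod P) :
    sv N ℓ (fun x => f (x - s)) = fun x => sv N ℓ f (x - s) := by
  unfold sv
  rw [av_shift, av'_shift]

theorem abs_av_le (N ℓ : ℕ) (f : ZMod P → ℝ) (hf : U1 f) : U1 (av N ℓ f) := by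
  intro x
  unfold av
  rcases Nat.eq_zero_or_pos ℓ with h | h
  · subst h; simp
  have h0 : (0 : ℝ) < ℓ := by exact_mod_cast h
  rw [abs_mul, abs_of_nonneg (by positivity : (0 : ℝ) ≤ (ℓ : ℝ)⁻¹), inv_mul_le_iff₀ h0, mul_one]
  calc |∑ t ∈ range ℓ, f (x + ((N * t : ℕ) : ZMod P))| ≤ ∑ _t ∈ range ℓ, (1 : ℝ) :=
        (abs_sum_le_sum_abs _ _).trans (sum_le_sum fun _ _ => hf _)
    _ = ℓ := by simp

theorem abs_av'_le (N ℓ : ℕ) (f : ZMod P → ℝ) (hf : U1 f) : U1 (av' N ℓ f) := by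
  intro x
  unfold av'
  rcases Nat.eq_zero_or_pos ℓ with h | h
  · subst h; simp
  have h0 : (0 : ℝ) < ℓ := by exact_mod_cast h
  rw [abs_mul, abs_of_nonneg (by positivity : (0 : ℝ) ≤ (ℓ : ℝ)⁻¹), inv_mul_le_iff₀ h0, mul_one]
  calc |∑ t ∈ range ℓ, f (x - ((N * t : ℕ) : ZMod P))| ≤ ∑ _t ∈ range ℓ, (1 : ℝ) :=
        (abs_sum_le_sum_abs _ _).trans (sum_le_sum fun _ _ => hf _)
    _ = ℓ := by simp

theorem abs_sv_le (N ℓ : ℕ) (f : ZMod P → ℝ) (hf : U1 f) : U1 (sv N ℓ f) :=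
  abs_av'_le _ _ _ (abs_av_le _ _ _ hf)

theorem sv_nonneg (N ℓ : ℕ) (f : ZMod P → ℝ) (hf : ∀ x, 0 ≤ f x) (x : ZMod P) : 0 ≤ sv N ℓ f x :=
  mul_nonneg (by positivity) (sum_nonneg fun _ _ => av_nonneg _ _ _ hf _)

theorem mn_av (N ℓ : ℕ) (hℓ : 1 ≤ ℓ) (f : ZMod P → ℝ) : mn (av N ℓ f) = mn f := by
  have h0 : (ℓ : ℝ) ≠ 0 := by exact_mod_cast (by omega : ℓ ≠ 0)
  have h1 : mn (av N ℓ f) = (ℓ : ℝ)⁻¹ * ∑ t ∈ range ℓ, mn (fun x => f (x + ((N * t : ℕ) : ZMod P))) := by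
    unfold mn av
    simp_rw [mul_sum]
    rw [sum_comm]
    refine sum_congr rfl fun t _ => sum_congr rfl fun x _ => ?_
    ring
  rw [h1]
  simp_rw [mn_shift']
  rw [sum_const, card_range, nsmul_eq_mul]
  field_simp

theorem mn_av' (N ℓ : ℕ) (hℓ : 1 ≤ ℓ) (f : ZMod P → ℝ) : mn (av' N ℓ f) = mn f := by
  have h0 : (ℓ : ℝ) ≠ 0 := by exact_mod_cast (by omega : ℓ ≠ 0)
  have h1 : mn (av' N ℓ f) = (ℓ : ℝ)⁻¹ * ∑ t ∈ range ℓ, mn (fun x => f (x - ((N * t : ℕ) : ZMod P))) := by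
    unfold mn av'
    simp_rw [mul_sum]
    rw [sum_comm]
    refine sum_congr rfl fun t _ => sum_congr rfl fun x _ => ?_
    ring
  rw [h1]
  simp_rw [mn_shift]
  rw [sum_const, card_range, nsmul_eq_mul]
  field_simp

theorem mn_sv (N ℓ : ℕ) (hℓ : 1 ≤ ℓ) (f : ZMod P → ℝ) : mn (sv N ℓ f) = mn f := by
  unfold sv
  rw [mn_av' _ _ hℓ, mn_av _ _ hℓ]

/-- near invariance of an average -/
theorem NI_av (N ℓ q : ℕ) (hℓ : 1 ≤ ℓ) (f : ZMod P → ℝ) (hf : U1 f) :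
    NI N q (2 * q / ℓ) (av N ℓ f) := by
  intro t ht x
  have h0 : (0 : ℝ) < ℓ := by exact_mod_cast hℓ
  obtain ⟨h, hh⟩ : ∃ h : ℕ → ℝ, h = fun u => f (x + ((N * u : ℕ) : ZMod P)) := ⟨_, rfl⟩
  have hh1 : ∀ u, |h u| ≤ 1 := fun u => by rw [hh]; exact hf _
  have h1 : av N ℓ f (x + ((N * t : ℕ) : ZMod P)) = (ℓ : ℝ)⁻¹ * ∑ u ∈ range ℓ, h (u + t) := by
    unfold av
    congr 1
    refine sum_congr rfl fun u _ => ?_
    rw [hh]
    simp only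
    congr 1
    push_cast
    ring
  have h2 : av N ℓ f x = (ℓ : ℝ)⁻¹ * ∑ u ∈ range ℓ, h u := by
    unfold av
    rw [hh]
  have h3 : ∀ t : ℕ, |∑ u ∈ range ℓ, h (u + t) - ∑ u ∈ range ℓ, h u| ≤ 2 * t := by
    intro t
    induction t with
    | zero => simp
    | succ t ih =>
        have h4 : ∑ u ∈ range ℓ, h (u + (t + 1)) = ∑ u ∈ range ℓ, h (u + t) + h (ℓ + t) - h t := by
          have e1 := Finset.sum_range_succ (fun u => h (u + t)) ℓ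
          have e2 := Finset.sum_range_succ' (fun u => h (u + t)) ℓ
          rw [e1] at e2
          have e3 : ∑ u ∈ range ℓ, h (u + 1 + t) = ∑ u ∈ range ℓ, h (u + (t + 1)) := by
            refine sum_congr rfl fun u _ => ?_
            congr 1
            ring
          rw [e3] at e2
          simp only [zero_add] at e2
          linarith
        have h5 := hh1 (ℓ + t)
        have h6 := hh1 t
        rw [abs_le] at h5 h6 ih ⊢
        push_cast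
        constructor <;> linarith [h5.1, h5.2, h6.1, h6.2, ih.1, ih.2]
  rw [h1, h2, ← mul_sub, abs_mul, abs_of_nonneg (by positivity : (0 : ℝ) ≤ (ℓ : ℝ)⁻¹),
    inv_mul_le_iff₀ h0]
  refine (h3 t).trans ?_
  have h7 : (t : ℝ) ≤ q := by exact_mod_cast ht
  have : (ℓ : ℝ) * (2 * q / ℓ) = 2 * q := by field_simp
  rw [this]
  linarith

theorem NI.mono {N q q' : ℕ} {κ κ' : ℝ} {g : ZMod P → ℝ} (h : NI N q κ g) (hq : q' ≤ q) (hκ : κ ≤ κ') :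
    NI N q' κ' g := fun t ht x => (h t (ht.trans hq) x).trans hκ

/-- multiples of the modulus -/
theorem NI.mul {N c q q' : ℕ} {κ : ℝ} {g : ZMod P → ℝ} (h : NI N q κ g) (hq : c * q' ≤ q) :
    NI (N * c) q' κ g := by
  intro t ht x
  have h1 := h (c * t) ((Nat.mul_le_mul_left c ht).trans hq) x
  have h2 : N * c * t = N * (c * t) := by ring
  rw [h2]
  exact h1

theorem NI.shift {N q : ℕ} {κ : ℝ} {g : ZMod P → ℝ} (h : NI N q κ g) (s : ZMod P) :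
    NI N q κ (fun x => g (x - s)) := by
  intro t ht x
  have h1 := h t ht (x - s)
  have : x + ((N * t : ℕ) : ZMod P) - s = x - s + ((N * t : ℕ) : ZMod P) := by ring
  simp only [this]
  exact h1

theorem NI.prod {N q : ℕ} {κ κ' : ℝ} {g g' : ZMod P → ℝ} (h : NI N q κ g) (h' : NI N q κ' g')
    (hg : U1 g) (hg' : U1 g') : NI N q (κ + κ') (fun x => g x * g' x) := by
  intro t ht x
  have h1 := h t ht x
  have h2 := h' t ht x
  have h3 := hg x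
  have h4 := hg' (x + ((N * t : ℕ) : ZMod P))
  have : g (x + ((N * t : ℕ) : ZMod P)) * g' (x + ((N * t : ℕ) : ZMod P)) - g x * g' x =
      (g (x + ((N * t : ℕ) : ZMod P)) - g x) * g' (x + ((N * t : ℕ) : ZMod P)) +
      g x * (g' (x + ((N * t : ℕ) : ZMod P)) - g' x) := by ring
  rw [this]
  refine (abs_add_le _ _).trans ?_
  rw [abs_mul, abs_mul]
  have h5 := mul_le_of_le_one_right (abs_nonneg (g (x + ((N * t : ℕ) : ZMod P)) - g x)) h4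
  have h6 := mul_le_of_le_one_left (abs_nonneg (g' (x + ((N * t : ℕ) : ZMod P)) - g' x)) h3
  linarith

theorem NI.av_close {N q ℓ : ℕ} {κ : ℝ} {g : ZMod P → ℝ} (h : NI N q κ g) (hℓ : 1 ≤ ℓ) (hq : ℓ ≤ q)
    (x : ZMod P) : |av N ℓ g x - g x| ≤ κ := by
  have h0 : (0 : ℝ) < ℓ := by exact_mod_cast hℓ
  have h1 : av N ℓ g x - g x = (ℓ : ℝ)⁻¹ * ∑ t ∈ range ℓ, (g (x + ((N * t : ℕ) : ZMod P)) - g x) := by
    unfold av
    rw [sum_sub_distrib, sum_const, card_range, nsmul_eq_mul, mul_sub, inv_mul_cancel_left₀ h0.ne']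
  rw [h1, abs_mul, abs_of_nonneg (by positivity : (0 : ℝ) ≤ (ℓ : ℝ)⁻¹), inv_mul_le_iff₀ h0]
  calc |∑ t ∈ range ℓ, (g (x + ((N * t : ℕ) : ZMod P)) - g x)| ≤ ∑ _t ∈ range ℓ, κ :=
        (abs_sum_le_sum_abs _ _).trans (sum_le_sum fun t ht =>
          h t ((mem_range.1 ht).le.trans hq) x)
    _ = ℓ * κ := by rw [sum_const, card_range, nsmul_eq_mul]

theorem NI.neg {N q : ℕ} {κ : ℝ} {g : ZMod P → ℝ} (h : NI N q κ g) (t : ℕ) (ht : t ≤ q) (x : ZMod P) :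
    |g (x - ((N * t : ℕ) : ZMod P)) - g x| ≤ κ := by
  have h1 := h t ht (x - ((N * t : ℕ) : ZMod P))
  rw [sub_add_cancel, abs_sub_comm] at h1
  exact h1

theorem NI.av'_close {N q ℓ : ℕ} {κ : ℝ} {g : ZMod P → ℝ} (h : NI N q κ g) (hℓ : 1 ≤ ℓ) (hq : ℓ ≤ q)
    (x : ZMod P) : |av' N ℓ g x - g x| ≤ κ := by
  have h0 : (0 : ℝ) < ℓ := by exact_mod_cast hℓ
  have h1 : av' N ℓ g x - g x = (ℓ : ℝ)⁻¹ * ∑ t ∈ range ℓ, (g (x - ((N * t : ℕ) : ZMod P)) - g x) := by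
    unfold av'
    rw [sum_sub_distrib, sum_const, card_range, nsmul_eq_mul, mul_sub, inv_mul_cancel_left₀ h0.ne']
  rw [h1, abs_mul, abs_of_nonneg (by positivity : (0 : ℝ) ≤ (ℓ : ℝ)⁻¹), inv_mul_le_iff₀ h0]
  calc |∑ t ∈ range ℓ, (g (x - ((N * t : ℕ) : ZMod P)) - g x)| ≤ ∑ _t ∈ range ℓ, κ :=
        (abs_sum_le_sum_abs _ _).trans (sum_le_sum fun t ht =>
          h.neg t ((mem_range.1 ht).le.trans hq) x)
    _ = ℓ * κ := by rw [sum_const, card_range, nsmul_eq_mul]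

theorem av'_sub (N ℓ : ℕ) (f g : ZMod P → ℝ) (x : ZMod P) :
    av' N ℓ f x - av' N ℓ g x = av' N ℓ (fun y => f y - g y) x := by
  unfold av'
  rw [← mul_sub, ← sum_sub_distrib]

theorem av'_bound (N ℓ : ℕ) (hℓ : 1 ≤ ℓ) (f : ZMod P → ℝ) (κ : ℝ) (hf : ∀ x, |f x| ≤ κ) (x : ZMod P) :
    |av' N ℓ f x| ≤ κ := by
  have h0 : (0 : ℝ) < ℓ := by exact_mod_cast hℓ
  unfold av'
  rw [abs_mul, abs_of_nonneg (by positivity : (0 : ℝ) ≤ (ℓ : ℝ)⁻¹), inv_mul_le_iff₀ h0]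
  calc |∑ t ∈ range ℓ, f (x - ((N * t : ℕ) : ZMod P))| ≤ ∑ _t ∈ range ℓ, κ :=
        (abs_sum_le_sum_abs _ _).trans (sum_le_sum fun _ _ => hf _)
    _ = ℓ * κ := by rw [sum_const, card_range, nsmul_eq_mul]

theorem NI.sv_close {N q ℓ : ℕ} {κ : ℝ} {g : ZMod P → ℝ} (h : NI N q κ g) (hℓ : 1 ≤ ℓ) (hq : ℓ ≤ q)
    (x : ZMod P) : |sv N ℓ g x - g x| ≤ 2 * κ := by
  have h1 : |av' N ℓ (av N ℓ g) x - av' N ℓ g x| ≤ κ := by
    rw [av'_sub]
    exact av'_bound N ℓ hℓ _ κ (fun y => h.av_close hℓ hq y) x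
  have h2 := h.av'_close hℓ hq x
  have : sv N ℓ g x - g x = (av' N ℓ (av N ℓ g) x - av' N ℓ g x) + (av' N ℓ g x - g x) := by
    unfold sv; ring
  rw [this]
  refine (abs_add_le _ _).trans ?_
  linarith

/-- near invariance of a symmetric average -/
theorem NI_sv (N ℓ q : ℕ) (hℓ : 1 ≤ ℓ) (f : ZMod P → ℝ) (hf : U1 f) :
    NI N q (2 * q / ℓ) (sv N ℓ f) := by
  have h : sv N ℓ f = av N ℓ (av' N ℓ f) := by unfold sv; rw [av_comm']
  rw [h]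
  exact NI_av N ℓ q hℓ _ (abs_av'_le _ _ _ hf)

/-- contraction in mean square -/
theorem mn_sq_av' (N ℓ : ℕ) (hℓ : 1 ≤ ℓ) (f : ZMod P → ℝ) :
    mn (fun x => av' N ℓ f x ^ 2) ≤ mn (fun x => f x ^ 2) := by
  have h0 : (0 : ℝ) < ℓ := by exact_mod_cast hℓ
  rw [← mn_av' N ℓ hℓ (fun x => f x ^ 2)]
  refine mn_mono fun x => ?_
  unfold av'
  have h := sq_sum_le_card_mul_sum_sq (s := range ℓ) (f := fun t => f (x - ((N * t : ℕ) : ZMod P)))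
  rw [card_range] at h
  calc ((ℓ : ℝ)⁻¹ * ∑ t ∈ range ℓ, f (x - ((N * t : ℕ) : ZMod P))) ^ 2 =
      ((ℓ : ℝ)⁻¹) ^ 2 * (∑ t ∈ range ℓ, f (x - ((N * t : ℕ) : ZMod P))) ^ 2 := by ring
    _ ≤ ((ℓ : ℝ)⁻¹) ^ 2 * (ℓ * ∑ t ∈ range ℓ, f (x - ((N * t : ℕ) : ZMod P)) ^ 2) :=
        mul_le_mul_of_nonneg_left h (by positivity)
    _ = _ := by field_simp

/-- the energy increment -/
theorem energy (N₁ ℓ₁ N₂ ℓ₂ : ℕ) (h₂ : 1 ≤ ℓ₂) (h₁ : 1 ≤ ℓ₁) (g : ZMod P → ℝ) (hg : U1 g) (κ : ℝ)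
    (h : ∀ x, |sv N₁ ℓ₁ (sv N₂ ℓ₂ g) x - sv N₂ ℓ₂ g x| ≤ κ) :
    mn (fun x => (sv N₁ ℓ₁ g x - sv N₂ ℓ₂ g x) ^ 2) ≤
      mn (fun x => av N₁ ℓ₁ g x ^ 2) - mn (fun x => av N₂ ℓ₂ g x ^ 2) + 2 * κ := by
  have e1 : mn (fun x => (sv N₁ ℓ₁ g x - sv N₂ ℓ₂ g x) ^ 2) =
      mn (fun x => sv N₁ ℓ₁ g x ^ 2) - 2 * mn (fun x => sv N₁ ℓ₁ g x * sv N₂ ℓ₂ g x) +
        mn (fun x => sv N₂ ℓ₂ g x ^ 2) := by
    rw [← mn_smul, ← mn_sub, ← mn_add]
    congr 1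
    funext x
    ring
  have e2 : mn (fun x => sv N₁ ℓ₁ g x * sv N₂ ℓ₂ g x) =
      mn (fun x => g x * sv N₁ ℓ₁ (sv N₂ ℓ₂ g) x) := sv_adj _ _ _ _
  have e3 : mn (fun x => av N₂ ℓ₂ g x ^ 2) = mn (fun x => g x * sv N₂ ℓ₂ g x) := by
    have := av_adj N₂ ℓ₂ g (av N₂ ℓ₂ g)
    unfold sv
    rw [← this]
    congr 1
    funext x
    ring
  have e4 : |mn (fun x => g x * sv N₁ ℓ₁ (sv N₂ ℓ₂ g) x) - mn (fun x => g x * sv N₂ ℓ₂ g x)| ≤ κ := by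
    refine mn_close fun x => ?_
    rw [← mul_sub, abs_mul]
    exact (mul_le_of_le_one_left (abs_nonneg _) (hg x)).trans (h x)
  have e5 : mn (fun x => sv N₁ ℓ₁ g x ^ 2) ≤ mn (fun x => av N₁ ℓ₁ g x ^ 2) := mn_sq_av' _ _ h₁ _
  have e6 : mn (fun x => sv N₂ ℓ₂ g x ^ 2) ≤ mn (fun x => av N₂ ℓ₂ g x ^ 2) := mn_sq_av' _ _ h₂ _
  rw [e1, e2]
  rw [abs_le] at e4
  linarith [e4.1, e4.2]

theorem mn_sq_le_one (g : ZMod P → ℝ) (hg : U1 g) : mn (fun x => g x ^ 2) ≤ 1 := by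
  rw [← mn_const (P := P) 1]
  refine mn_mono fun x => ?_
  have := hg x
  rw [← sq_abs]
  exact pow_le_one₀ (abs_nonneg _) this

theorem sq_mn_le (f : ZMod P → ℝ) : mn f ^ 2 ≤ mn (fun x => f x ^ 2) := by
  have h := sq_sum_le_card_mul_sum_sq (s := (univ : Finset (ZMod P))) (f := f)
  rw [card_univ, ZMod.card] at h
  have hP := Pr (P := P)
  unfold mn
  calc ((P : ℝ)⁻¹ * ∑ x, f x) ^ 2 = ((P : ℝ)⁻¹) ^ 2 * (∑ x, f x) ^ 2 := by ring
    _ ≤ ((P : ℝ)⁻¹) ^ 2 * (P * ∑ x, f x ^ 2) := mul_le_mul_of_nonneg_left h (by positivity)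
    _ = _ := by field_simp

end

end Pool.Agent.U570.AG
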