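import Pool.Agent.U570.AG.Pick

/-! Choice of the four classes with small errors. -/

set_option autoImplicit false
set_option linter.unusedSectionVars false

namespace Pool.Agent.U570.AG

open Finset Pool.Agent.U570.AF

noncomputable section

theorem mid1 {α : Type} (Z : Finset α) (f : α → α → α → α → ℝ) (B : ℝ)
    (h : ∀ z0 ∈ Z, ∀ z2 ∈ Z, ∀ z3 ∈ Z, ∑ z1 ∈ Z, f z0 z1 z2 z3 ≤ B) :
    ∑ z0 ∈ Z, ∑ z1 ∈ Z, ∑ z2 ∈ Z, ∑ z3 ∈ Z, f z0 z1 z2 z3 ≤ (Z.card : ℝ) ^ 3 * B := by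
  have h1 : ∀ z0 ∈ Z, ∑ z1 ∈ Z, ∑ z2 ∈ Z, ∑ z3 ∈ Z, f z0 z1 z2 z3 ≤ (Z.card : ℝ) ^ 2 * B := by
    intro z0 hz0
    rw [sum_comm]
    have h2 : ∀ z2 ∈ Z, ∑ z1 ∈ Z, ∑ z3 ∈ Z, f z0 z1 z2 z3 ≤ Z.card * B := by
      intro z2 hz2
      rw [sum_comm]
      calc _ ≤ ∑ _z3 ∈ Z, B := sum_le_sum fun z3 hz3 => h z0 hz0 z2 hz2 z3 hz3
        _ = _ := by rw [sum_const, nsmul_eq_mul]
    calc _ ≤ ∑ _z2 ∈ Z, (Z.card * B) := sum_le_sum h2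
      _ = _ := by rw [sum_const, nsmul_eq_mul]; ring
  calc _ ≤ ∑ _z0 ∈ Z, ((Z.card : ℝ) ^ 2 * B) := sum_le_sum h1
    _ = _ := by rw [sum_const, nsmul_eq_mul]; ring

theorem mid2 {α : Type} (Z : Finset α) (f : α → α → α → α → ℝ) (B : ℝ)
    (h : ∀ z0 ∈ Z, ∀ z1 ∈ Z, ∀ z3 ∈ Z, ∑ z2 ∈ Z, f z0 z1 z2 z3 ≤ B) :
    ∑ z0 ∈ Z, ∑ z1 ∈ Z, ∑ z2 ∈ Z, ∑ z3 ∈ Z, f z0 z1 z2 z3 ≤ (Z.card : ℝ) ^ 3 * B := by
  have h2 : ∀ z0 ∈ Z, ∀ z1 ∈ Z, ∑ z2 ∈ Z, ∑ z3 ∈ Z, f z0 z1 z2 z3 ≤ Z.card * B := by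
    intro z0 hz0 z1 hz1
    rw [sum_comm]
    calc _ ≤ ∑ _z3 ∈ Z, B := sum_le_sum fun z3 hz3 => h z0 hz0 z1 hz1 z3 hz3
      _ = _ := by rw [sum_const, nsmul_eq_mul]
  calc _ ≤ ∑ _z0 ∈ Z, ∑ _z1 ∈ Z, (Z.card * B : ℝ) :=
        sum_le_sum fun z0 hz0 => sum_le_sum fun z1 hz1 => h2 z0 hz0 z1 hz1
    _ = _ := by simp only [sum_const, nsmul_eq_mul]; ring

theorem sum4 {α : Type} (Z : Finset α) (f : α → α → α → α → ℝ) :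
    ∑ p ∈ Z ×ˢ Z ×ˢ Z ×ˢ Z, f p.1 p.2.1 p.2.2.1 p.2.2.2 =
      ∑ z0 ∈ Z, ∑ z1 ∈ Z, ∑ z2 ∈ Z, ∑ z3 ∈ Z, f z0 z1 z2 z3 := by
  simp only [sum_product]

theorem ex_q (θ : ℝ) (A B : Finset ℕ) (hA : A.Nonempty) (f : (ℕ × ℕ) → (ℕ × ℕ) → (ℕ × ℕ) → (ℕ × ℕ) → ℝ)
    (h : θ * ((A ×ˢ B).card : ℝ) ^ 4 ≤
      ∑ p ∈ (A ×ˢ B) ×ˢ (A ×ˢ B) ×ˢ (A ×ˢ B) ×ˢ (A ×ˢ B), f p.1 p.2.1 p.2.2.1 p.2.2.2) :
    ∃ q0 ∈ A, ∃ q1 ∈ A, ∃ q2 ∈ A, ∃ q3 ∈ A, θ * (B.card : ℝ) ^ 4 ≤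
      ∑ s0 ∈ B, ∑ s1 ∈ B, ∑ s2 ∈ B, ∑ s3 ∈ B, f (q0, s0) (q1, s1) (q2, s2) (q3, s3) := by
  rw [sum_sep A B B B B f] at h
  by_contra hcon
  push Not at hcon
  obtain ⟨F, hF⟩ : ∃ F : ℕ → ℕ → ℕ → ℕ → ℝ, F = fun q0 q1 q2 q3 =>
    ∑ s0 ∈ B, ∑ s1 ∈ B, ∑ s2 ∈ B, ∑ s3 ∈ B, f (q0, s0) (q1, s1) (q2, s2) (q3, s3) := ⟨_, rfl⟩
  have h1 : ∑ p ∈ A ×ˢ A ×ˢ A ×ˢ A, F p.1 p.2.1 p.2.2.1 p.2.2.2 <
      ∑ _p ∈ A ×ˢ A ×ˢ A ×ˢ A, θ * (B.card : ℝ) ^ 4 := by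
    refine sum_lt_sum_of_nonempty ?_ ?_
    · exact hA.product (hA.product (hA.product hA))
    · intro p hp
      rw [mem_product, mem_product, mem_product] at hp
      rw [hF]
      exact hcon _ hp.1 _ hp.2.1 _ hp.2.2.1 _ hp.2.2.2
  rw [sum4, sum_const, nsmul_eq_mul, card_product, card_product, card_product] at h1
  rw [hF] at h1
  simp only at h1
  have h2 := lt_of_le_of_lt h h1
  rw [card_product] at h2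
  push_cast at h2
  refine absurd h2 (not_lt.2 (le_of_eq ?_))
  ring

variable {L X : ℕ → ℕ} [∀ j, NeZero (L j)] {ν : ℕ → ℕ → ℕ} {M Γ T K Q : ℕ} {κ : ℝ}

theorem Hy.jsum (h : Hy L X ν M Γ T K Q κ) (j : ℕ) (hj : j ≤ T) (d D : ℕ) (hD : D = 2 * d ^ 2)
    (hκ : κ * (4 * D) ≤ 1) (b : ℕ) (hb : 1 + b * D + D ≤ j) (g : ZMod (L j) → ℝ) (hg : U1 g) :
    ∑ q ∈ range D, Jp (fP M j) (lp Γ (Lm L X)) (1 + b * D + q) g ≤ 2 * d := by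
  have h1 := (h.sc j hj).jumps g hg (1 + b * D) D (by omega) hb
  have h2 : (D : ℝ) * (1 + 4 * D * κ) ≤ (2 * d) ^ 2 := by
    have h3 : (D : ℝ) * (1 + 4 * D * κ) ≤ D * 2 := by
      refine mul_le_mul_of_nonneg_left ?_ (Nat.cast_nonneg _)
      linarith
    refine h3.trans (le_of_eq ?_)
    rw [hD]
    push_cast
    ring
  have h3 := abs_le_of_sq_le_sq (h1.trans h2) (by positivity)
  exact (abs_le.1 h3).2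

/-- the sum of the errors -/
theorem Hy.esum (h : Hy L X ν M Γ T K Q κ) (Bd : ℕ → ℕ → ℕ → Prop) {n : ℕ} (d D R : ℕ)
    (hD : D = 2 * d ^ 2) (hκ : κ * (4 * D) ≤ 1) (hT : T = n * D)
    (e : Fin 4 → Fin n) (he : StrictMono e) :
    ∑ z0 ∈ range D ×ˢ range R, ∑ z1 ∈ range D ×ˢ range R, ∑ z2 ∈ range D ×ˢ range R,
      ∑ z3 ∈ range D ×ˢ range R, EE Bd L X M Γ R κ (nd D (e 0) z0) (nd D (e 1) z1) (nd D (e 2) z2)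
        (nd D (e 3) z3) ≤
      ((range D ×ˢ range R).card : ℝ) ^ 4 * (54 * κ) +
        6 * (((range D ×ˢ range R).card : ℝ) ^ 3 * (R * (2 * d))) := by
  obtain ⟨Z, hZ⟩ : ∃ Z : Finset (ℕ × ℕ), Z = range D ×ˢ range R := ⟨_, rfl⟩
  have hm : ∀ z ∈ Z, z.1 < D := fun z hz => by
    rw [hZ, mem_product, mem_range] at hz
    exact hz.1
  have hsumq : ∀ (G : ℕ → ℝ) (b : ℕ), ∑ q ∈ range D, G (1 + b * D + q) ≤ 2 * d →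
      ∑ z ∈ Z, G (1 + b * D + z.1) ≤ R * (2 * d) := by
    intro G b hG
    rw [hZ, sum_product]
    simp only [sum_const, card_range, nsmul_eq_mul]
    rw [← mul_sum]
    exact mul_le_mul_of_nonneg_left hG (Nat.cast_nonneg _)
  have hlt : ∀ a b : Fin 4, a < b → ∀ z : ℕ × ℕ, 1 + (e a : ℕ) * D + D ≤ (nd D (e b) z).1 := by
    intro a b hab z
    unfold nd
    have h1 : (e a : ℕ) + 1 ≤ e b := he hab
    have h2 : ((e a : ℕ) + 1) * D ≤ e b * D := Nat.mul_le_mul_right _ h1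
    have h3 : ((e a : ℕ) + 1) * D = e a * D + D := by ring
    simp only
    omega
  have hle : ∀ a : Fin 4, ∀ z ∈ Z, (nd D (e a) z).1 ≤ T := by
    intro a z hz
    rw [hT]
    exact nd_le _ _ (hm z hz)
  have A1 := mid1 Z (fun z0 z1 z2 _ => J3 Bd L X M Γ R (nd D (e 0) z0) (nd D (e 2) z2)
    (nd D (e 1) z1).1) (R * (2 * d)) (fun z0 _ z2 hz2 z3 _ =>
      hsumq (fun i => J3 Bd L X M Γ R (nd D (e 0) z0) (nd D (e 2) z2) i) (e 1)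
        (h.jsum _ (hle 2 z2 hz2) d D hD hκ (e 1) (hlt 1 2 (by decide) z2) _ (gg_U1 _ _ _ _)))
  have A2 := mid1 Z (fun z0 z1 _ z3 => J3 Bd L X M Γ R (nd D (e 0) z0) (nd D (e 3) z3)
    (nd D (e 1) z1).1) (R * (2 * d)) (fun z0 _ z2 _ z3 hz3 =>
      hsumq (fun i => J3 Bd L X M Γ R (nd D (e 0) z0) (nd D (e 3) z3) i) (e 1)
        (h.jsum _ (hle 3 z3 hz3) d D hD hκ (e 1) (hlt 1 3 (by decide) z3) _ (gg_U1 _ _ _ _)))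
  have A3 := mid2 Z (fun z0 z1 z2 z3 => J4 Bd L X M Γ R (nd D (e 0) z0) (nd D (e 1) z1) (nd D (e 3) z3)
    (nd D (e 2) z2).1) (R * (2 * d)) (fun z0 _ z1 _ z3 hz3 =>
      hsumq (fun i => J4 Bd L X M Γ R (nd D (e 0) z0) (nd D (e 1) z1) (nd D (e 3) z3) i) (e 2)
        (h.jsum _ (hle 3 z3 hz3) d D hD hκ (e 2) (hlt 2 3 (by decide) z3) _
          ((gg_U1 _ _ _ _).mul (gg_U1 _ _ _ _))))
  rw [← hZ]
  have e1 : ∀ z0 z1 z2 z3 : ℕ × ℕ, EE Bd L X M Γ R κ (nd D (e 0) z0) (nd D (e 1) z1) (nd D (e 2) z2)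
        (nd D (e 3) z3) = 54 * κ +
      2 * (J3 Bd L X M Γ R (nd D (e 0) z0) (nd D (e 2) z2) (nd D (e 1) z1).1 +
        J3 Bd L X M Γ R (nd D (e 0) z0) (nd D (e 3) z3) (nd D (e 1) z1).1 +
        J4 Bd L X M Γ R (nd D (e 0) z0) (nd D (e 1) z1) (nd D (e 3) z3) (nd D (e 2) z2).1) := by
    intro z0 z1 z2 z3
    unfold EE
    ring
  simp_rw [e1, sum_add_distrib, ← mul_sum, sum_add_distrib]
  have e2 : ∑ _z0 ∈ Z, ∑ _z1 ∈ Z, ∑ _z2 ∈ Z, ∑ _z3 ∈ Z, (κ : ℝ) = (Z.card : ℝ) ^ 4 * κ := by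
    simp only [sum_const, nsmul_eq_mul]
    ring
  rw [e2]
  linarith

open Classical in
/-- the choice of the classes -/
theorem choice (ε : ℝ) (hε : 0 < ε) (hε1 : ε ≤ 1) : ∃ (n₀ : ℕ) (c : ℝ), 1 ≤ n₀ ∧ 0 < c ∧
    ∀ (d D R : ℕ) {L X : ℕ → ℕ} [∀ j, NeZero (L j)] {ν : ℕ → ℕ → ℕ} {M Γ T K Q : ℕ} {κ : ℝ},
      1 ≤ d → D = 2 * d ^ 2 → κ * (4 * D) ≤ 1 → 13 / (d : ℝ) ≤ c / (2 * (n₀ : ℝ) ^ 4) → 1 ≤ R →
      T = n₀ * D → 2 * R * (T + 1) ≤ K → Hy L X ν M Γ T K Q κ → ∀ Bd : ℕ → ℕ → ℕ → Prop,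
      (∀ j k, 1 ≤ j → j ≤ T → 1 ≤ k → k ≤ K →
        ε * (L j : ℝ) ≤ (((range (L j)).filter (fun z => Bd j k (X j + z))).card : ℝ)) →
      ∃ i : Fin 4 → ℕ, StrictMono i ∧ (∀ a, 1 ≤ i a ∧ i a ≤ T) ∧
        c / (2 * (n₀ : ℝ) ^ 4) * (R : ℝ) ^ 4 ≤
          ∑ s0 ∈ range R, ∑ s1 ∈ range R, ∑ s2 ∈ range R, ∑ s3 ∈ range R,
            (PP Bd L X M Γ R (i 0, s0) (i 1, s1) (i 2, s2) (i 3, s3) -
              EE Bd L X M Γ R κ (i 0, s0) (i 1, s1) (i 2, s2) (i 3, s3)) := by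
  obtain ⟨n₀, c, hn, hc, key⟩ := pat_app ε hε hε1
  refine ⟨n₀, c, hn, hc, ?_⟩
  intro d D R L X _ ν M Γ T K Q κ hd hD hκ h13 hR hT hK h Bd hBd
  have hD1 : 1 ≤ D := by
    rw [hD]
    have : 1 ≤ d ^ 2 := Nat.one_le_pow _ _ hd
    omega
  have hn0 : (0 : ℝ) < n₀ := by exact_mod_cast hn
  have hd0 : (0 : ℝ) < d := by exact_mod_cast hd
  have hd1 : (1 : ℝ) ≤ d := by exact_mod_cast hd
  have hR0 : (0 : ℝ) < R := by exact_mod_cast hR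
  obtain ⟨Z, hZ⟩ : ∃ Z : Finset (ℕ × ℕ), Z = range D ×ˢ range R := ⟨_, rfl⟩
  have hZc : (Z.card : ℝ) = 2 * d ^ 2 * R := by
    rw [hZ, card_product, card_range, card_range, hD]
    push_cast
    ring
  have hZ0 : 0 < Z.card := by
    rw [hZ, card_product, card_range, card_range]
    exact Nat.mul_pos hD1 hR
  obtain ⟨F, hF⟩ : ∃ F : (Fin 4 → Fin n₀) → ℕ × ℕ → ℕ × ℕ → ℕ × ℕ → ℕ × ℕ → ℝ, F = fun e z0 z1 z2 z3 =>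
    PP Bd L X M Γ R (nd D (e 0) z0) (nd D (e 1) z1) (nd D (e 2) z2) (nd D (e 3) z3) := ⟨_, rfl⟩
  have hF0 : ∀ e z0 z1 z2 z3, 0 ≤ F e z0 z1 z2 z3 := by
    intro e z0 z1 z2 z3
    rw [hF]
    exact mul_nonneg (P4_nonneg _ _ _ _ _ _) (mul_nonneg (P3_nonneg _ _ _ _ _) (P2_nonneg _ _ _ _))
  obtain ⟨e, he, hcount⟩ := pick Z hZ0 (fun e v => c ≤ F e (v 0) (v 1) (v 2) (v 3)) (fun w hw => by
    rw [hF]
    rw [hZ] at hw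
    exact key D R hT hK h Bd hBd w hw)
  have hcount2 : (Z.card : ℝ) ^ 4 ≤ (n₀ : ℝ) ^ 4 *
      (((Z ×ˢ Z ×ˢ Z ×ˢ Z).filter (fun p => c ≤ F e p.1 p.2.1 p.2.2.1 p.2.2.2)).card : ℝ) := by
    refine hcount.trans (le_of_eq ?_)
    have := pi4 (fun _ : Fin 4 => Z) (fun z0 z1 z2 z3 => c ≤ F e z0 z1 z2 z3)
    congr 2
  have hlow : c / (n₀ : ℝ) ^ 4 * (Z.card : ℝ) ^ 4 ≤ ∑ p ∈ Z ×ˢ Z ×ˢ Z ×ˢ Z, F e p.1 p.2.1 p.2.2.1 p.2.2.2 := by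
    have h1 : c * (((Z ×ˢ Z ×ˢ Z ×ˢ Z).filter (fun p => c ≤ F e p.1 p.2.1 p.2.2.1 p.2.2.2)).card : ℝ) ≤
        ∑ p ∈ Z ×ˢ Z ×ˢ Z ×ˢ Z, F e p.1 p.2.1 p.2.2.1 p.2.2.2 := by
      rw [mul_comm, ← nsmul_eq_mul, ← sum_const]
      refine le_trans (sum_le_sum fun p hp => (mem_filter.1 hp).2) ?_
      exact sum_le_sum_of_subset_of_nonneg (filter_subset _ _) fun p _ _ => hF0 _ _ _ _ _
    refine le_trans ?_ h1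
    rw [div_mul_eq_mul_div, div_le_iff₀ (by positivity)]
    calc c * (Z.card : ℝ) ^ 4 ≤ c * ((n₀ : ℝ) ^ 4 * _) := mul_le_mul_of_nonneg_left hcount2 hc.le
      _ = _ := by ring
  have herr := h.esum Bd d D R hD hκ hT e he
  rw [← hZ, ← sum4 Z (fun z0 z1 z2 z3 => EE Bd L X M Γ R κ (nd D (e 0) z0) (nd D (e 1) z1)
    (nd D (e 2) z2) (nd D (e 3) z3))] at herr
  have hsum : c / (2 * (n₀ : ℝ) ^ 4) * (Z.card : ℝ) ^ 4 ≤ ∑ p ∈ Z ×ˢ Z ×ˢ Z ×ˢ Z,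
      (F e p.1 p.2.1 p.2.2.1 p.2.2.2 - EE Bd L X M Γ R κ (nd D (e 0) p.1) (nd D (e 1) p.2.1)
        (nd D (e 2) p.2.2.1) (nd D (e 3) p.2.2.2)) := by
    rw [sum_sub_distrib]
    have h1 : (Z.card : ℝ) ^ 4 * (54 * κ) + 6 * ((Z.card : ℝ) ^ 3 * (R * (2 * d))) ≤
        13 / d * (Z.card : ℝ) ^ 4 := by
      have h2 : 54 * κ ≤ 7 / d := by
        rw [le_div_iff₀ hd0]
        have h3 : κ * (8 * (d : ℝ) ^ 2) ≤ 1 := by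
          refine le_trans (le_of_eq ?_) hκ
          rw [hD]; push_cast; ring
        have h4 : κ * (8 * (d : ℝ)) ≤ κ * (8 * (d : ℝ) ^ 2) := by
          refine mul_le_mul_of_nonneg_left ?_ h.κ0.le
          nlinarith
        linarith
      have h5 : 6 * ((Z.card : ℝ) ^ 3 * (R * (2 * d))) = 6 / d * (Z.card : ℝ) ^ 4 := by
        rw [hZc]
        field_simp
      rw [h5]
      have h6 : (Z.card : ℝ) ^ 4 * (54 * κ) ≤ 7 / d * (Z.card : ℝ) ^ 4 := by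
        rw [mul_comm]
        exact mul_le_mul_of_nonneg_right h2 (by positivity)
      have h7 : 13 / (d : ℝ) * (Z.card : ℝ) ^ 4 = 7 / d * (Z.card : ℝ) ^ 4 + 6 / d * (Z.card : ℝ) ^ 4 := by
        ring
      linarith
    have h8 : 13 / (d : ℝ) * (Z.card : ℝ) ^ 4 ≤ c / (2 * (n₀ : ℝ) ^ 4) * (Z.card : ℝ) ^ 4 :=
      mul_le_mul_of_nonneg_right h13 (by positivity)
    have h9 : c / (n₀ : ℝ) ^ 4 * (Z.card : ℝ) ^ 4 = c / (2 * (n₀ : ℝ) ^ 4) * (Z.card : ℝ) ^ 4 +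
        c / (2 * (n₀ : ℝ) ^ 4) * (Z.card : ℝ) ^ 4 := by
      field_simp
      ring
    linarith
  rw [hZ] at hsum
  obtain ⟨q0, hq0, q1, hq1, q2, hq2, q3, hq3, hq⟩ := ex_q (c / (2 * (n₀ : ℝ) ^ 4)) (range D) (range R)
    ⟨0, mem_range.2 hD1⟩ (fun z0 z1 z2 z3 => F e z0 z1 z2 z3 - EE Bd L X M Γ R κ (nd D (e 0) z0)
      (nd D (e 1) z1) (nd D (e 2) z2) (nd D (e 3) z3)) hsum
  rw [mem_range] at hq0 hq1 hq2 hq3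
  obtain ⟨q, hqd⟩ : ∃ q : Fin 4 → ℕ, q = ![q0, q1, q2, q3] := ⟨_, rfl⟩
  have hqD : ∀ a, q a < D := by
    intro a
    rw [hqd]
    fin_cases a
    · exact hq0
    · exact hq1
    · exact hq2
    · exact hq3
  refine ⟨fun a => 1 + (e a : ℕ) * D + q a, ?_, ?_, ?_⟩
  · intro a b hab
    exact nd_lt (he hab) (q a, 0) (q b, 0) (hqD a)
  · intro a
    refine ⟨by show 1 ≤ 1 + (e a : ℕ) * D + q a; omega, ?_⟩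
    rw [hT]
    exact nd_le (e a) (q a, 0) (hqD a)
  · rw [card_range] at hq
    refine hq.trans (le_of_eq ?_)
    rw [hF, hqd]
    rfl

end

end Pool.Agent.U570.AG
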