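import Pool.Agent.U570.AG.Choice

/-! The combinatorial core: many quadruples of vertices all of whose pairs are bad. -/

set_option autoImplicit false
set_option linter.unusedSectionVars false

namespace Pool.Agent.U570.AG

open Finset Pool.Agent.U570.AF

noncomputable section

/-- the six cut norm bounds -/
theorem hcut_of {L X : ℕ → ℕ} [∀ j, NeZero (L j)] {ν : ℕ → ℕ → ℕ} {M Γ T Q : ℕ} {κ : ℝ}
    (h : ℝ) (hh : 0 < h) (r : ℕ) (hr0 : 0 < r) (hr : 6 / h ≤ r) (R : ℕ) (hR : R = r ^ 4)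
    (hy : Hy L X ν M Γ T (2 * R * (T + 1)) Q κ)
    (hν : ∀ d k k', 1 ≤ d → d ≤ T → k ≤ 2 * R * (T + 1) → k' ≤ 2 * R * (T + 1) → k ≠ k' →
      ((ν d k : ℤ) - ν d k') ∣ ((M ^ (2 * d + 1) : ℕ) : ℤ))
    (g3 : 16 * (r : ℝ) ^ 4 * (M : ℝ) ^ (2 * T + 2) ≤ h * Γ) (g4 : 4 * (Q : ℝ) ≤ h * Γ)
    (Bd : ℕ → ℕ → ℕ → Prop) (i j : ℕ) (hi : 1 ≤ i) (hij : i < j) (hj : j ≤ T)
    (hL1 : ∀ i, 1 ≤ i → Γ ^ 5 * (L (i - 1) + X (i - 1)) ≤ L i) :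
    CutB (range R ×ˢ range (L i)) (range R ×ˢ range (L j))
      (fun v w => kbG Bd L X ν (Q * (L i + X i)) R i j v w -
        kaG Bd L X ν (fM M j i) (lm Γ (Lm L X) i) R i j v w) h := by
  have hmono := lam_mono Γ hy.Γ1 (Lm L X) hy.L1
  have hΛ1 : ∀ i, 1 ≤ Lm L X i := fun i => hy.L0.trans (hmono (Nat.zero_le i))
  have hM1 : (1 : ℝ) ≤ M := by exact_mod_cast hy.M1
  have hΓ1 : (1 : ℝ) ≤ Γ := by exact_mod_cast hy.Γ1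
  have hD1 : 2 * R * 1 ≤ 2 * R * (j - i) := Nat.mul_le_mul_left _ (by omega)
  have hD2 : 2 * R * (j - i) ≤ 2 * R * T := Nat.mul_le_mul_left _ (by omega)
  have hD3 : 2 * R * (T + 1) = 2 * R * T + 2 * R := by ring
  subst hR
  refine cutB_par h hh r hr0 hr (ν (j - i)) (2 * r ^ 4 * (T + 1)) (fM M j i) (lm Γ (Lm L X) i) (L i)
    (2 * r ^ 4 * (j - i)) (Q * (L i + X i)) ?_ ?_ ?_ ?_ ?_ ?_ ?_
    (fun k (z : ZMod (L j)) => bj Bd L X j k (z - ((ν (j - i) k * X i : ℕ) : ZMod (L j))))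
    (fun k z => bj_nonneg _ _ _ _ _ _) (fun k z => bj_le _ _ _ _ _ _)
  · exact Nat.mul_pos (pow_pos hy.Γ1 3) (hΛ1 _)
  · intro k k' hk hk' hkk
    exact hν (j - i) k k' (by omega) (by omega) hk hk' hkk
  · exact Nat.one_le_iff_ne_zero.2 (NeZero.ne _)
  · omega
  · omega
  · unfold lm fM
    have h1 : ((Γ ^ 5 * Lm L X (i - 1) : ℕ) : ℝ) ≤ L i := by
      exact_mod_cast hL1 i hi
    have h2 : (1 : ℝ) ≤ ((Lm L X (i - 1) : ℕ) : ℝ) := by exact_mod_cast hΛ1 (i - 1)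
    have h3 : (M : ℝ) ^ (2 * (j - i) + 1) ≤ (M : ℝ) ^ (2 * T + 2) := pow_le_pow_right₀ hM1 (by omega)
    have h4 : (1 : ℝ) ≤ (M : ℝ) ^ (2 * T + 2) := one_le_pow₀ hM1
    have h5 : (1 : ℝ) ≤ (Γ : ℝ) ^ 3 := one_le_pow₀ hΓ1
    have h6 : (Γ : ℝ) ^ 4 ≤ (Γ : ℝ) ^ 5 := pow_le_pow_right₀ hΓ1 (by norm_num)
    push_cast at h1 ⊢
    obtain ⟨A, hA⟩ : ∃ A : ℝ, A = (Γ : ℝ) ^ 3 * (Lm L X (i - 1) : ℕ) := ⟨_, rfl⟩
    have hA1 : 1 ≤ A := by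
      rw [hA]
      calc (1 : ℝ) = 1 * 1 := by ring
        _ ≤ _ := mul_le_mul h5 h2 (by norm_num) (by positivity)
    have hA0 : 0 ≤ A := by linarith
    rw [← hA]
    have h7 : A * (M : ℝ) ^ (2 * (j - i) + 1) + 1 ≤ 2 * (A * (M : ℝ) ^ (2 * T + 2)) := by
      have h8 : A * (M : ℝ) ^ (2 * (j - i) + 1) ≤ A * (M : ℝ) ^ (2 * T + 2) :=
        mul_le_mul_of_nonneg_left h3 hA0
      have h9 : (1 : ℝ) ≤ A * (M : ℝ) ^ (2 * T + 2) := by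
        calc (1 : ℝ) = 1 * 1 := by ring
          _ ≤ _ := mul_le_mul hA1 h4 (by norm_num) hA0
      linarith
    calc 8 * (r : ℝ) ^ 4 * (A * (M : ℝ) ^ (2 * (j - i) + 1) + 1) ≤
        8 * (r : ℝ) ^ 4 * (2 * (A * (M : ℝ) ^ (2 * T + 2))) :=
          mul_le_mul_of_nonneg_left h7 (by positivity)
      _ = (16 * (r : ℝ) ^ 4 * (M : ℝ) ^ (2 * T + 2)) * A := by ring
      _ ≤ (h * Γ) * A := mul_le_mul_of_nonneg_right g3 hA0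
      _ = h * ((Γ : ℝ) ^ 4 * (Lm L X (i - 1) : ℕ)) := by rw [hA]; ring
      _ ≤ h * ((Γ : ℝ) ^ 5 * (Lm L X (i - 1) : ℕ)) := by
          refine mul_le_mul_of_nonneg_left ?_ hh.le
          exact mul_le_mul_of_nonneg_right h6 (by positivity)
      _ ≤ h * L i := mul_le_mul_of_nonneg_left h1 hh.le
  · have h1 : ((Γ ^ 5 * Lm L X (j - 1) : ℕ) : ℝ) ≤ L j := by
      exact_mod_cast hL1 j (by omega)
    have h2 : ((Lm L X i : ℕ) : ℝ) ≤ ((Lm L X (j - 1) : ℕ) : ℝ) := by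
      exact_mod_cast hmono (by omega : i ≤ j - 1)
    have h3 : (Γ : ℝ) ^ 1 ≤ (Γ : ℝ) ^ 5 := pow_le_pow_right₀ hΓ1 (by norm_num)
    rw [pow_one] at h3
    have h4 : ((Q * (L i + X i) : ℕ) : ℝ) = (Q : ℝ) * ((Lm L X i : ℕ) : ℝ) := by
      unfold Lm; push_cast; ring
    rw [h4]
    push_cast at h1
    have h5 : (0 : ℝ) ≤ ((Lm L X i : ℕ) : ℝ) := Nat.cast_nonneg _
    calc (Q : ℝ) * ((Lm L X i : ℕ) : ℝ) ≤ (h / 4 * Γ) * ((Lm L X i : ℕ) : ℝ) :=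
          mul_le_mul_of_nonneg_right (by linarith) h5
      _ = h / 4 * (Γ * ((Lm L X i : ℕ) : ℝ)) := by ring
      _ ≤ h / 4 * ((Γ : ℝ) ^ 5 * ((Lm L X (j - 1) : ℕ) : ℝ)) := by
          refine mul_le_mul_of_nonneg_left ?_ (by positivity)
          exact mul_le_mul h3 h2 h5 (by positivity)
      _ ≤ h / 4 * L j := mul_le_mul_of_nonneg_left h1 (by positivity)

open Classical in
/-- the combinatorial core -/
theorem core (ε : ℝ) (hε : 0 < ε) (hε1 : ε ≤ 1) : ∃ T R : ℕ, 1 ≤ T ∧ 1 ≤ R ∧ ∃ c : ℝ, 0 < c ∧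
    ∀ M Q : ℕ, 1 ≤ M → ∀ ν : ℕ → ℕ → ℕ,
      (∀ d k k', 1 ≤ d → d ≤ T → k ≤ 2 * R * (T + 1) → k' ≤ 2 * R * (T + 1) → k ≠ k' →
        ((ν d k : ℤ) - ν d k') ∣ ((M ^ (2 * d + 1) : ℕ) : ℤ)) →
      (∀ d k, 1 ≤ d → d ≤ T → k ≤ 2 * R * (T + 1) → M ^ (2 * d - 1) ∣ ν d k) →
      (∀ d k, 1 ≤ d → d ≤ T → k ≤ 2 * R * (T + 1) → ν d k ≤ Q) →
    ∃ Γ : ℕ, 1 ≤ Γ ∧ ∀ L X : ℕ → ℕ, (∀ i, 1 ≤ L i) →
      (∀ i, 1 ≤ i → Γ ^ 5 * (L (i - 1) + X (i - 1)) ≤ L i) →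
    ∀ Bd : ℕ → ℕ → ℕ → Prop,
      (∀ j k, 1 ≤ j → j ≤ T → 1 ≤ k → k ≤ 2 * R * (T + 1) →
        ε * (L j : ℝ) ≤ (((range (L j)).filter (fun z => Bd j k (X j + z))).card : ℝ)) →
    ∃ i : Fin 4 → ℕ, StrictMono i ∧ (∀ a, 1 ≤ i a ∧ i a ≤ T) ∧
      c * ∏ a, (((range R ×ˢ range (L (i a))).card : ℕ) : ℝ) ≤
        (((Fintype.piFinset (fun a => range R ×ˢ range (L (i a)))).filter (fun w => ∀ a b, a < b →
          ∃ z : ℕ, z + ν (i b - i a) (2 * R * (i b - i a) + (w b).1 - (w a).1) * (X (i a) + (w a).2) =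
            X (i b) + (w b).2 ∧ Bd (i b) (2 * R * (i b - i a) + (w b).1 - (w a).1) z)).card : ℝ) := by
  obtain ⟨n₀, c, hn, hc, hchoice⟩ := choice ε hε hε1
  have hn0 : (0 : ℝ) < n₀ := by exact_mod_cast hn
  obtain ⟨θ, hθ⟩ : ∃ θ : ℝ, θ = c / (2 * (n₀ : ℝ) ^ 4) := ⟨_, rfl⟩
  have hθ0 : 0 < θ := by rw [hθ]; positivity
  obtain ⟨d, hd⟩ : ∃ d : ℕ, 13 / θ ≤ d := exists_nat_ge _
  have hd0 : (0 : ℝ) < d := lt_of_lt_of_le (by positivity) hd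
  have hd1 : 1 ≤ d := by exact_mod_cast hd0
  have hd13 : 13 / (d : ℝ) ≤ θ := by
    rw [div_le_iff₀ hd0]
    rw [div_le_iff₀ hθ0] at hd
    linarith
  obtain ⟨D, hD⟩ : ∃ D : ℕ, D = 2 * d ^ 2 := ⟨_, rfl⟩
  have hD1 : 1 ≤ D := by
    rw [hD]
    have : 1 ≤ d ^ 2 := Nat.one_le_pow _ _ hd1
    omega
  have hD0 : (0 : ℝ) < D := by exact_mod_cast hD1
  obtain ⟨κ, hκ⟩ : ∃ κ : ℝ, κ = 1 / (4 * D) := ⟨_, rfl⟩
  have hκ0 : 0 < κ := by rw [hκ]; positivity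
  have hκD : κ * (4 * D) ≤ 1 := by rw [hκ, one_div, inv_mul_cancel₀ (by positivity)]
  obtain ⟨T, hT⟩ : ∃ T : ℕ, T = n₀ * D := ⟨_, rfl⟩
  have hT1 : 1 ≤ T := by rw [hT]; exact Nat.mul_pos hn hD1
  obtain ⟨h, hh⟩ : ∃ h : ℝ, h = θ / 12 := ⟨_, rfl⟩
  have hh0 : 0 < h := by rw [hh]; positivity
  obtain ⟨r, hr⟩ : ∃ r : ℕ, 6 / h ≤ r := exists_nat_ge _
  have hr0 : 0 < r := by
    have : (0 : ℝ) < r := lt_of_lt_of_le (by positivity) hr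
    exact_mod_cast this
  obtain ⟨R, hR⟩ : ∃ R : ℕ, R = r ^ 4 := ⟨_, rfl⟩
  have hR1 : 1 ≤ R := by rw [hR]; exact Nat.one_le_pow _ _ hr0
  refine ⟨T, R, hT1, hR1, θ / 2, by positivity, ?_⟩
  intro M Q hM ν hν1 hν2 hν3
  obtain ⟨Γ1, hΓ1⟩ : ∃ Γ1 : ℕ, 2 * (M : ℝ) ^ (2 * T + 2) / κ ≤ Γ1 := exists_nat_ge _
  obtain ⟨Γ2, hΓ2⟩ : ∃ Γ2 : ℕ, 2 * (Q : ℝ) / κ ≤ Γ2 := exists_nat_ge _
  obtain ⟨Γ3, hΓ3⟩ : ∃ Γ3 : ℕ, 16 * (r : ℝ) ^ 4 * (M : ℝ) ^ (2 * T + 2) / h ≤ Γ3 := exists_nat_ge _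
  obtain ⟨Γ4, hΓ4⟩ : ∃ Γ4 : ℕ, 4 * (Q : ℝ) / h ≤ Γ4 := exists_nat_ge _
  obtain ⟨Γ, hΓ⟩ : ∃ Γ : ℕ, Γ = Γ1 + Γ2 + Γ3 + Γ4 + 1 := ⟨_, rfl⟩
  have hΓr : (Γ : ℝ) = Γ1 + Γ2 + Γ3 + Γ4 + 1 := by rw [hΓ]; push_cast; ring
  have p1 : (0 : ℝ) ≤ Γ1 := Nat.cast_nonneg _
  have p2 : (0 : ℝ) ≤ Γ2 := Nat.cast_nonneg _
  have p3 : (0 : ℝ) ≤ Γ3 := Nat.cast_nonneg _
  have p4 : (0 : ℝ) ≤ Γ4 := Nat.cast_nonneg _
  have g1 : 2 * (M : ℝ) ^ (2 * T + 2) ≤ κ * Γ := by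
    rw [div_le_iff₀ hκ0] at hΓ1
    refine hΓ1.trans ?_
    rw [mul_comm]
    exact mul_le_mul_of_nonneg_left (by linarith) hκ0.le
  have g2 : 2 * (Q : ℝ) ≤ κ * Γ := by
    rw [div_le_iff₀ hκ0] at hΓ2
    refine hΓ2.trans ?_
    rw [mul_comm]
    exact mul_le_mul_of_nonneg_left (by linarith) hκ0.le
  have g3 : 16 * (r : ℝ) ^ 4 * (M : ℝ) ^ (2 * T + 2) ≤ h * Γ := by
    rw [div_le_iff₀ hh0] at hΓ3
    refine hΓ3.trans ?_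
    rw [mul_comm]
    exact mul_le_mul_of_nonneg_left (by linarith) hh0.le
  have g4 : 4 * (Q : ℝ) ≤ h * Γ := by
    rw [div_le_iff₀ hh0] at hΓ4
    refine hΓ4.trans ?_
    rw [mul_comm]
    exact mul_le_mul_of_nonneg_left (by linarith) hh0.le
  refine ⟨Γ, by omega, ?_⟩
  intro L X hL hLX Bd hBd
  have hne : ∀ j, NeZero (L j) := fun j => ⟨by have := hL j; omega⟩
  have hy : Hy L X ν M Γ T (2 * R * (T + 1)) Q κ := by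
    refine ⟨hM, hκ0, by omega, g1, g2, ?_, ?_, hν2, hν3⟩
    · unfold Lm
      have := hL 0
      omega
    · intro i hi
      unfold Lm
      have := hLX i hi
      omega
  obtain ⟨i, hi, hiT, hlowPE⟩ := hchoice d D R hd1 hD hκD (by rw [← hθ]; exact hd13) hR1 hT le_rfl hy
    Bd hBd
  rw [← hθ] at hlowPE
  refine ⟨i, hi, hiT, ?_⟩
  obtain ⟨H, hH⟩ : ∃ H : Fin 4 → Fin 4 → ℕ × ℕ → ℕ × ℕ → ℝ, H = fun a b v w =>
    kbG Bd L X ν (Q * (L (i a) + X (i a))) R (i a) (i b) v w := ⟨_, rfl⟩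
  obtain ⟨G, hG⟩ : ∃ G : Fin 4 → Fin 4 → ℕ × ℕ → ℕ × ℕ → ℝ, G = fun a b v w =>
    kaG Bd L X ν (fM M (i b) (i a)) (lm Γ (Lm L X) (i a)) R (i a) (i b) v w := ⟨_, rfl⟩
  obtain ⟨V, hV⟩ : ∃ V : Fin 4 → Finset (ℕ × ℕ), V = fun a => range R ×ˢ range (L (i a)) := ⟨_, rfl⟩
  have hHU : ∀ a b, U01 (H a b) := fun a b v w => by rw [hH]; exact kbG_01 _ _ _ _ _ _ _ _ _ _
  have hGU : ∀ a b, U01 (G a b) := fun a b v w => by rw [hG]; exact kaG_01 _ _ _ _ _ _ _ _ _ _ _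
  have hHG : ∀ a b, a < b → CutB (V a) (V b) (fun v w => H a b v w - G a b v w) h := by
    intro a b hab
    rw [hH, hG, hV]
    exact hcut_of h hh0 r hr0 hr R hR hy hν1 g3 g4 Bd (i a) (i b) (hiT a).1 (hi hab) (hiT b).2 hLX
  have key := count4 (V 0) (V 1) (V 2) (V 3) h (H 0 1) (H 0 2) (H 0 3) (H 1 2) (H 1 3) (H 2 3)
    (G 0 1) (G 0 2) (G 0 3) (G 1 2) (G 1 3) (G 2 3)
    (hHU _ _) (hHU _ _) (hHU _ _) (hHU _ _) (hHU _ _) (hHU _ _)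
    (hGU _ _) (hGU _ _) (hGU _ _) (hGU _ _) (hGU _ _) (hGU _ _)
    (hHG _ _ (by decide)) (hHG _ _ (by decide)) (hHG _ _ (by decide)) (hHG _ _ (by decide))
    (hHG _ _ (by decide)) (hHG _ _ (by decide))
  obtain ⟨Nn, hNn⟩ : ∃ Nn : ℝ, Nn = ∏ a, ((V a).card : ℝ) := ⟨_, rfl⟩
  have hN4 : ((V 0).card * (V 1).card * (V 2).card * (V 3).card : ℝ) = Nn := by
    rw [hNn, Fin.prod_univ_four]
  rw [hN4] at key
  have hNn2 : Nn = (R : ℝ) ^ 4 * ((L (i 0) : ℝ) * L (i 1) * L (i 2) * L (i 3)) := by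
    rw [← hN4, hV]
    simp only [card_product, card_range]
    push_cast
    ring
  -- lower bound for the sum of the averages
  have hlow : θ * Nn ≤
      ∑ p ∈ V 0 ×ˢ V 1 ×ˢ V 2 ×ˢ V 3, (G 0 1 p.1 p.2.1 * G 0 2 p.1 p.2.2.1 * G 0 3 p.1 p.2.2.2 *
        G 1 2 p.2.1 p.2.2.1 * G 1 3 p.2.1 p.2.2.2 * G 2 3 p.2.2.1 p.2.2.2) := by
    rw [hV]
    rw [sum_sep (range R) (range (L (i 0))) (range (L (i 1))) (range (L (i 2))) (range (L (i 3)))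
      (fun p0 p1 p2 p3 => G 0 1 p0 p1 * G 0 2 p0 p2 * G 0 3 p0 p3 * G 1 2 p1 p2 * G 1 3 p1 p3 *
        G 2 3 p2 p3)]
    have h1 : ∑ s0 ∈ range R, ∑ s1 ∈ range R, ∑ s2 ∈ range R, ∑ s3 ∈ range R,
        ((L (i 0) : ℝ) * L (i 1) * L (i 2) * L (i 3)) *
            (PP Bd L X M Γ R (i 0, s0) (i 1, s1) (i 2, s2) (i 3, s3) -
              EE Bd L X M Γ R κ (i 0, s0) (i 1, s1) (i 2, s2) (i 3, s3)) ≤
        ∑ s0 ∈ range R, ∑ s1 ∈ range R, ∑ s2 ∈ range R, ∑ s3 ∈ range R,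
        ∑ x0 ∈ range (L (i 0)), ∑ x1 ∈ range (L (i 1)), ∑ x2 ∈ range (L (i 2)),
        ∑ x3 ∈ range (L (i 3)), (G 0 1 (s0, x0) (s1, x1) * G 0 2 (s0, x0) (s2, x2) *
          G 0 3 (s0, x0) (s3, x3) * G 1 2 (s1, x1) (s2, x2) * G 1 3 (s1, x1) (s3, x3) *
          G 2 3 (s2, x2) (s3, x3)) := by
      refine sum_le_sum fun s0 hs0 => sum_le_sum fun s1 hs1 => sum_le_sum fun s2 hs2 =>
        sum_le_sum fun s3 hs3 => ?_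
      rw [hG]
      exact hy.lowG Bd R le_rfl (i 0, s0) (i 1, s1) (i 2, s2) (i 3, s3) (hiT 0).1
        (hi (by decide)) (hi (by decide)) (hi (by decide)) (hiT 3).2 (mem_range.1 hs0)
        (mem_range.1 hs1) (mem_range.1 hs2) (mem_range.1 hs3)
    refine le_trans ?_ h1
    simp_rw [← mul_sum]
    rw [hNn2]
    calc θ * ((R : ℝ) ^ 4 * ((L (i 0) : ℝ) * L (i 1) * L (i 2) * L (i 3))) =
        ((L (i 0) : ℝ) * L (i 1) * L (i 2) * L (i 3)) * (θ * (R : ℝ) ^ 4) := by ring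
      _ ≤ _ := mul_le_mul_of_nonneg_left hlowPE (by positivity)
  -- upper bound for the sum of the kernels
  obtain ⟨QH, hQH⟩ : ∃ QH : ℕ × ℕ → ℕ × ℕ → ℕ × ℕ → ℕ × ℕ → Prop, QH = fun x0 x1 x2 x3 =>
    H 0 1 x0 x1 ≠ 0 ∧ H 0 2 x0 x2 ≠ 0 ∧ H 0 3 x0 x3 ≠ 0 ∧
        H 1 2 x1 x2 ≠ 0 ∧ H 1 3 x1 x3 ≠ 0 ∧ H 2 3 x2 x3 ≠ 0 := ⟨_, rfl⟩
  have hup : ∑ p ∈ V 0 ×ˢ V 1 ×ˢ V 2 ×ˢ V 3, (H 0 1 p.1 p.2.1 * H 0 2 p.1 p.2.2.1 *
        H 0 3 p.1 p.2.2.2 * H 1 2 p.2.1 p.2.2.1 * H 1 3 p.2.1 p.2.2.2 * H 2 3 p.2.2.1 p.2.2.2) ≤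
      (((Fintype.piFinset (fun a => range R ×ˢ range (L (i a)))).filter (fun w => ∀ a b, a < b →
          ∃ z : ℕ, z + ν (i b - i a) (2 * R * (i b - i a) + (w b).1 - (w a).1) * (X (i a) + (w a).2) =
            X (i b) + (w b).2 ∧ Bd (i b) (2 * R * (i b - i a) + (w b).1 - (w a).1) z)).card : ℝ) := by
    have h1 : ∑ p ∈ V 0 ×ˢ V 1 ×ˢ V 2 ×ˢ V 3, (H 0 1 p.1 p.2.1 * H 0 2 p.1 p.2.2.1 *
        H 0 3 p.1 p.2.2.2 * H 1 2 p.2.1 p.2.2.1 * H 1 3 p.2.1 p.2.2.2 * H 2 3 p.2.2.1 p.2.2.2) ≤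
        (((V 0 ×ˢ V 1 ×ˢ V 2 ×ˢ V 3).filter (fun p =>
          QH p.1 p.2.1 p.2.2.1 p.2.2.2)).card : ℝ) := by
      rw [card_filter]
      push_cast
      refine sum_le_sum fun p _ => ?_
      have g1 := hHU 0 1 p.1 p.2.1
      have g2 := hHU 0 2 p.1 p.2.2.1
      have g3 := hHU 0 3 p.1 p.2.2.2
      have g4 := hHU 1 2 p.2.1 p.2.2.1
      have g5 := hHU 1 3 p.2.1 p.2.2.2
      have g6 := hHU 2 3 p.2.2.1 p.2.2.2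
      split_ifs with hc
      · exact (mul01 (mul01 (mul01 (mul01 (mul01 g1 g2) g3) g4) g5) g6).2
      · refine le_of_eq ?_
        by_contra hne
        apply hc
        rw [hQH]
        refine ⟨?_, ?_, ?_, ?_, ?_, ?_⟩ <;> intro h0 <;> apply hne <;> rw [h0] <;> ring
    refine h1.trans ?_
    rw [← pi4 V QH, Nat.cast_le, hV]
    refine card_le_card fun w hw => ?_
    rw [mem_filter] at hw ⊢
    refine ⟨hw.1, ?_⟩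
    have hw1 := Fintype.mem_piFinset.1 hw.1
    have hw2 := hw.2
    rw [hQH] at hw2
    have h2 := (forall_lt4 (fun a b => H a b (w a) (w b) ≠ 0)).2 hw2
    intro a b hab
    have h3 := h2 a b hab
    simp only [hH] at h3
    have hwa := hw1 a
    have hwb := hw1 b
    have hwa' := mem_range.1 (mem_product.1 hwa).1
    have hwb' := mem_range.1 (mem_product.1 hwb).1
    have hex := (expo (le_refl (2 * R * (T + 1))) (v := (i a, (w a).1)) (w := (i b, (w b).1)) (hi hab)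
      (hiT b).2 hwa' hwb').2
    have hia := hi hab
    have hTb := (hiT b).2
    exact kbG_ne_zero Bd L X ν Q R (i a) (i b) (w a) (w b) hwa hwb
      (hν3 _ _ (by omega) (by omega) hex) h3
  refine le_trans ?_ hup
  rw [abs_le] at key
  have hfin : θ / 2 * Nn = θ * Nn - 6 * h * Nn := by
    rw [hh]
    ring
  have hN' : (∏ a, (((range R ×ˢ range (L (i a))).card : ℕ) : ℝ)) = Nn := by
    rw [hNn, hV]
  rw [hN', hfin]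
  linarith [key.1]

end

end Pool.Agent.U570.AG
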