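import Pool.Agent.U570.AF.Ft

/-! The cut norm of the kernels `Φ (b' - m ^ k b)` on average over the exponents. -/

set_option autoImplicit false

namespace Pool.Agent.U570.AG

open Finset Pool.Agent.U570.AF

noncomputable section

variable {P : ℕ} [NeZero P]

/-- `θ` is near a rational number whose denominator is a difference of multipliers -/
def Rat' (ν : ℕ → ℕ) (K : ℕ) (δ : ℝ) (θ : ZMod P) : Prop :=
  ∃ k k' : ℕ, k ≤ K ∧ k' ≤ K ∧ k ≠ k' ∧
    ‖1 - (ψ (((((ν k : ℤ) - ν k').natAbs : ℕ) : ZMod P) * θ) : ℂ)‖ < δ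

theorem rat_bound (ν : ℕ → ℕ) (K M ℓ : ℕ) (δ : ℝ) (hδ : 0 < δ) (hℓ : 1 ≤ ℓ)
    (hM : ∀ k k' : ℕ, k ≤ K → k' ≤ K → k ≠ k' → ((ν k : ℤ) - ν k') ∣ M) (F : ZMod P → ℂ) (θ : ZMod P)
    (hθ : Rat' ν K δ θ) :
    ‖ft (fun x => F x - avg (range ℓ) M F x) θ‖ ≤ ℓ * M * δ * ‖ft F θ‖ := by
  obtain ⟨k, k', hk, hk', hkk, h⟩ := hθ
  have hd : ((ν k : ℤ) - ν k').natAbs ∣ M := by
    rw [← Int.natCast_dvd_natCast, Int.natAbs_dvd]
    exact hM k k' hk hk' hkk
  obtain ⟨q, hq⟩ := hd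
  rw [ft_sub, ft_avg]
  have h1 : ‖1 - (ψ ((M : ZMod P) * θ) : ℂ)‖ ≤ M * δ := by
    have h2 : (ψ ((M : ZMod P) * θ) : ℂ) =
        (ψ (((((ν k : ℤ) - ν k').natAbs : ℕ) : ZMod P) * θ) : ℂ) ^ q := by
      rw [← psi_nat]
      conv_lhs => rw [hq]
      congr 1
      push_cast
      ring
    rw [h2]
    refine (one_sub_pow _ (norm_psi _) q).trans ?_
    rcases Nat.eq_zero_or_pos (((ν k : ℤ) - ν k').natAbs) with h0 | h0
    · have : ‖1 - (ψ (((((ν k : ℤ) - ν k').natAbs : ℕ) : ZMod P) * θ) : ℂ)‖ = 0 := by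
        rw [h0]; simp
      rw [this, mul_zero]
      positivity
    · have hqM : q ≤ M := by
        conv_rhs => rw [hq]
        exact Nat.le_mul_of_pos_left _ h0
      have hqM' : (q : ℝ) ≤ M := by exact_mod_cast hqM
      exact mul_le_mul hqM' h.le (norm_nonneg _) (by positivity)
  have hℓ0 : (0 : ℝ) < ℓ := by exact_mod_cast hℓ
  have hℓc : (ℓ : ℂ) ≠ 0 := by exact_mod_cast (by omega : ℓ ≠ 0)
  rw [card_range]
  have h3 : ‖1 - (ℓ : ℂ)⁻¹ * ∑ t ∈ range ℓ, (ψ (θ * ((M * t : ℕ) : ZMod P)) : ℂ)‖ ≤ ℓ * M * δ := by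
    have h4 : 1 - (ℓ : ℂ)⁻¹ * ∑ t ∈ range ℓ, (ψ (θ * ((M * t : ℕ) : ZMod P)) : ℂ) =
        (ℓ : ℂ)⁻¹ * ∑ t ∈ range ℓ, (1 - (ψ (θ * ((M * t : ℕ) : ZMod P)) : ℂ)) := by
      rw [sum_sub_distrib, sum_const, card_range, nsmul_eq_mul, mul_one, mul_sub,
        inv_mul_cancel₀ hℓc]
    rw [h4, norm_mul, norm_inv, Complex.norm_natCast, inv_mul_le_iff₀ hℓ0]
    refine (norm_sum_le _ _).trans ?_
    calc ∑ t ∈ range ℓ, ‖1 - (ψ (θ * ((M * t : ℕ) : ZMod P)) : ℂ)‖ ≤
        ∑ _t ∈ range ℓ, (ℓ * M * δ : ℝ) := by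
          refine sum_le_sum fun t ht => ?_
          have h5 : (ψ (θ * ((M * t : ℕ) : ZMod P)) : ℂ) = (ψ ((M : ZMod P) * θ) : ℂ) ^ t := by
            rw [← psi_nat]
            congr 1
            push_cast
            ring
          rw [h5]
          refine (one_sub_pow _ (norm_psi _) t).trans ?_
          have h6 : (t : ℝ) ≤ ℓ := by exact_mod_cast (mem_range.1 ht).le
          calc (t : ℝ) * ‖1 - (ψ ((M : ZMod P) * θ) : ℂ)‖ ≤ ℓ * (M * δ) :=
                mul_le_mul h6 h1 (norm_nonneg _) hℓ0.le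
            _ = _ := by ring
      _ = ℓ * (ℓ * M * δ) := by rw [sum_const, card_range, nsmul_eq_mul]
  have h7 : ft F θ - ((ℓ : ℂ)⁻¹ * ∑ t ∈ range ℓ, (ψ (θ * ((M * t : ℕ) : ZMod P)) : ℂ)) * ft F θ =
      (1 - (ℓ : ℂ)⁻¹ * ∑ t ∈ range ℓ, (ψ (θ * ((M * t : ℕ) : ZMod P)) : ℂ)) * ft F θ := by ring
  rw [h7, norm_mul]
  exact mul_le_mul_of_nonneg_right h3 (norm_nonneg _)

theorem norm_one_sub_neg (x : ZMod P) : ‖1 - (ψ (-x) : ℂ)‖ = ‖1 - (ψ x : ℂ)‖ := by
  rw [← conj_psi, ← RCLike.norm_conj (1 - (starRingEnd ℂ) (ψ x : ℂ)), map_sub, map_one,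
    Complex.conj_conj]

/-- the frequencies `ν k θ` are separated if `θ` is not near a rational number -/
theorem sep (ν : ℕ → ℕ) (K : ℕ) (δ : ℝ) (hδ : 0 < δ) (θ : ZMod P) (hθ : ¬ Rat' ν K δ θ) (L : ℕ) (i j : ℕ)
    (hi : i ≤ K) (hj : j ≤ K) (hij : i ≠ j) :
    ‖∑ b ∈ range L, (ψ (((ν i : ZMod P) * θ - (ν j : ZMod P) * θ) * (b : ZMod P)) : ℂ)‖ ≤
      2 / δ := by
  unfold Rat' at hθ
  push Not at hθ
  apply geom _ _ _ hδ
  have h1 := hθ i j hi hj hij
  rcases le_total (ν j) (ν i) with h | h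
  · have h2 : (ν i : ZMod P) * θ - (ν j : ZMod P) * θ =
        ((((ν i : ℤ) - ν j).natAbs : ℕ) : ZMod P) * θ := by
      have h3 : ((ν i : ℤ) - ν j).natAbs = ν i - ν j := by omega
      rw [h3, Nat.cast_sub h]
      ring
    rw [h2]
    exact h1
  · have h2 : (ν i : ZMod P) * θ - (ν j : ZMod P) * θ =
        -(((((ν i : ℤ) - ν j).natAbs : ℕ) : ZMod P) * θ) := by
      have h3 : ((ν i : ℤ) - ν j).natAbs = ν j - ν i := by omega
      rw [h3, Nat.cast_sub h]
      ring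
    rw [h2, norm_one_sub_neg]
    exact h1

/-- Cauchy-Schwarz for the sum of squares on a double sum -/
theorem dcs (R : ℕ) (f : ℕ → ℕ → ℝ) :
    (∑ s ∈ range R, ∑ s' ∈ range R, f s s') ^ 2 ≤
      (R : ℝ) ^ 2 * ∑ s ∈ range R, ∑ s' ∈ range R, f s s' ^ 2 := by
  have h1 : (∑ s ∈ range R, ∑ s' ∈ range R, f s s') ^ 2 ≤
      R * ∑ s ∈ range R, (∑ s' ∈ range R, f s s') ^ 2 := by
    have := sq_sum_le_card_mul_sum_sq (s := range R) (f := fun s => ∑ s' ∈ range R, f s s')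
    rwa [card_range] at this
  refine h1.trans ?_
  have h2 : ∀ s ∈ range R, (∑ s' ∈ range R, f s s') ^ 2 ≤ R * ∑ s' ∈ range R, f s s' ^ 2 := by
    intro s _
    have := sq_sum_le_card_mul_sum_sq (s := range R) (f := fun s' => f s s')
    rwa [card_range] at this
  calc (R : ℝ) * ∑ s ∈ range R, (∑ s' ∈ range R, f s s') ^ 2 ≤
      R * ∑ s ∈ range R, (R * ∑ s' ∈ range R, f s s' ^ 2) :=
        mul_le_mul_of_nonneg_left (sum_le_sum h2) (by positivity)
    _ = _ := by rw [← mul_sum]; ring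

/-- reindexing of a double sum by differences -/
theorem diff_sum (R : ℕ) (g : ℕ → ℕ → ℝ) (hg : ∀ d s, 0 ≤ g d s) :
    ∑ s ∈ range R, ∑ s' ∈ range R, g (s' + R - s) s ≤ ∑ d ∈ range (2 * R), ∑ s ∈ range R, g d s := by
  rw [sum_comm (s := range (2 * R))]
  refine sum_le_sum fun s hs => ?_
  have hs' := mem_range.1 hs
  rw [← sum_image (f := fun d => g d s) (s := range R) (g := fun s' => s' + R - s)]
  · refine sum_le_sum_of_subset_of_nonneg ?_ (fun d _ _ => hg d s)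
    intro d hd
    obtain ⟨s', hs1, rfl⟩ := mem_image.1 hd
    have := mem_range.1 hs1
    rw [mem_range]
    omega
  · intro a _ b _ hab
    simp only at hab
    omega

/-- the cut norm bound, in frequency form -/
theorem cut_freq (ν : ℕ → ℕ) (K L R D : ℕ) (hL : 1 ≤ L) (hR : 1 ≤ R) (hD : R ≤ D)
    (hDK : D + R ≤ K) (δ κ τ x y ρ : ℝ) (hδ : 0 < δ) (hκ : 0 < κ) (hτ : 0 ≤ τ) (hx : 0 ≤ x) (hy : 0 ≤ y)
    (hx2 : 2 * κ ≤ x ^ 2) (hy2 : 2 ≤ y ^ 2 * (κ * R)) (hρ : 0 ≤ ρ) (hρL : 2 / δ ≤ ρ * L)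
    (hρR : ρ * R ≤ 1)
    (A : ℕ → ZMod P → ℂ) (B : ℕ → ZMod P → ℂ) (u : ℕ → ℕ → ℂ)
    (hA : ∀ k, ∑ θ, ‖A k θ‖ ^ 2 ≤ 1) (hAr : ∀ k θ, Rat' ν K δ θ → ‖A k θ‖ ≤ τ * ‖B k θ‖)
    (hB : ∀ k, ∑ θ, ‖B k θ‖ ^ 2 ≤ 1)
    (V : ℕ → ZMod P → ℂ) (hV : ∀ s, ∑ θ, ‖V s θ‖ ^ 2 ≤ 1) (hu : ∀ s b, ‖u s b‖ ≤ 1) :
    ∑ s ∈ range R, ∑ s' ∈ range R, ‖∑ θ, A (D + s' - s) θ * V s' θ *
      lt L (u s) ((ν (D + s' - s) : ZMod P) * θ)‖ ≤ (R : ℝ) ^ 2 * (x + y + τ) := by
  classical
  have hR0 : (0 : ℝ) < R := by exact_mod_cast hR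
  obtain ⟨Pop, hPop⟩ : ∃ Pop : ZMod P → Prop, Pop = fun α =>
    κ * R ≤ ∑ s ∈ range R, ‖lt L (u s) α‖ ^ 2 := ⟨_, rfl⟩
  obtain ⟨N, hN⟩ : ∃ N : ℕ → ℕ → ZMod P → ℝ, N = fun s s' θ => ‖A (D + s' - s) θ‖ * ‖V s' θ‖ *
      ‖lt L (u s) ((ν (D + s' - s) : ZMod P) * θ)‖ := ⟨_, rfl⟩
  have hN0 : ∀ s s' θ, 0 ≤ N s s' θ := fun s s' θ => by rw [hN]; positivity
  obtain ⟨a, ha⟩ : ∃ a : ℕ → ℕ → ℝ, a = fun s s' =>
    ∑ θ ∈ univ.filter (fun θ : ZMod P => ¬ Pop ((ν (D + s' - s) : ZMod P) * θ)), N s s' θ := ⟨_, rfl⟩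
  obtain ⟨b, hb⟩ : ∃ b : ℕ → ℕ → ℝ, b = fun s s' =>
    ∑ θ ∈ univ.filter (fun θ : ZMod P => Pop ((ν (D + s' - s) : ZMod P) * θ) ∧ ¬ Rat' ν K δ θ),
      N s s' θ := ⟨_, rfl⟩
  obtain ⟨c, hc⟩ : ∃ c : ℕ → ℕ → ℝ, c = fun s s' =>
    ∑ θ ∈ univ.filter (fun θ : ZMod P => Rat' ν K δ θ), N s s' θ := ⟨_, rfl⟩
  have hmain : ∀ s s', ‖∑ θ, A (D + s' - s) θ * V s' θ *
      lt L (u s) ((ν (D + s' - s) : ZMod P) * θ)‖ ≤ a s s' + b s s' + c s s' := by
    intro s s'
    refine (norm_sum_le _ _).trans ?_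
    have h1 : ∀ θ : ZMod P, ‖A (D + s' - s) θ * V s' θ *
        lt L (u s) ((ν (D + s' - s) : ZMod P) * θ)‖ = N s s' θ := by
      intro θ
      rw [hN, norm_mul, norm_mul]
    simp_rw [h1]
    rw [← sum_filter_add_sum_filter_not univ
      (fun θ : ZMod P => ¬ Pop ((ν (D + s' - s) : ZMod P) * θ))]
    rw [ha, hb, hc, add_assoc]
    refine add_le_add le_rfl ?_
    rw [← sum_filter_add_sum_filter_not (univ.filter (fun θ : ZMod P =>
      ¬ ¬ Pop ((ν (D + s' - s) : ZMod P) * θ))) (fun θ : ZMod P => ¬ Rat' ν K δ θ)]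
    refine add_le_add (sum_le_sum_of_subset_of_nonneg ?_ fun θ _ _ => hN0 _ _ _)
      (sum_le_sum_of_subset_of_nonneg ?_ fun θ _ _ => hN0 _ _ _)
    · intro θ hθ
      simp only [mem_filter, mem_univ, true_and, not_not] at hθ ⊢
      exact hθ
    · intro θ hθ
      simp only [mem_filter, mem_univ, true_and, not_not] at hθ ⊢
      exact hθ.2
  -- part (a)
  have hasq : ∑ s ∈ range R, ∑ s' ∈ range R, a s s' ≤ (R : ℝ) ^ 2 * x := by
    have h1 : ∀ s s', a s s' ^ 2 ≤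
        ∑ θ ∈ univ.filter (fun θ : ZMod P => ¬ Pop ((ν (D + s' - s) : ZMod P) * θ)),
          ‖A (D + s' - s) θ‖ ^ 2 * ‖lt L (u s) ((ν (D + s' - s) : ZMod P) * θ)‖ ^ 2 := by
      intro s s'
      rw [ha, hN]
      simp only
      have h2 := sum_mul_sq_le_sq_mul_sq
        (univ.filter (fun θ : ZMod P => ¬ Pop ((ν (D + s' - s) : ZMod P) * θ)))
        (fun θ => ‖V s' θ‖)
        (fun θ => ‖A (D + s' - s) θ‖ * ‖lt L (u s) ((ν (D + s' - s) : ZMod P) * θ)‖)
      have h3 : ∑ θ ∈ univ.filter (fun θ : ZMod P => ¬ Pop ((ν (D + s' - s) : ZMod P) * θ)),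
          ‖V s' θ‖ ^ 2 ≤ 1 :=
        (sum_le_sum_of_subset_of_nonneg (filter_subset _ _) fun θ _ _ => by positivity).trans (hV s')
      have h4 : (∑ θ ∈ univ.filter (fun θ : ZMod P => ¬ Pop ((ν (D + s' - s) : ZMod P) * θ)),
          ‖A (D + s' - s) θ‖ * ‖V s' θ‖ * ‖lt L (u s) ((ν (D + s' - s) : ZMod P) * θ)‖) =
          ∑ θ ∈ univ.filter (fun θ : ZMod P => ¬ Pop ((ν (D + s' - s) : ZMod P) * θ)),
          ‖V s' θ‖ * (‖A (D + s' - s) θ‖ * ‖lt L (u s) ((ν (D + s' - s) : ZMod P) * θ)‖) :=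
        sum_congr rfl fun θ _ => by ring
      rw [h4]
      refine h2.trans ?_
      refine (mul_le_of_le_one_left (sum_nonneg fun θ _ => by positivity) h3).trans (le_of_eq ?_)
      exact sum_congr rfl fun θ _ => by ring
    have h5 : ∑ s ∈ range R, ∑ s' ∈ range R, a s s' ^ 2 ≤ 2 * (R : ℝ) ^ 2 * κ := by
      obtain ⟨g, hg⟩ : ∃ g : ℕ → ℕ → ℝ, g = fun d s =>
          ∑ θ ∈ univ.filter (fun θ : ZMod P => ¬ Pop ((ν (D - R + d) : ZMod P) * θ)),
          ‖A (D - R + d) θ‖ ^ 2 * ‖lt L (u s) ((ν (D - R + d) : ZMod P) * θ)‖ ^ 2 := ⟨_, rfl⟩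
      have hg0 : ∀ d s, 0 ≤ g d s := fun d s => by
        rw [hg]; exact sum_nonneg fun θ _ => by positivity
      have h6 : ∑ s ∈ range R, ∑ s' ∈ range R, a s s' ^ 2 ≤
          ∑ s ∈ range R, ∑ s' ∈ range R, g (s' + R - s) s := by
        refine sum_le_sum fun s hs => sum_le_sum fun s' _ => (h1 s s').trans (le_of_eq ?_)
        have hs' := mem_range.1 hs
        have : D + s' - s = D - R + (s' + R - s) := by omega
        rw [hg]
        simp only
        rw [this]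
      refine h6.trans ((diff_sum R g hg0).trans ?_)
      have h7 : ∀ d ∈ range (2 * R), ∑ s ∈ range R, g d s ≤ κ * R := by
        intro d _
        rw [hg]
        simp only
        rw [sum_comm]
        calc ∑ θ ∈ univ.filter (fun θ : ZMod P => ¬ Pop ((ν (D - R + d) : ZMod P) * θ)),
            ∑ s ∈ range R, ‖A (D - R + d) θ‖ ^ 2 *
              ‖lt L (u s) ((ν (D - R + d) : ZMod P) * θ)‖ ^ 2 ≤
            ∑ θ ∈ univ.filter (fun θ : ZMod P => ¬ Pop ((ν (D - R + d) : ZMod P) * θ)),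
              ‖A (D - R + d) θ‖ ^ 2 * (κ * R) := by
              refine sum_le_sum fun θ hθ => ?_
              rw [← mul_sum]
              refine mul_le_mul_of_nonneg_left ?_ (by positivity)
              have h8 := (mem_filter.1 hθ).2
              rw [hPop] at h8
              simp only [not_le] at h8
              exact h8.le
          _ = (∑ θ ∈ univ.filter (fun θ : ZMod P => ¬ Pop ((ν (D - R + d) : ZMod P) * θ)),
              ‖A (D - R + d) θ‖ ^ 2) * (κ * R) := by rw [sum_mul]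
          _ ≤ 1 * (κ * R) := by
              refine mul_le_mul_of_nonneg_right ?_ (by positivity)
              exact (sum_le_sum_of_subset_of_nonneg (filter_subset _ _)
                fun θ _ _ => by positivity).trans (hA _)
          _ = κ * R := one_mul _
      refine (sum_le_sum h7).trans (le_of_eq ?_)
      rw [sum_const, card_range, nsmul_eq_mul]
      push_cast
      ring
    have h9 := dcs R a
    have h10 : (∑ s ∈ range R, ∑ s' ∈ range R, a s s') ^ 2 ≤ ((R : ℝ) ^ 2 * x) ^ 2 := by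
      calc (∑ s ∈ range R, ∑ s' ∈ range R, a s s') ^ 2 ≤
          (R : ℝ) ^ 2 * (2 * (R : ℝ) ^ 2 * κ) := h9.trans
            (mul_le_mul_of_nonneg_left h5 (by positivity))
        _ = (R : ℝ) ^ 4 * (2 * κ) := by ring
        _ ≤ (R : ℝ) ^ 4 * x ^ 2 := mul_le_mul_of_nonneg_left hx2 (by positivity)
        _ = _ := by ring
    exact le_of_sq_le_sq h10 (by positivity) |> fun h => h
  -- part (b)
  have hbsq : ∑ s ∈ range R, ∑ s' ∈ range R, b s s' ≤ (R : ℝ) ^ 2 * y := by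
    have h1 : ∀ s s', b s s' ^ 2 ≤
        ∑ θ ∈ univ.filter (fun θ : ZMod P => Pop ((ν (D + s' - s) : ZMod P) * θ) ∧
          ¬ Rat' ν K δ θ), ‖V s' θ‖ ^ 2 := by
      intro s s'
      rw [hb, hN]
      simp only
      have h0 : ∑ θ ∈ univ.filter (fun θ : ZMod P => Pop ((ν (D + s' - s) : ZMod P) * θ) ∧
          ¬ Rat' ν K δ θ), ‖A (D + s' - s) θ‖ * ‖V s' θ‖ *
            ‖lt L (u s) ((ν (D + s' - s) : ZMod P) * θ)‖ ≤
          ∑ θ ∈ univ.filter (fun θ : ZMod P => Pop ((ν (D + s' - s) : ZMod P) * θ) ∧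
          ¬ Rat' ν K δ θ), ‖A (D + s' - s) θ‖ * ‖V s' θ‖ := by
        refine sum_le_sum fun θ _ => ?_
        exact mul_le_of_le_one_right (by positivity) (norm_lt_le L _ (hu s) _)
      have h2 := sum_mul_sq_le_sq_mul_sq
        (univ.filter (fun θ : ZMod P => Pop ((ν (D + s' - s) : ZMod P) * θ) ∧ ¬ Rat' ν K δ θ))
        (fun θ => ‖A (D + s' - s) θ‖) (fun θ => ‖V s' θ‖)
      have h3 : ∑ θ ∈ univ.filter (fun θ : ZMod P => Pop ((ν (D + s' - s) : ZMod P) * θ) ∧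
          ¬ Rat' ν K δ θ), ‖A (D + s' - s) θ‖ ^ 2 ≤ 1 :=
        (sum_le_sum_of_subset_of_nonneg (filter_subset _ _) fun θ _ _ => by positivity).trans (hA _)
      calc _ ≤ (∑ θ ∈ univ.filter (fun θ : ZMod P => Pop ((ν (D + s' - s) : ZMod P) * θ) ∧
          ¬ Rat' ν K δ θ), ‖A (D + s' - s) θ‖ * ‖V s' θ‖) ^ 2 :=
            pow_le_pow_left₀ (sum_nonneg fun θ _ => by positivity) h0 2
        _ ≤ _ := h2
        _ ≤ _ := mul_le_of_le_one_left (sum_nonneg fun θ _ => by positivity) h3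
    have h5 : ∑ s ∈ range R, ∑ s' ∈ range R, b s s' ^ 2 ≤ R * (2 / κ) := by
      rw [sum_comm]
      have h6 : ∀ s' ∈ range R, ∑ s ∈ range R, b s s' ^ 2 ≤ 2 / κ := by
        intro s' hs'
        have hs1 := mem_range.1 hs'
        calc ∑ s ∈ range R, b s s' ^ 2 ≤ ∑ s ∈ range R, ∑ θ : ZMod P,
            (if Pop ((ν (D + s' - s) : ZMod P) * θ) ∧ ¬ Rat' ν K δ θ then ‖V s' θ‖ ^ 2 else 0) := by
              refine sum_le_sum fun s _ => (h1 s s').trans (le_of_eq ?_)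
              rw [sum_filter]
          _ = ∑ θ : ZMod P, ‖V s' θ‖ ^ 2 * ((range R).filter (fun s =>
              Pop ((ν (D + s' - s) : ZMod P) * θ) ∧ ¬ Rat' ν K δ θ)).card := by
              rw [sum_comm]
              refine sum_congr rfl fun θ _ => ?_
              rw [← sum_filter, sum_const, nsmul_eq_mul, mul_comm]
          _ ≤ ∑ θ : ZMod P, ‖V s' θ‖ ^ 2 * (2 / κ) := by
              refine sum_le_sum fun θ _ => mul_le_mul_of_nonneg_left ?_ (by positivity)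
              by_cases hr : Rat' ν K δ θ
              · have : (range R).filter (fun s =>
                    Pop ((ν (D + s' - s) : ZMod P) * θ) ∧ ¬ Rat' ν K δ θ) = ∅ := by
                  rw [filter_eq_empty_iff]
                  intro s _ h
                  exact h.2 hr
                rw [this]
                simp only [card_empty, Nat.cast_zero]
                positivity
              · set S := (range R).filter (fun s =>
                    Pop ((ν (D + s' - s) : ZMod P) * θ) ∧ ¬ Rat' ν K δ θ) with hS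
                have h7 : ∀ s₀ : ℕ, ∑ s ∈ S, ‖lt L (u s₀) ((ν (D + s' - s) : ZMod P) * θ)‖ ^ 2 ≤
                    1 + ρ * S.card := by
                  intro s₀
                  refine halasz S L hL (u s₀) (hu s₀) (fun s => (ν (D + s' - s) : ZMod P) * θ) ρ hρ ?_
                  intro i hi j hj hij
                  have hi' := mem_range.1 (mem_filter.1 hi).1
                  have hj' := mem_range.1 (mem_filter.1 hj).1
                  refine (sep ν K δ hδ θ hr L (D + s' - i) (D + s' - j) (by omega) (by omega)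
                    (by omega)).trans hρL
                have h8 : (S.card : ℝ) * (κ * R) ≤ R * (1 + ρ * S.card) := by
                  calc (S.card : ℝ) * (κ * R) = ∑ _s ∈ S, (κ * R) := by
                        rw [sum_const, nsmul_eq_mul]
                    _ ≤ ∑ s ∈ S, ∑ s₀ ∈ range R,
                        ‖lt L (u s₀) ((ν (D + s' - s) : ZMod P) * θ)‖ ^ 2 := by
                        refine sum_le_sum fun s hs => ?_
                        have := (mem_filter.1 hs).2.1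
                        rw [hPop] at this
                        exact this
                    _ = ∑ s₀ ∈ range R, ∑ s ∈ S,
                        ‖lt L (u s₀) ((ν (D + s' - s) : ZMod P) * θ)‖ ^ 2 := sum_comm
                    _ ≤ ∑ _s₀ ∈ range R, (1 + ρ * S.card) := sum_le_sum fun s₀ _ => h7 s₀
                    _ = _ := by rw [sum_const, card_range, nsmul_eq_mul]
                have h9 : (S.card : ℝ) ≤ R := by
                  have : S.card ≤ (range R).card := card_filter_le _ _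
                  rw [card_range] at this
                  exact_mod_cast this
                have h10 : ρ * S.card ≤ 1 := (mul_le_mul_of_nonneg_left h9 hρ).trans hρR
                rw [le_div_iff₀ hκ]
                have h11 : (S.card : ℝ) * κ * R ≤ 2 * R := by nlinarith
                exact le_of_mul_le_mul_right h11 hR0
          _ = (∑ θ : ZMod P, ‖V s' θ‖ ^ 2) * (2 / κ) := by rw [sum_mul]
          _ ≤ 1 * (2 / κ) := mul_le_mul_of_nonneg_right (hV s') (by positivity)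
          _ = 2 / κ := one_mul _
      refine (sum_le_sum h6).trans (le_of_eq ?_)
      rw [sum_const, card_range, nsmul_eq_mul]
    have h9 := dcs R b
    have h10 : (∑ s ∈ range R, ∑ s' ∈ range R, b s s') ^ 2 ≤ ((R : ℝ) ^ 2 * y) ^ 2 := by
      calc (∑ s ∈ range R, ∑ s' ∈ range R, b s s') ^ 2 ≤
          (R : ℝ) ^ 2 * (R * (2 / κ)) := h9.trans
            (mul_le_mul_of_nonneg_left h5 (by positivity))
        _ = (R : ℝ) ^ 3 / κ * 2 := by ring
        _ ≤ (R : ℝ) ^ 3 / κ * (y ^ 2 * (κ * R)) := mul_le_mul_of_nonneg_left hy2 (by positivity)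
        _ = _ := by field_simp
    exact le_of_sq_le_sq h10 (by positivity) |> fun h => h
  -- part (c)
  have hcs : ∑ s ∈ range R, ∑ s' ∈ range R, c s s' ≤ (R : ℝ) ^ 2 * τ := by
    have h1 : ∀ s s', c s s' ≤ τ := by
      intro s s'
      rw [hc, hN]
      simp only
      have h0 : ∑ θ ∈ univ.filter (fun θ : ZMod P => Rat' ν K δ θ),
          ‖A (D + s' - s) θ‖ * ‖V s' θ‖ * ‖lt L (u s) ((ν (D + s' - s) : ZMod P) * θ)‖ ≤
          τ * ∑ θ : ZMod P, ‖B (D + s' - s) θ‖ * ‖V s' θ‖ := by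
        rw [mul_sum]
        refine (sum_le_sum (g := fun θ : ZMod P => τ * (‖B (D + s' - s) θ‖ * ‖V s' θ‖))
          fun θ hθ => ?_).trans
          (sum_le_sum_of_subset_of_nonneg (filter_subset _ _) fun θ _ _ => by positivity)
        have h2 := hAr (D + s' - s) θ (mem_filter.1 hθ).2
        calc ‖A (D + s' - s) θ‖ * ‖V s' θ‖ * ‖lt L (u s) ((ν (D + s' - s) : ZMod P) * θ)‖ ≤
            ‖A (D + s' - s) θ‖ * ‖V s' θ‖ :=
              mul_le_of_le_one_right (by positivity) (norm_lt_le L _ (hu s) _)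
          _ ≤ τ * ‖B (D + s' - s) θ‖ * ‖V s' θ‖ := mul_le_mul_of_nonneg_right h2 (norm_nonneg _)
          _ = _ := by ring
      have h3 : ∑ θ : ZMod P, ‖B (D + s' - s) θ‖ * ‖V s' θ‖ ≤ 1 := by
        have h4 := sum_mul_sq_le_sq_mul_sq (univ : Finset (ZMod P))
          (fun θ => ‖B (D + s' - s) θ‖) (fun θ => ‖V s' θ‖)
        have h5 : (∑ θ : ZMod P, ‖B (D + s' - s) θ‖ * ‖V s' θ‖) ^ 2 ≤ 1 := by
          refine h4.trans ?_
          calc _ ≤ (1 : ℝ) * 1 := mul_le_mul (hB _) (hV _) (sum_nonneg fun θ _ => by positivity)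
                (by norm_num)
            _ = 1 := one_mul _
        have h6 : 0 ≤ ∑ θ : ZMod P, ‖B (D + s' - s) θ‖ * ‖V s' θ‖ :=
          sum_nonneg fun θ _ => by positivity
        nlinarith
      calc _ ≤ _ := h0
        _ ≤ τ * 1 := mul_le_mul_of_nonneg_left h3 hτ
        _ = τ := mul_one _
    refine (sum_le_sum fun s _ => sum_le_sum fun s' _ => h1 s s').trans (le_of_eq ?_)
    simp only [sum_const, card_range, nsmul_eq_mul]
    ring
  calc _ ≤ ∑ s ∈ range R, ∑ s' ∈ range R, (a s s' + b s s' + c s s') :=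
        sum_le_sum fun s _ => sum_le_sum fun s' _ => hmain s s'
    _ = ∑ s ∈ range R, ∑ s' ∈ range R, a s s' + ∑ s ∈ range R, ∑ s' ∈ range R, b s s' +
        ∑ s ∈ range R, ∑ s' ∈ range R, c s s' := by simp_rw [sum_add_distrib]
    _ ≤ (R : ℝ) ^ 2 * x + (R : ℝ) ^ 2 * y + (R : ℝ) ^ 2 * τ := by linarith
    _ = _ := by ring

end

end Pool.Agent.U570.AG
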