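import Pool.Agent.U570.AG.Av

/-! Correlations of two or three averages at very different scales. -/

set_option autoImplicit false
set_option linter.unusedSectionVars false

namespace Pool.Agent.U570.AG

open Finset

noncomputable section

variable {P : ℕ} [NeZero P]

theorem U1.mul {f g : ZMod P → ℝ} (hf : U1 f) (hg : U1 g) : U1 (fun x => f x * g x) := by
  intro x
  rw [abs_mul]
  exact mul_le_one₀ (hf x) (abs_nonneg _) (hg x)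

theorem U1.shift {f : ZMod P → ℝ} (hf : U1 f) (s : ZMod P) : U1 (fun x => f (x - s)) := fun _ => hf _

/-- replacing a fine average by a coarse one -/
theorem evalA (Nm ℓm N ℓ : ℕ) (hℓ : 1 ≤ ℓ) (f Ψ : ZMod P → ℝ) (hf : U1 f) (hΨ : U1 Ψ) (s : ZMod P)
    (κ κ₁ : ℝ) (h1 : NI N ℓ κ₁ Ψ) (h2 : ∀ x, |av Nm ℓm (sv N ℓ f) x - sv N ℓ f x| ≤ κ)
    (h3 : ∀ x, |sv N ℓ f (x - s) - sv N ℓ f x| ≤ κ) :
    |mn (fun x => av Nm ℓm f (x - s) * Ψ x) - mn (fun x => sv N ℓ f x * Ψ x)| ≤ 2 * κ₁ + 2 * κ := by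
  have e1 : |mn (fun x => av Nm ℓm f (x - s) * Ψ x) -
      mn (fun x => av Nm ℓm f (x - s) * sv N ℓ Ψ x)| ≤ 2 * κ₁ := by
    refine mn_close fun x => ?_
    rw [← mul_sub, abs_mul, abs_sub_comm]
    exact (mul_le_of_le_one_left (abs_nonneg _) (abs_av_le _ _ _ hf _)).trans (h1.sv_close hℓ le_rfl x)
  have e2 : mn (fun x => av Nm ℓm f (x - s) * sv N ℓ Ψ x) =
      mn (fun x => av Nm ℓm (sv N ℓ f) (x - s) * Ψ x) := by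
    rw [← sv_adj, sv_shift, sv_av]
  have e3 : |mn (fun x => av Nm ℓm (sv N ℓ f) (x - s) * Ψ x) - mn (fun x => sv N ℓ f x * Ψ x)| ≤
      2 * κ := by
    refine mn_close fun x => ?_
    rw [← sub_mul, abs_mul]
    refine (mul_le_of_le_one_right (abs_nonneg _) (hΨ x)).trans ?_
    have h4 := h2 (x - s)
    have h5 := h3 x
    have : av Nm ℓm (sv N ℓ f) (x - s) - sv N ℓ f x =
        (av Nm ℓm (sv N ℓ f) (x - s) - sv N ℓ f (x - s)) + (sv N ℓ f (x - s) - sv N ℓ f x) := by ring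
    rw [this]
    refine (abs_add_le _ _).trans ?_
    linarith
  rw [e2] at e1
  rw [abs_le] at e1 e3 ⊢
  constructor <;> linarith [e1.1, e1.2, e3.1, e3.2]

/-- the same in the presence of a function without a jump -/
theorem evalB (Nm ℓm N₁ ℓ₁ N ℓo ℓp : ℕ) (hℓ₁ : 1 ≤ ℓ₁) (hℓo : 1 ≤ ℓo) (f g W : ZMod P → ℝ)
    (hf : U1 f) (hg : U1 g) (hW : U1 W) (s : ZMod P) (κ κ₁ : ℝ)
    (ha : NI N₁ ℓ₁ κ₁ (fun x => av Nm ℓm f (x - s) * W x))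
    (hb : NI N ℓo κ₁ (fun x => W x * sv N ℓp g x))
    (hc : NI N₁ ℓ₁ κ₁ (fun x => sv N ℓo f x * W x))
    (h2 : ∀ x, |av Nm ℓm (sv N ℓo f) x - sv N ℓo f x| ≤ κ)
    (h3 : ∀ x, |sv N ℓo f (x - s) - sv N ℓo f x| ≤ κ) :
    |mn (fun x => g x * (av Nm ℓm f (x - s) * W x)) - mn (fun x => g x * (sv N ℓo f x * W x))| ≤
      6 * κ₁ + 2 * κ + 2 * mn (fun x => |sv N₁ ℓ₁ g x - sv N ℓp g x|) := by
  obtain ⟨J, hJ⟩ : ∃ J, J = mn (fun x => |sv N₁ ℓ₁ g x - sv N ℓp g x|) := ⟨_, rfl⟩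
  rw [← hJ]
  have hΘ : U1 (fun x => av Nm ℓm f (x - s) * W x) := ((abs_av_le _ _ _ hf).shift s).mul hW
  have hS : U1 (fun x => sv N ℓo f x * W x) := (abs_sv_le _ _ _ hf).mul hW
  have ins : ∀ Θ : ZMod P → ℝ, U1 Θ → NI N₁ ℓ₁ κ₁ Θ →
      |mn (fun x => g x * Θ x) - mn (fun x => sv N ℓp g x * Θ x)| ≤ 2 * κ₁ + J := by
    intro Θ hΘ1 hΘ2
    have e1 : |mn (fun x => g x * Θ x) - mn (fun x => g x * sv N₁ ℓ₁ Θ x)| ≤ 2 * κ₁ := by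
      refine mn_close fun x => ?_
      rw [← mul_sub, abs_mul, abs_sub_comm]
      exact (mul_le_of_le_one_left (abs_nonneg _) (hg x)).trans (hΘ2.sv_close hℓ₁ le_rfl x)
    have e2 : mn (fun x => g x * sv N₁ ℓ₁ Θ x) = mn (fun x => sv N₁ ℓ₁ g x * Θ x) := (sv_adj _ _ _ _).symm
    have e3 : |mn (fun x => sv N₁ ℓ₁ g x * Θ x) - mn (fun x => sv N ℓp g x * Θ x)| ≤ J := by
      rw [hJ]
      exact mn_close1 hΘ1
    rw [e2] at e1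
    rw [abs_le] at e1 e3 ⊢
    constructor <;> linarith [e1.1, e1.2, e3.1, e3.2]
  have i1 := ins _ hΘ ha
  have i2 := ins _ hS hc
  have i3 := evalA Nm ℓm N ℓo hℓo f (fun x => W x * sv N ℓp g x) hf (hW.mul (abs_sv_le _ _ _ hg)) s κ κ₁
    hb h2 h3
  have q1 : mn (fun x => av Nm ℓm f (x - s) * (W x * sv N ℓp g x)) =
      mn (fun x => sv N ℓp g x * (av Nm ℓm f (x - s) * W x)) := by
    congr 1; funext x; ring
  have q2 : mn (fun x => sv N ℓo f x * (W x * sv N ℓp g x)) =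
      mn (fun x => sv N ℓp g x * (sv N ℓo f x * W x)) := by
    congr 1; funext x; ring
  rw [q1, q2] at i3
  rw [abs_le] at i1 i2 i3 ⊢
  constructor <;> linarith [i1.1, i1.2, i2.1, i2.2, i3.1, i3.2]

/-- the scales: moduli and lengths of the averages below the level `j` -/
structure Sc (j : ℕ) (Np Nm ℓm ℓo ℓp : ℕ → ℕ) (κ : ℝ) : Prop where
  κ0 : 0 ≤ κ
  m1 : ∀ i, 1 ≤ ℓm i
  o1 : ∀ i, 1 ≤ ℓo i
  op : ∀ i, ℓo i ≤ ℓp i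
  a : ∀ i i', i < i' → i' < j → ∃ c : ℕ, Np i = Nm i' * c ∧ 2 * ((c * ℓp i : ℕ) : ℝ) ≤ κ * ℓm i'
  b : ∀ i, 1 ≤ i → i < j → ∃ c : ℕ, Nm i = Np i * c ∧ 2 * ((c * ℓm i : ℕ) : ℝ) ≤ κ * ℓo i
  c : ∀ i, 1 ≤ i → i < j → ∃ c : ℕ, Np (i - 1) = Np i * c ∧
    2 * ((c * ℓp (i - 1) : ℕ) : ℝ) ≤ κ * ℓo i
  d : ∀ i, i < j → 2 * (ℓo i : ℝ) ≤ κ * ℓp i

variable {j : ℕ} {Np Nm ℓm ℓo ℓp : ℕ → ℕ} {κ : ℝ}

theorem Sc.p1 (h : Sc j Np Nm ℓm ℓo ℓp κ) (i : ℕ) : 1 ≤ ℓp i := (h.o1 i).trans (h.op i)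

theorem Sc.U_NI (h : Sc j Np Nm ℓm ℓo ℓp κ) {i i' : ℕ} (hi : i < i') (hi' : i' < j) (f : ZMod P → ℝ)
    (hf : U1 f) : NI (Np i) (ℓp i) κ (av (Nm i') (ℓm i') f) := by
  obtain ⟨c, hc1, hc2⟩ := h.a i i' hi hi'
  rw [hc1]
  refine ((NI_av (Nm i') (ℓm i') (c * ℓp i) (h.m1 i') f hf).mul le_rfl).mono le_rfl ?_
  have h0 : (0 : ℝ) < ℓm i' := by exact_mod_cast h.m1 i'
  rw [div_le_iff₀ h0]
  exact hc2

theorem Sc.So_U (h : Sc j Np Nm ℓm ℓo ℓp κ) {i : ℕ} (hi1 : 1 ≤ i) (hi : i < j) (f : ZMod P → ℝ)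
    (hf : U1 f) (x : ZMod P) :
    |av (Nm i) (ℓm i) (sv (Np i) (ℓo i) f) x - sv (Np i) (ℓo i) f x| ≤ κ := by
  obtain ⟨c, hc1, hc2⟩ := h.b i hi1 hi
  have h0 : (0 : ℝ) < ℓo i := by exact_mod_cast h.o1 i
  have h1 : NI (Np i * c) (ℓm i) κ (sv (Np i) (ℓo i) f) := by
    refine ((NI_sv (Np i) (ℓo i) (c * ℓm i) (h.o1 i) f hf).mul le_rfl).mono le_rfl ?_
    rw [div_le_iff₀ h0]
    exact hc2
  rw [hc1]
  exact h1.av_close (h.m1 i) le_rfl x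

theorem Sc.So_shift (h : Sc j Np Nm ℓm ℓo ℓp κ) {i : ℕ} (f : ZMod P → ℝ)
    (hf : U1 f) (t : ℕ) (ht : 2 * (t : ℝ) ≤ κ * ℓo i) (x : ZMod P) :
    |sv (Np i) (ℓo i) f (x - ((Np i * t : ℕ) : ZMod P)) - sv (Np i) (ℓo i) f x| ≤ κ := by
  have h0 : (0 : ℝ) < ℓo i := by exact_mod_cast h.o1 i
  have h1 : NI (Np i) t κ (sv (Np i) (ℓo i) f) := by
    refine (NI_sv (Np i) (ℓo i) t (h.o1 i) f hf).mono le_rfl ?_
    rw [div_le_iff₀ h0]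
    exact ht
  exact h1.neg t le_rfl x

theorem Sc.Sp_NI_o (h : Sc j Np Nm ℓm ℓo ℓp κ) {i : ℕ} (hi : i < j) (g : ZMod P → ℝ)
    (hg : U1 g) : NI (Np i) (ℓo i) κ (sv (Np i) (ℓp i) g) := by
  have h0 : (0 : ℝ) < ℓp i := by exact_mod_cast h.p1 i
  refine (NI_sv (Np i) (ℓp i) (ℓo i) (h.p1 i) g hg).mono le_rfl ?_
  rw [div_le_iff₀ h0]
  exact h.d i hi

theorem Sc.So_NI_prev (h : Sc j Np Nm ℓm ℓo ℓp κ) {i : ℕ} (hi1 : 1 ≤ i) (hi : i < j) (f : ZMod P → ℝ)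
    (hf : U1 f) : NI (Np (i - 1)) (ℓp (i - 1)) κ (sv (Np i) (ℓo i) f) := by
  obtain ⟨c, hc1, hc2⟩ := h.c i hi1 hi
  have h0 : (0 : ℝ) < ℓo i := by exact_mod_cast h.o1 i
  rw [hc1]
  refine ((NI_sv (Np i) (ℓo i) (c * ℓp (i - 1)) (h.o1 i) f hf).mul le_rfl).mono le_rfl ?_
  rw [div_le_iff₀ h0]
  exact hc2

theorem Sc.Sp_NI_prev (h : Sc j Np Nm ℓm ℓo ℓp κ) {i : ℕ} (hi1 : 1 ≤ i) (hi : i < j) (f : ZMod P → ℝ)
    (hf : U1 f) : NI (Np (i - 1)) (ℓp (i - 1)) κ (sv (Np i) (ℓp i) f) := by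
  obtain ⟨c, hc1, hc2⟩ := h.c i hi1 hi
  have h0 : (0 : ℝ) < ℓp i := by exact_mod_cast h.p1 i
  rw [hc1]
  refine ((NI_sv (Np i) (ℓp i) (c * ℓp (i - 1)) (h.p1 i) f hf).mul le_rfl).mono le_rfl ?_
  rw [div_le_iff₀ h0]
  refine hc2.trans (mul_le_mul_of_nonneg_left ?_ h.κ0)
  exact_mod_cast h.op i

/-- the jump of a function at a level -/
def Jp (Np ℓp : ℕ → ℕ) (i : ℕ) (g : ZMod P → ℝ) : ℝ :=
  mn (fun x => |sv (Np (i - 1)) (ℓp (i - 1)) g x - sv (Np i) (ℓp i) g x|)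

theorem U1_one : U1 (fun _ : ZMod P => (1 : ℝ)) := fun _ => by simp

theorem NI_one (N q : ℕ) (κ : ℝ) (hκ : 0 ≤ κ) : NI N q κ (fun _ : ZMod P => (1 : ℝ)) := by
  intro t _ x
  simpa using hκ

/-- the second factor -/
theorem Sc.second (h : Sc j Np Nm ℓm ℓo ℓp κ) {i : ℕ} (hi1 : 1 ≤ i) (hi : i < j) (f g W : ZMod P → ℝ)
    (hf : U1 f) (hg : U1 g) (hW : U1 W) (hW1 : NI (Np (i - 1)) (ℓp (i - 1)) κ W)
    (hW2 : NI (Np i) (ℓo i) κ W) (t : ℕ) (ht : 2 * (t : ℝ) ≤ κ * ℓo i) :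
    |mn (fun x => g x * (av (Nm i) (ℓm i) f (x - ((Np i * t : ℕ) : ZMod P)) * W x)) -
      mn (fun x => g x * (sv (Np i) (ℓo i) f x * W x))| ≤ 14 * κ + 2 * Jp Np ℓp i g := by
  have h1 := evalB (Nm i) (ℓm i) (Np (i - 1)) (ℓp (i - 1)) (Np i) (ℓo i) (ℓp i) (h.p1 _) (h.o1 i) f g W
    hf hg hW ((Np i * t : ℕ) : ZMod P) κ (κ + κ)
    (((h.U_NI (by omega : i - 1 < i) hi f hf).shift _).prod hW1 ((abs_av_le _ _ _ hf).shift _) hW)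
    (hW2.prod (h.Sp_NI_o hi g hg) hW (abs_sv_le _ _ _ hg))
    ((h.So_NI_prev hi1 hi f hf).prod hW1 (abs_sv_le _ _ _ hf) hW)
    (h.So_U hi1 hi f hf) (h.So_shift f hf t ht)
  refine h1.trans (le_of_eq ?_)
  unfold Jp
  ring

/-- two factors -/
theorem Sc.two (h : Sc j Np Nm ℓm ℓo ℓp κ) {i1 i2 : ℕ} (h01 : 1 ≤ i1) (h12 : i1 < i2) (h2 : i2 < j)
    (f1 f2 : ZMod P → ℝ) (hf1 : U1 f1) (hf2 : U1 f2) (t1 t2 : ℕ)
    (ht1 : 2 * (t1 : ℝ) ≤ κ * ℓo i1) (ht2 : 2 * (t2 : ℝ) ≤ κ * ℓo i2) :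
    |mn (fun x => av (Nm i1) (ℓm i1) f1 (x - ((Np i1 * t1 : ℕ) : ZMod P)) *
        av (Nm i2) (ℓm i2) f2 (x - ((Np i2 * t2 : ℕ) : ZMod P))) -
      mn (fun x => sv (Np i1) (ℓo i1) f1 x * sv (Np i2) (ℓo i2) f2 x)| ≤
      20 * κ + 2 * Jp Np ℓp i2 (sv (Np i1) (ℓo i1) f1) := by
  have hκ := h.κ0
  have hΨ : U1 (fun x => av (Nm i2) (ℓm i2) f2 (x - ((Np i2 * t2 : ℕ) : ZMod P))) :=
    (abs_av_le _ _ _ hf2).shift _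
  have e1 := evalA (Nm i1) (ℓm i1) (Np i1) (ℓo i1) (h.o1 i1) f1
    (fun x => av (Nm i2) (ℓm i2) f2 (x - ((Np i2 * t2 : ℕ) : ZMod P))) hf1 hΨ
    ((Np i1 * t1 : ℕ) : ZMod P) κ κ
    (((h.U_NI h12 h2 f2 hf2).shift _).mono (h.op i1) le_rfl)
    (h.So_U h01 (h12.trans h2) f1 hf1) (h.So_shift f1 hf1 t1 ht1)
  have e2 := h.second (i := i2) (by omega) h2 f2 (sv (Np i1) (ℓo i1) f1) (fun _ => 1) hf2
    (abs_sv_le _ _ _ hf1) U1_one (NI_one _ _ _ hκ) (NI_one _ _ _ hκ) t2 ht2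
  simp only [mul_one] at e2
  rw [abs_le] at e1 e2 ⊢
  constructor <;> linarith [e1.1, e1.2, e2.1, e2.2]

/-- three factors -/
theorem Sc.three (h : Sc j Np Nm ℓm ℓo ℓp κ) {i1 i2 i3 : ℕ} (h01 : 1 ≤ i1) (h12 : i1 < i2) (h23 : i2 < i3) (h3 : i3 < j)
    (f1 f2 f3 : ZMod P → ℝ) (hf1 : U1 f1) (hf2 : U1 f2) (hf3 : U1 f3) (t1 t2 t3 : ℕ)
    (ht1 : 2 * (t1 : ℝ) ≤ κ * ℓo i1) (ht2 : 2 * (t2 : ℝ) ≤ κ * ℓo i2)
    (ht3 : 2 * (t3 : ℝ) ≤ κ * ℓo i3) :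
    |mn (fun x => av (Nm i1) (ℓm i1) f1 (x - ((Np i1 * t1 : ℕ) : ZMod P)) *
        (av (Nm i2) (ℓm i2) f2 (x - ((Np i2 * t2 : ℕ) : ZMod P)) *
        av (Nm i3) (ℓm i3) f3 (x - ((Np i3 * t3 : ℕ) : ZMod P)))) -
      mn (fun x => sv (Np i1) (ℓo i1) f1 x * (sv (Np i2) (ℓo i2) f2 x * sv (Np i3) (ℓo i3) f3 x))| ≤
      34 * κ + 2 * Jp Np ℓp i2 (sv (Np i1) (ℓo i1) f1) +
        2 * Jp Np ℓp i3 (fun x => sv (Np i1) (ℓo i1) f1 x * sv (Np i2) (ℓo i2) f2 x) := by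
  have hκ := h.κ0
  have hΨ2 : U1 (fun x => av (Nm i2) (ℓm i2) f2 (x - ((Np i2 * t2 : ℕ) : ZMod P))) :=
    (abs_av_le _ _ _ hf2).shift _
  have hΨ3 : U1 (fun x => av (Nm i3) (ℓm i3) f3 (x - ((Np i3 * t3 : ℕ) : ZMod P))) :=
    (abs_av_le _ _ _ hf3).shift _
  have e1 := evalA (Nm i1) (ℓm i1) (Np i1) (ℓo i1) (h.o1 i1) f1
    (fun x => av (Nm i2) (ℓm i2) f2 (x - ((Np i2 * t2 : ℕ) : ZMod P)) *
      av (Nm i3) (ℓm i3) f3 (x - ((Np i3 * t3 : ℕ) : ZMod P))) hf1 (hΨ2.mul hΨ3)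
    ((Np i1 * t1 : ℕ) : ZMod P) κ (κ + κ)
    ((((h.U_NI h12 (h23.trans h3) f2 hf2).shift _).mono (h.op i1) le_rfl).prod
      (((h.U_NI (h12.trans h23) h3 f3 hf3).shift _).mono (h.op i1) le_rfl) hΨ2 hΨ3)
    (h.So_U h01 (h12.trans (h23.trans h3)) f1 hf1) (h.So_shift f1 hf1 t1 ht1)
  have e2 := h.second (i := i2) (by omega) (h23.trans h3) f2 (sv (Np i1) (ℓo i1) f1)
    (fun x => av (Nm i3) (ℓm i3) f3 (x - ((Np i3 * t3 : ℕ) : ZMod P))) hf2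
    (abs_sv_le _ _ _ hf1) hΨ3 ((h.U_NI (by omega : i2 - 1 < i3) h3 f3 hf3).shift _)
    (((h.U_NI h23 h3 f3 hf3).shift _).mono (h.op i2) le_rfl) t2 ht2
  have e3 := h.second (i := i3) (by omega) h3 f3
    (fun x => sv (Np i1) (ℓo i1) f1 x * sv (Np i2) (ℓo i2) f2 x) (fun _ => 1) hf3
    ((abs_sv_le _ _ _ hf1).mul (abs_sv_le _ _ _ hf2)) U1_one (NI_one _ _ _ hκ) (NI_one _ _ _ hκ) t3 ht3
  simp only [mul_one] at e3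
  have q1 : mn (fun x => sv (Np i1) (ℓo i1) f1 x * (sv (Np i2) (ℓo i2) f2 x *
      av (Nm i3) (ℓm i3) f3 (x - ((Np i3 * t3 : ℕ) : ZMod P)))) =
      mn (fun x => sv (Np i1) (ℓo i1) f1 x * sv (Np i2) (ℓo i2) f2 x *
      av (Nm i3) (ℓm i3) f3 (x - ((Np i3 * t3 : ℕ) : ZMod P))) := by
    congr 1; funext x; ring
  have q2 : mn (fun x => sv (Np i1) (ℓo i1) f1 x * (sv (Np i2) (ℓo i2) f2 x *
      sv (Np i3) (ℓo i3) f3 x)) =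
      mn (fun x => sv (Np i1) (ℓo i1) f1 x * sv (Np i2) (ℓo i2) f2 x *
      sv (Np i3) (ℓo i3) f3 x) := by
    congr 1; funext x; ring
  rw [q1] at e2
  rw [q2]
  rw [abs_le] at e1 e2 e3 ⊢
  constructor <;> linarith [e1.1, e1.2, e2.1, e2.2, e3.1, e3.2]

/-- the jumps at the levels of a block are small on average -/
theorem Sc.jumps (h : Sc j Np Nm ℓm ℓo ℓp κ) (g : ZMod P → ℝ) (hg : U1 g) (i₀ D : ℕ) (hi₀ : 1 ≤ i₀)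
    (hD : i₀ + D ≤ j) :
    (∑ q ∈ range D, Jp Np ℓp (i₀ + q) g) ^ 2 ≤ D * (1 + 4 * D * κ) := by
  have hκ := h.κ0
  have h1 : ∀ q ∈ range D, Jp Np ℓp (i₀ + q) g ^ 2 ≤
      mn (fun x => av (Np (i₀ + q - 1)) (ℓp (i₀ + q - 1)) g x ^ 2) -
        mn (fun x => av (Np (i₀ + q)) (ℓp (i₀ + q)) g x ^ 2) + 4 * κ := by
    intro q hq
    have hq' := mem_range.1 hq
    have h2 := energy (Np (i₀ + q - 1)) (ℓp (i₀ + q - 1)) (Np (i₀ + q)) (ℓp (i₀ + q)) (h.p1 _) (h.p1 _)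
      g hg (2 * κ) (fun x =>
        (h.Sp_NI_prev (by omega : 1 ≤ i₀ + q) (by omega) g hg).sv_close (h.p1 _) le_rfl x)
    refine (le_trans ?_ h2).trans (le_of_eq (by ring))
    unfold Jp
    refine (sq_mn_le _).trans (le_of_eq ?_)
    congr 1
    funext x
    exact sq_abs _
  have h3 : (∑ q ∈ range D, Jp Np ℓp (i₀ + q) g) ^ 2 ≤ D * ∑ q ∈ range D, Jp Np ℓp (i₀ + q) g ^ 2 := by
    have := sq_sum_le_card_mul_sum_sq (s := range D) (f := fun q => Jp Np ℓp (i₀ + q) g)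
    rwa [card_range] at this
  refine h3.trans (mul_le_mul_of_nonneg_left ?_ (Nat.cast_nonneg _))
  have h4 : ∀ D : ℕ, i₀ + D ≤ j → ∑ q ∈ range D, (mn (fun x => av (Np (i₀ + q - 1)) (ℓp (i₀ + q - 1)) g x ^ 2) -
        mn (fun x => av (Np (i₀ + q)) (ℓp (i₀ + q)) g x ^ 2) + 4 * κ) =
      mn (fun x => av (Np (i₀ - 1)) (ℓp (i₀ - 1)) g x ^ 2) -
        mn (fun x => av (Np (i₀ + D - 1)) (ℓp (i₀ + D - 1)) g x ^ 2) + 4 * D * κ := by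
    intro D hD
    induction D with
    | zero => simp
    | succ D ih =>
        rw [sum_range_succ, ih (by omega)]
        have : i₀ + (D + 1) - 1 = i₀ + D := by omega
        rw [this]
        push_cast
        ring
  refine (sum_le_sum h1).trans ?_
  rw [h4 D hD]
  have h5 := mn_sq_le_one (av (Np (i₀ - 1)) (ℓp (i₀ - 1)) g) (abs_av_le _ _ _ hg)
  have h6 : 0 ≤ mn (fun x => av (Np (i₀ + D - 1)) (ℓp (i₀ + D - 1)) g x ^ 2) :=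
    mn_nonneg fun x => sq_nonneg _
  linarith

theorem Jp_nonneg (i : ℕ) (g : ZMod P → ℝ) : 0 ≤ Jp Np ℓp i g := mn_nonneg fun _ => abs_nonneg _

end

end Pool.Agent.U570.AG
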