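import Pool.Agent.U570.AG.NT
import Pool.Agent.U570.AG.Core

/-! Assembly. -/

set_option autoImplicit false

namespace Pool.Agent.U570.AG

open Finset Filter Pool.Agent.U570.AF

theorem nu_dvd (a b : ℕ) (M K d k k' : ℕ) (hd : 1 ≤ d)
    (hM : ∀ h : ℕ, 1 ≤ h → h ≤ K → ((a * b : ℕ) : ℤ) ^ K * ((a : ℤ) ^ h - (b : ℤ) ^ h) ∣ (M : ℤ))
    (hkk : k < k') (hk' : k' ≤ K) (ha : 1 ≤ a) (hb : 1 ≤ b) :
    ((nu a b M d k : ℤ) - nu a b M d k') ∣ ((M ^ (2 * d + 1) : ℕ) : ℤ) := by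
  obtain ⟨h, rfl⟩ : ∃ h, k' = k + h := ⟨k' - k, by omega⟩
  have h1 := hM h (by omega) (by omega)
  have h2 : (a : ℤ) ^ (k + h) ∣ M := by
    refine dvd_trans ?_ (dvd_of_mul_right_dvd h1)
    push_cast
    rw [mul_pow]
    exact Dvd.dvd.mul_right (pow_dvd_pow _ hk') _
  have h3 : a ^ (k + h) ∣ M := by exact_mod_cast h2
  obtain ⟨μ, hμ⟩ := h3
  have ha' : 0 < a ^ (k + h) := pow_pos ha _
  have e1 : M / a ^ (k + h) = μ := by rw [hμ]; exact Nat.mul_div_cancel_left _ ha'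
  have e2 : M / a ^ k = a ^ h * μ := by
    rw [hμ, pow_add, mul_assoc]
    exact Nat.mul_div_cancel_left _ (pow_pos ha _)
  have e3 : ((nu a b M d k : ℤ) - nu a b M d (k + h)) =
      (M : ℤ) ^ (2 * d - 1) * (((b : ℤ) ^ k * ((a : ℤ) ^ h - (b : ℤ) ^ h)) * μ) := by
    unfold nu
    rw [e1, e2]
    push_cast
    rw [pow_add]
    ring
  have e4 : ((M ^ (2 * d + 1) : ℕ) : ℤ) = (M : ℤ) ^ (2 * d - 1) * ((M : ℤ) * (M : ℤ)) := by
    push_cast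
    rw [← pow_two, ← pow_add]
    congr 1
    omega
  rw [e3, e4]
  refine mul_dvd_mul_left _ (mul_dvd_mul ?_ ?_)
  · refine dvd_trans (mul_dvd_mul_right ?_ _) h1
    push_cast
    rw [mul_pow]
    exact Dvd.dvd.mul_left (pow_dvd_pow _ (by omega)) _
  · exact ⟨(a : ℤ) ^ (k + h), by rw [hμ]; push_cast; ring⟩

theorem nu_dvd' (a b : ℕ) (M K d k k' : ℕ) (hd : 1 ≤ d)
    (hM : ∀ h : ℕ, 1 ≤ h → h ≤ K → ((a * b : ℕ) : ℤ) ^ K * ((a : ℤ) ^ h - (b : ℤ) ^ h) ∣ (M : ℤ))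
    (hkk : k ≠ k') (hk : k ≤ K) (hk' : k' ≤ K) (ha : 1 ≤ a) (hb : 1 ≤ b) :
    ((nu a b M d k : ℤ) - nu a b M d k') ∣ ((M ^ (2 * d + 1) : ℕ) : ℤ) := by
  rcases lt_or_gt_of_ne hkk with h | h
  · exact nu_dvd a b M K d k k' hd hM h hk' ha hb
  · rw [← neg_sub]
    exact (neg_dvd).2 (nu_dvd a b M K d k' k hd hM h hk ha hb)

theorem nu_le (a b M T K d k : ℕ) (hM : 1 ≤ M) (hb : 1 ≤ b) (hdT : d ≤ T) (hk : k ≤ K) :
    nu a b M d k ≤ M ^ (2 * T) * (b ^ K * M) := by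
  unfold nu
  refine Nat.mul_le_mul (Nat.pow_le_pow_right hM (by omega)) ?_
  exact Nat.mul_le_mul (Nat.pow_le_pow_right hb hk) (Nat.div_le_self _ _)

open Classical in
theorem main (ε : ℝ) (hε : 0 < ε) : ∃ K A : ℕ, 1 ≤ K ∧ ∀ a b : ℕ, 1 ≤ a → 1 ≤ b → a.Coprime b →
    1 < a * b → ∀ q : ℕ, Mo a b q → ∀ M : ℕ, 1 ≤ M →
    (∀ h : ℕ, 1 ≤ h → h ≤ K → ((a * b : ℕ) : ℤ) ^ K * ((a : ℤ) ^ h - (b : ℤ) ^ h) ∣ (M : ℤ)) →
    ∀ β : ℤ, IsCoprime β q → ∃ Y₀ : ℕ, ∀ Y : ℕ, Y₀ ≤ Y → ∀ X : ℕ,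
    ∃ k α : ℕ, 1 ≤ k ∧ k ≤ K ∧ α ≤ A ∧
      (1 - ε) * (Y : ℝ) ≤ (((Ico X (X + Y)).filter (fun x => GoodE (a ^ k) (b ^ k)
        (β * ((a : ℤ) ^ k - (b : ℤ) ^ k) + q * ((a ^ k * M ^ α * x : ℕ) : ℤ)))).card : ℝ) := by
  rcases le_or_gt 1 ε with hε3 | hε3
  · refine ⟨1, 0, le_rfl, fun a b _ _ _ _ q _ M _ _ β _ => ⟨0, fun Y _ X =>
      ⟨1, 0, le_rfl, le_rfl, le_rfl, ?_⟩⟩⟩
    refine le_trans ?_ (Nat.cast_nonneg _)
    exact mul_nonpos_of_nonpos_of_nonneg (by linarith) (Nat.cast_nonneg _)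
  obtain ⟨T, R, hT, hR, c, hc, hcore⟩ := core ε hε hε3.le
  obtain ⟨C, δ, hC, hδ, hnt⟩ := nt_bound
  obtain ⟨N, hN1, hN⟩ : ∃ N : ℕ, 1 ≤ N ∧ C * (N : ℝ) ^ (-δ) < c := by
    have h1 : Tendsto (fun N : ℕ => C * (N : ℝ) ^ (-δ)) atTop (nhds (C * 0)) :=
      ((tendsto_rpow_neg_atTop hδ).comp tendsto_natCast_atTop_atTop).const_mul C
    rw [mul_zero] at h1
    have h2 := (h1.eventually (gt_mem_nhds hc)).and (eventually_ge_atTop 1)
    obtain ⟨N, h3, h4⟩ := h2.exists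
    exact ⟨N, h4, h3⟩
  have hK1 : 1 ≤ 2 * R * (T + 1) := Nat.mul_pos (by omega) (by omega)
  refine ⟨2 * R * (T + 1), 2 * T, hK1, fun a b ha hb hab h1ab q hq M hM1 hM β hβ => ?_⟩
  by_contra hcon
  push Not at hcon
  have haM : ∀ k, k ≤ 2 * R * (T + 1) → a ^ k ∣ M := by
    intro k hk
    have h1 := hM 1 le_rfl hK1
    have h2 : (a : ℤ) ^ k ∣ M := by
      refine dvd_trans ?_ (dvd_of_mul_right_dvd h1)
      push_cast
      rw [mul_pow]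
      exact Dvd.dvd.mul_right (pow_dvd_pow _ hk) _
    exact_mod_cast h2
  obtain ⟨Γ, hΓ, hfin⟩ := hcore M (M ^ (2 * T) * (b ^ (2 * R * (T + 1)) * M)) hM1 (nu a b M)
    (fun d k k' hd _ hk hk' hkk => nu_dvd' a b M _ d k k' hd hM hkk hk hk' ha hb)
    (fun d k _ _ _ => Dvd.intro _ rfl)
    (fun d k _ hdT hk => nu_le a b M T _ d k hM1 hb hdT hk)
  choose fY hfY fX hbad using hcon
  obtain ⟨W, hW⟩ : ∃ W : ℕ, W = Γ ^ 5 := ⟨_, rfl⟩
  obtain ⟨τ, hτ0, hτ⟩ : ∃ τ : ℕ → ℕ, τ 0 = 1 + N ∧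
      ∀ j, τ (j + 1) = W * (fY (τ j) + fX (τ j)) + fY (τ j) := by
    refine ⟨fun j => Nat.rec (1 + N) (fun _ t => W * (fY t + fX t) + fY t) j, rfl, fun j => rfl⟩
  have hτm : Monotone τ := by
    refine monotone_nat_of_le_succ fun j => ?_
    rw [hτ]
    have := hfY (τ j)
    exact this.trans (Nat.le_add_left _ _)
  have hτW : ∀ j, 1 + N ≤ τ j := fun j => by rw [← hτ0]; exact hτm (Nat.zero_le j)
  obtain ⟨L, hL⟩ : ∃ L : ℕ → ℕ, L = fun i : ℕ => fY (τ i) := ⟨_, rfl⟩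
  obtain ⟨X, hX⟩ : ∃ X : ℕ → ℕ, X = fun i : ℕ => fX (τ i) := ⟨_, rfl⟩
  have hLT : ∀ i : ℕ, τ i ≤ L i := fun i => by rw [hL]; exact hfY _
  have hL1 : ∀ i, 1 ≤ L i := fun i => by have := hτW i; have := hLT i; omega
  have hL2 : ∀ i, N ≤ L i := fun i => by have := hτW i; have := hLT i; omega
  have hL3 : ∀ i, 1 ≤ i → Γ ^ 5 * (L (i - 1) + X (i - 1)) ≤ L i := by
    intro i hi
    obtain ⟨i', rfl⟩ : ∃ i', i = i' + 1 := ⟨i - 1, by omega⟩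
    rw [Nat.add_sub_cancel, ← hW]
    have h2 := hLT (i' + 1)
    rw [hτ] at h2
    have h3 : W * (L i' + X i') = W * (fY (τ i') + fX (τ i')) := by rw [hL, hX]
    rw [h3]
    omega
  obtain ⟨Bd, hBd⟩ : ∃ Bd : ℕ → ℕ → ℕ → Prop, Bd = fun (j k z : ℕ) => ¬ GoodE (a ^ k) (b ^ k)
    (β * ((a : ℤ) ^ k - (b : ℤ) ^ k) + q * ((a ^ k * M ^ (2 * (T - j)) * z : ℕ) : ℤ)) :=
    ⟨_, rfl⟩
  obtain ⟨i, hi, hiT, hcount⟩ := hfin L X hL1 hL3 Bd (by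
    intro j k hj1 hjT hk1 hk2
    have h1 := hbad (τ j) k (2 * (T - j)) hk1 hk2 (by omega)
    obtain ⟨Gd, hGd⟩ : ∃ Gd : ℕ → Prop, Gd = (fun x : ℕ => GoodE (a ^ k) (b ^ k)
      (β * ((a : ℤ) ^ k - (b : ℤ) ^ k) + q * ((a ^ k * M ^ (2 * (T - j)) * x : ℕ) : ℤ))) :=
      ⟨_, rfl⟩
    have h2 : (((Ico (X j) (X j + L j)).filter Gd).card : ℝ) < (1 - ε) * (L j : ℝ) := by
      rw [hGd, hX, hL]
      convert h1
    have h3 := Finset.card_filter_add_card_filter_not (s := Ico (X j) (X j + L j)) Gd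
    rw [Nat.card_Ico, Nat.add_sub_cancel_left] at h3
    have h4 : (((Ico (X j) (X j + L j)).filter Gd).card : ℝ) +
        (((Ico (X j) (X j + L j)).filter (fun x => ¬ Gd x)).card : ℝ) = L j := by exact_mod_cast h3
    have h5 : ((Ico (X j) (X j + L j)).filter (fun x => ¬ Gd x)).card ≤
        ((range (L j)).filter (fun z => Bd j k (X j + z))).card := by
      refine card_le_card_of_injOn (fun x => x - X j) ?_ ?_
      · intro x hx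
        rw [mem_coe, mem_filter, mem_Ico] at hx
        rw [mem_coe, mem_filter, mem_range]
        have hx1 : x - X j < L j := by omega
        refine ⟨hx1, ?_⟩
        have h6 := hx.2
        have h7 : X j + (x - X j) = x := by omega
        simp only
        rw [h7, hBd]
        rw [hGd] at h6
        exact h6
      · intro x hx x' hx' hxx
        rw [mem_coe, mem_filter, mem_Ico] at hx hx'
        simp only at hxx
        omega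
    have h6 : (((Ico (X j) (X j + L j)).filter (fun x => ¬ Gd x)).card : ℝ) ≤
        (((range (L j)).filter (fun z => Bd j k (X j + z))).card : ℝ) := by
      exact_mod_cast h5
    linarith)
  have h1 := hnt N hN1 a b ha hb hab h1ab q hq β hβ T R M hR hM1 haM L X hL2 i hi hiT
  rw [hBd] at hcount
  have h2 : 0 < ∏ c, (((range R ×ˢ range (L (i c))).card : ℕ) : ℝ) := by
    refine prod_pos fun c _ => ?_
    rw [card_product, card_range, card_range]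
    have h3 : 0 < R * L (i c) := Nat.mul_pos hR (by have := hL1 (i c); omega)
    exact_mod_cast h3
  have h3 : c * ∏ c, (((range R ×ˢ range (L (i c))).card : ℕ) : ℝ) ≤
      C * (N : ℝ) ^ (-δ) * ∏ c, (((range R ×ˢ range (L (i c))).card : ℕ) : ℝ) := by
    refine hcount.trans (le_trans (le_of_eq ?_) h1)
    congr!
  have h4 := le_of_mul_le_mul_right h3 h2
  linarith

theorem mo_pow {a b q : ℕ} (h : Mo a b q) (j : ℕ) : Mo (a ^ j) (b ^ j) q := by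
  refine ⟨h.1, h.2.1, fun p hp hd => h.2.2 p hp ?_⟩
  rw [← mul_pow] at hd
  exact hp.dvd_of_dvd_pow hd

open Classical in
/-- a positive proportion of the exponents -/
theorem mainJ (ε : ℝ) (hε : 0 < ε) : ∃ K A : ℕ, 1 ≤ K ∧ ∀ a b : ℕ, 1 ≤ a → 1 ≤ b → a.Coprime b →
    1 < a * b → ∀ q : ℕ, Mo a b q → ∀ N M : ℕ, 1 ≤ M →
    (∀ h : ℕ, 1 ≤ h → h ≤ N → ((a * b : ℕ) : ℤ) ^ N * ((a : ℤ) ^ h - (b : ℤ) ^ h) ∣ (M : ℤ)) →
    ∀ β : ℤ, IsCoprime β q → ∃ Y₀ : ℕ, ∀ Y : ℕ, Y₀ ≤ Y → ∀ X : ℕ,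
    N / K ≤ ((Icc 1 N).filter (fun k => ∃ α : ℕ, α ≤ A ∧
      (1 - ε) * (Y : ℝ) ≤ (((Ico X (X + Y)).filter (fun x => GoodE (a ^ k) (b ^ k)
        (β * ((a : ℤ) ^ k - (b : ℤ) ^ k) + q * ((a ^ k * M ^ α * x : ℕ) : ℤ)))).card : ℝ))).card := by
  obtain ⟨K, A, hK, h⟩ := main ε hε
  refine ⟨K * K, A, Nat.mul_pos hK hK, fun a b ha hb hab h1ab q hq N M hM1 hM β hβ => ?_⟩
  have hj : ∀ j : ℕ, ∃ Y₀ : ℕ, 1 ≤ j → j * K ≤ N → ∀ Y : ℕ, Y₀ ≤ Y → ∀ X : ℕ,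
      ∃ k α : ℕ, 1 ≤ k ∧ k ≤ K ∧ α ≤ A ∧
      (1 - ε) * (Y : ℝ) ≤ (((Ico X (X + Y)).filter (fun x => GoodE ((a ^ j) ^ k) ((b ^ j) ^ k)
        (β * (((a ^ j : ℕ) : ℤ) ^ k - ((b ^ j : ℕ) : ℤ) ^ k) +
          q * (((a ^ j) ^ k * M ^ α * x : ℕ) : ℤ)))).card : ℝ) := by
    intro j
    by_cases hj : 1 ≤ j ∧ j * K ≤ N
    · obtain ⟨Y₀, hY⟩ := h (a ^ j) (b ^ j) (Nat.one_le_pow _ _ ha) (Nat.one_le_pow _ _ hb)
        (Nat.Coprime.pow _ _ hab) (by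
          rw [← mul_pow]
          exact Nat.one_lt_pow (by omega) h1ab) q (mo_pow hq j) M hM1 (by
          intro i hi hiK
          have h1 := hM (j * i) (Nat.mul_pos hj.1 hi) ((Nat.mul_le_mul_left j hiK).trans hj.2)
          refine dvd_trans ?_ h1
          push_cast
          rw [← pow_mul, ← pow_mul]
          refine mul_dvd_mul_right ?_ _
          rw [← mul_pow, ← pow_mul]
          exact pow_dvd_pow _ hj.2) β hβ
      exact ⟨Y₀, fun _ _ => hY⟩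
    · exact ⟨0, fun h1 h2 => absurd ⟨h1, h2⟩ hj⟩
  choose fY hfY using hj
  refine ⟨(range (N + 1)).sup fY, fun Y hY X => ?_⟩
  obtain ⟨J, hJ⟩ : ∃ J : ℕ, J = N / K := ⟨_, rfl⟩
  have hJN : ∀ j ∈ Icc 1 J, 1 ≤ j ∧ j * K ≤ N := by
    intro j hj
    rw [mem_Icc] at hj
    refine ⟨hj.1, (Nat.mul_le_mul_right K hj.2).trans ?_⟩
    rw [hJ]
    exact Nat.div_mul_le_self N K
  have hjk : ∀ j : ℕ, ∃ k : ℕ, j ∈ Icc 1 J → 1 ≤ k ∧ k ≤ K ∧ ∃ α : ℕ, α ≤ A ∧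
      (1 - ε) * (Y : ℝ) ≤ (((Ico X (X + Y)).filter (fun x => GoodE (a ^ (j * k)) (b ^ (j * k))
        (β * ((a : ℤ) ^ (j * k) - (b : ℤ) ^ (j * k)) +
          q * ((a ^ (j * k) * M ^ α * x : ℕ) : ℤ)))).card : ℝ) := by
    intro j
    by_cases hj : j ∈ Icc 1 J
    · obtain ⟨h1, h2⟩ := hJN j hj
      have h3 : j ≤ N := (Nat.le_mul_of_pos_right _ hK).trans h2
      have h4 : fY j ≤ (range (N + 1)).sup fY := le_sup (f := fY) (mem_range.2 (by omega))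
      obtain ⟨k, α, hk1, hkK, hα, h5⟩ := hfY j h1 h2 Y (h4.trans hY) X
      refine ⟨k, fun _ => ⟨hk1, hkK, α, hα, ?_⟩⟩
      refine h5.trans (le_of_eq ?_)
      congr 3
      funext x
      rw [← pow_mul, ← pow_mul]
      push_cast
      rw [← pow_mul, ← pow_mul]
    · exact ⟨0, fun h1 => absurd h1 hj⟩
  choose kk hkk using hjk
  have h1 : J ≤ K * ((Icc 1 J).image (fun j => j * kk j)).card := by
    have h2 := card_le_mul_card_image (f := fun j => j * kk j) (Icc 1 J) K (by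
      intro n _
      have h3 : (((Icc 1 J).filter (fun j => j * kk j = n)).card) ≤ (Icc 1 K).card := by
        refine card_le_card_of_injOn kk ?_ ?_
        · intro j hj
          rw [mem_coe, mem_filter] at hj
          have h4 := hkk j hj.1
          rw [mem_coe, mem_Icc]
          exact ⟨h4.1, h4.2.1⟩
        · intro j hj j' hj' hjj
          rw [mem_coe, mem_filter] at hj hj'
          have h4 := (hkk j hj.1).1
          have h5 : j * kk j = j' * kk j := by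
            rw [hj.2, hjj, hj'.2]
          exact Nat.eq_of_mul_eq_mul_right h4 h5
      rw [Nat.card_Icc] at h3
      omega)
    rw [Nat.card_Icc] at h2
    omega
  have h2 : ((Icc 1 J).image (fun j => j * kk j)).card ≤ ((Icc 1 N).filter (fun k => ∃ α : ℕ, α ≤ A ∧
      (1 - ε) * (Y : ℝ) ≤ (((Ico X (X + Y)).filter (fun x => GoodE (a ^ k) (b ^ k)
        (β * ((a : ℤ) ^ k - (b : ℤ) ^ k) + q * ((a ^ k * M ^ α * x : ℕ) : ℤ)))).card : ℝ))).card := by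
    refine card_le_card ?_
    intro n hn
    obtain ⟨j, hj, rfl⟩ := mem_image.1 hn
    obtain ⟨h4, h5, h6⟩ := hkk j hj
    obtain ⟨h7, h8⟩ := hJN j hj
    rw [mem_filter, mem_Icc]
    exact ⟨⟨Nat.mul_pos h7 h4, (Nat.mul_le_mul_left j h5).trans h8⟩, h6⟩
  rw [← Nat.div_div_eq_div_mul, ← hJ]
  exact (Nat.div_le_of_le_mul h1).trans h2

end Pool.Agent.U570.AG
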