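import Pool.Agent.TH899.UG.PairsP
import Pool.Agent.U570.AF.NT

/-! Few quadruples of linear forms with slopes `q a ^ (K - e) b ^ e` are bad. -/

set_option autoImplicit false

namespace Pool.Agent.U570.AG

open Finset Filter Pool.Agent.H362R2.CM Pool.Agent.TH899.UG Pool.Agent.U570.AF
open Pool.Agent.H732R3.BigQ

/-- the linear form of a vertex -/
def fg (a b q : ℕ) (β : ℤ) (K E N X : ℕ) (v : ℕ × ℕ) : ℤ × ℤ :=
  (q * ((a : ℤ) ^ (K - (E + v.1)) * (b : ℤ) ^ (E + v.1)), β + q * ((N : ℤ) * ((X : ℤ) + v.2)))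

/-- the modulus `q` is divisible by `6` and by the prime factors of `a b` -/
def Mo (a b q : ℕ) : Prop := 1 ≤ q ∧ 6 ∣ q ∧ ∀ p : ℕ, p.Prime → p ∣ a * b → p ∣ q

/-- the multipliers -/
def nu (a b M d k : ℕ) : ℕ := M ^ (2 * d - 1) * (b ^ k * (M / a ^ k))

theorem slope_inj (a b : ℕ) (ha : 1 ≤ a) (hb : 1 ≤ b) (hab : a.Coprime b) (h1 : 1 < a * b) (K e e' : ℕ)
    (hee : e < e') (he' : e' ≤ K) : a ^ (K - e) * b ^ e ≠ a ^ (K - e') * b ^ e' := by
  intro h
  have e1 : a ^ (K - e) * b ^ e = (a ^ (K - e') * b ^ e) * a ^ (e' - e) := by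
    have : K - e = (K - e') + (e' - e) := by omega
    rw [this, pow_add]; ring
  have e2 : a ^ (K - e') * b ^ e' = (a ^ (K - e') * b ^ e) * b ^ (e' - e) := by
    have : b ^ e' = b ^ e * b ^ (e' - e) := by rw [← pow_add]; congr 1; omega
    rw [this]; ring
  rw [e1, e2] at h
  have h2 : a ^ (e' - e) = b ^ (e' - e) :=
    Nat.eq_of_mul_eq_mul_left (Nat.mul_pos (pow_pos ha _) (pow_pos hb _)) h
  have h3 : a = b := Nat.pow_left_injective (by omega : e' - e ≠ 0) h2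
  subst h3
  have h4 : a = 1 := by simpa using hab
  subst h4
  omega

theorem fg_injOn (a b q : ℕ) (ha : 1 ≤ a) (hb : 1 ≤ b) (hab : a.Coprime b) (h1 : 1 < a * b) (hq : 1 ≤ q)
    (β : ℤ) (K E N X R L : ℕ) (hE : E + R ≤ K) (hN : 1 ≤ N) :
    Set.InjOn (fg a b q β K E N X) (range R ×ˢ range L : Finset (ℕ × ℕ)) := by
  intro v hv w hw h
  rw [mem_coe, mem_product, mem_range, mem_range] at hv hw
  simp only [fg, Prod.mk.injEq] at h
  obtain ⟨h2, h3⟩ := h
  have ha0 : (0 : ℤ) < a := by exact_mod_cast ha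
  have hb0 : (0 : ℤ) < b := by exact_mod_cast hb
  have hN0 : (N : ℤ) ≠ 0 := by exact_mod_cast (by omega : N ≠ 0)
  have h60 : (q : ℤ) ≠ 0 := by exact_mod_cast (by omega : q ≠ 0)
  have h4 := mul_left_cancel₀ h60 h2
  have h5 : a ^ (K - (E + v.1)) * b ^ (E + v.1) = a ^ (K - (E + w.1)) * b ^ (E + w.1) := by
    exact_mod_cast h4
  have h6 : v.1 = w.1 := by
    rcases lt_trichotomy v.1 w.1 with h7 | h7 | h7
    · exact absurd h5 (slope_inj a b ha hb hab h1 K _ _ (by omega) (by omega))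
    · exact h7
    · exact absurd h5.symm (slope_inj a b ha hb hab h1 K _ _ (by omega) (by omega))
  have h8 : (q : ℤ) * (N * (X + v.2)) = q * (N * (X + w.2)) := by linarith
  have h9 := mul_left_cancel₀ hN0 (mul_left_cancel₀ h60 h8)
  refine Prod.ext h6 ?_
  omega

theorem cop_c (a b q : ℕ) (hab : a.Coprime b) (hq : Mo a b q) (β : ℤ) (hβ : IsCoprime β q) (k : ℕ)
    (hk1 : 1 ≤ k) (c y : ℤ) (hcy : c = β * ((a : ℤ) ^ k - (b : ℤ) ^ k) + q * y) (m : ℕ)
    (hm : ∀ p : ℕ, p.Prime → p ∣ m → p ∣ a * b) : IsCoprime (m : ℤ) c := by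
  rw [Int.isCoprime_iff_gcd_eq_one]
  by_contra hne
  obtain ⟨p, hp, hpd⟩ := Nat.exists_prime_and_dvd hne
  have hpz := Nat.prime_iff_prime_int.1 hp
  have h1 : (p : ℤ) ∣ m := (Int.natCast_dvd_natCast.2 hpd).trans (Int.gcd_dvd_left _ _)
  have h2 : (p : ℤ) ∣ c := (Int.natCast_dvd_natCast.2 hpd).trans (Int.gcd_dvd_right _ _)
  have h3 := hm p hp (Int.natCast_dvd_natCast.1 h1)
  have h4 : (p : ℤ) ∣ q := Int.natCast_dvd_natCast.2 (hq.2.2 p hp h3)
  have h5 : (p : ℤ) ∣ β * ((a : ℤ) ^ k - (b : ℤ) ^ k) := by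
    have : β * ((a : ℤ) ^ k - (b : ℤ) ^ k) = c - q * y := by rw [hcy]; ring
    rw [this]
    exact dvd_sub h2 (Dvd.dvd.mul_right h4 _)
  rcases hpz.dvd_or_dvd h5 with h6 | h6
  · exact hpz.not_isUnit (hβ.isUnit_of_dvd' h6 h4)
  · have hco : ¬ (p ∣ a ∧ p ∣ b) := fun h7 => by
      have h8 := Nat.dvd_gcd h7.1 h7.2
      rw [hab.gcd_eq_one] at h8
      exact hp.one_lt.ne' (Nat.dvd_one.1 h8)
    rcases (Nat.Prime.dvd_mul hp).1 h3 with h7 | h7
    · apply hco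
      refine ⟨h7, ?_⟩
      have h8 : (p : ℤ) ∣ (a : ℤ) ^ k := (Int.natCast_dvd_natCast.2 h7).trans (dvd_pow_self _ (by omega))
      have h9 := dvd_sub h8 h6
      rw [sub_sub_cancel] at h9
      exact Int.natCast_dvd_natCast.1 (hpz.dvd_of_dvd_pow h9)
    · apply hco
      refine ⟨?_, h7⟩
      have h8 : (p : ℤ) ∣ (b : ℤ) ^ k := (Int.natCast_dvd_natCast.2 h7).trans (dvd_pow_self _ (by omega))
      have h9 := dvd_add h6 h8
      rw [sub_add_cancel] at h9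
      exact Int.natCast_dvd_natCast.1 (hpz.dvd_of_dvd_pow h9)

/-- the hypotheses of the question -/
theorem adm_of (a b q : ℕ) (ha : 1 ≤ a) (hb : 1 ≤ b) (hab : a.Coprime b) (h1 : 1 < a * b)
    (hq : Mo a b q) (β : ℤ) (hβ : IsCoprime β q) (k : ℕ) (hk1 : 1 ≤ k) (c y : ℤ)
    (hcy : c = β * ((a : ℤ) ^ k - (b : ℤ) ^ k) + q * y) : AdmE (a ^ k) (b ^ k) c := by
  have habz : IsCoprime (a : ℤ) b := Nat.isCoprime_iff_coprime.2 hab
  have hac : IsCoprime (a : ℤ) c := cop_c a b q hab hq β hβ k hk1 c y hcy a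
    (fun p _ h => Dvd.dvd.mul_right h b)
  have hbc : IsCoprime (b : ℤ) c := cop_c a b q hab hq β hβ k hk1 c y hcy b
    (fun p _ h => Dvd.dvd.mul_left h a)
  refine ⟨Nat.one_le_pow _ _ ha, Nat.one_le_pow _ _ hb, ?_, ?_, ?_, ?_, ?_⟩
  · intro hc0
    rw [hc0] at hac hbc
    have h2 : a = 1 := by
      have := isCoprime_zero_right.1 hac
      rw [Int.isUnit_iff] at this
      omega
    have h3 : b = 1 := by
      have := isCoprime_zero_right.1 hbc
      rw [Int.isUnit_iff] at this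
      omega
    rw [h2, h3] at h1
    omega
  · push_cast
    exact habz.pow
  · push_cast
    exact hac.pow_left
  · push_cast
    exact hbc.pow_left
  · rintro ⟨h2, h3, h4⟩
    have h5 : Odd ((a : ℤ) ^ k) := by exact_mod_cast h2
    have h6 : Odd ((b : ℤ) ^ k) := by exact_mod_cast h3
    have h7 : Even ((a : ℤ) ^ k - (b : ℤ) ^ k) := Odd.sub_odd h5 h6
    have h8 : Even c := by
      rw [hcy]
      refine Even.add (h7.mul_left _) ?_
      obtain ⟨q', hq'⟩ := hq.2.1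
      have : Even (q : ℤ) := ⟨3 * q', by rw [hq']; push_cast; ring⟩
      exact this.mul_right _
    exact (Int.not_even_iff_odd.2 h4) h8

theorem good_of_big (a b q : ℕ) (ha : 1 ≤ a) (hb : 1 ≤ b) (hab : a.Coprime b) (h1 : 1 < a * b)
    (hq : Mo a b q) (β : ℤ) (hβ : IsCoprime β q) (f g : ℤ × ℤ) (k : ℕ) (hk1 : 1 ≤ k) (hf : 0 < f.1)
    (c y : ℤ) (hcy : c = β * ((a : ℤ) ^ k - (b : ℤ) ^ k) + q * y)
    (hslope : (a : ℤ) ^ k * g.1 = (b : ℤ) ^ k * f.1) (hc : (a : ℤ) ^ k * g.2 - (b : ℤ) ^ k * f.2 = c)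
    (hbig : Big {n : ℕ | (0 < f.1 * (n : ℤ) + f.2 ∧ Prime (f.1 * (n : ℤ) + f.2)) ∧
      (0 < g.1 * (n : ℤ) + g.2 ∧ Prime (g.1 * (n : ℤ) + g.2))}) :
    GoodE (a ^ k) (b ^ k) c := by
  have hB : Big {q : ℕ | q.Prime ∧ ∃ p : ℕ, p.Prime ∧ ((a ^ k : ℕ) : ℤ) * (p : ℤ) -
      ((b ^ k : ℕ) : ℤ) * (q : ℤ) = c} := by
    have hfz : ((f.1.toNat : ℕ) : ℤ) = f.1 := Int.toNat_of_nonneg hf.le
    refine Big.affine hbig f.1.toNat f.2 (by omega) (fun n => (f.1 * (n : ℤ) + f.2).toNat) ?_ ?_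
    · intro n hn
      rw [hfz]
      exact Int.toNat_of_nonneg hn.1.1.le
    · intro n hn
      obtain ⟨⟨h1, h2⟩, h3, h4⟩ := hn
      refine ⟨?_, (g.1 * (n : ℤ) + g.2).toNat, ?_, ?_⟩
      · rw [Nat.prime_iff_prime_int, Int.toNat_of_nonneg h1.le]
        exact h2
      · rw [Nat.prime_iff_prime_int, Int.toNat_of_nonneg h3.le]
        exact h4
      · rw [Int.toNat_of_nonneg h1.le, Int.toNat_of_nonneg h3.le]
        push_cast
        linear_combination (n : ℤ) * hslope + hc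
  have hInf : {pq : ℕ × ℕ | pq.1.Prime ∧ pq.2.Prime ∧ ((a ^ k : ℕ) : ℤ) * pq.1 -
      ((b ^ k : ℕ) : ℤ) * pq.2 = c}.Infinite := by
    apply Set.Infinite.of_image Prod.snd
    refine hB.infinite.mono ?_
    rintro q ⟨hq, p, hp, hpq⟩
    exact ⟨(p, q), ⟨hp, hq, hpq⟩, rfl⟩
  exact ⟨adm_of a b q ha hb hab h1 hq β hβ k hk1 c y hcy, hInf, hB⟩

/-- the pair of two vertices -/
theorem good_pair (a b q : ℕ) (ha : 1 ≤ a) (hb : 1 ≤ b) (hab : a.Coprime b) (h1 : 1 < a * b)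
    (hq : Mo a b q) (β : ℤ) (hβ : IsCoprime β q) (T R M K : ℕ) (hKK : K = 2 * R * (T + 1))
    (hM : ∀ k, k ≤ K → a ^ k ∣ M) (i j : ℕ) (hij : i < j) (hj : j ≤ T) (X X' : ℕ) (v w : ℕ × ℕ)
    (hv : v.1 < R) (hw : w.1 < R) (z : ℕ)
    (hz : z + nu a b M (j - i) (2 * R * (j - i) + w.1 - v.1) * (X + v.2) = X' + w.2)
    (hbig : Big {n : ℕ | (0 < (fg a b q β K (2 * R * i) (M ^ (2 * (T - i))) X v).1 * (n : ℤ) +
        (fg a b q β K (2 * R * i) (M ^ (2 * (T - i))) X v).2 ∧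
        Prime ((fg a b q β K (2 * R * i) (M ^ (2 * (T - i))) X v).1 * (n : ℤ) +
        (fg a b q β K (2 * R * i) (M ^ (2 * (T - i))) X v).2)) ∧
      (0 < (fg a b q β K (2 * R * j) (M ^ (2 * (T - j))) X' w).1 * (n : ℤ) +
        (fg a b q β K (2 * R * j) (M ^ (2 * (T - j))) X' w).2 ∧
        Prime ((fg a b q β K (2 * R * j) (M ^ (2 * (T - j))) X' w).1 * (n : ℤ) +
        (fg a b q β K (2 * R * j) (M ^ (2 * (T - j))) X' w).2))}) :
    GoodE (a ^ (2 * R * (j - i) + w.1 - v.1)) (b ^ (2 * R * (j - i) + w.1 - v.1))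
      (β * ((a : ℤ) ^ (2 * R * (j - i) + w.1 - v.1) - (b : ℤ) ^ (2 * R * (j - i) + w.1 - v.1)) +
        q * ((a ^ (2 * R * (j - i) + w.1 - v.1) * M ^ (2 * (T - j)) * z : ℕ) : ℤ)) := by
  obtain ⟨k, hk⟩ : ∃ k, k = 2 * R * (j - i) + w.1 - v.1 := ⟨_, rfl⟩
  have q1 : 2 * R * 1 ≤ 2 * R * (j - i) := Nat.mul_le_mul_left _ (by omega)
  have q2 : 2 * R * (j - i) + 2 * R * i = 2 * R * j := by
    rw [← Nat.mul_add]; congr 1; omega
  have q3 : 2 * R * j ≤ 2 * R * T := Nat.mul_le_mul_left _ hj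
  have q4 : 2 * R * (T + 1) = 2 * R * T + 2 * R := by ring
  rw [← hk] at hz ⊢
  have hk1 : 1 ≤ k := by omega
  have hkK : k ≤ K := by omega
  have hkE : 2 * R * i + v.1 + k = 2 * R * j + w.1 := by omega
  refine good_of_big a b q ha hb hab h1 hq β hβ (fg a b q β K (2 * R * i) (M ^ (2 * (T - i))) X v)
    (fg a b q β K (2 * R * j) (M ^ (2 * (T - j))) X' w) k hk1 ?_ _
    ((a ^ k * M ^ (2 * (T - j)) * z : ℕ) : ℤ) rfl ?_ ?_ hbig
  · have ha0 : (0 : ℤ) < a := by exact_mod_cast ha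
    have hb0 : (0 : ℤ) < b := by exact_mod_cast hb
    have hq0 : (0 : ℤ) < q := by exact_mod_cast hq.1
    unfold fg
    positivity
  · simp only [fg]
    have e1 : (a : ℤ) ^ (K - (2 * R * i + v.1)) = (a : ℤ) ^ k * (a : ℤ) ^ (K - (2 * R * j + w.1)) := by
      rw [← pow_add]; congr 1; omega
    have e2 : (b : ℤ) ^ (2 * R * j + w.1) = (b : ℤ) ^ k * (b : ℤ) ^ (2 * R * i + v.1) := by
      rw [← pow_add]; congr 1; omega
    rw [e1, e2]
    ring
  · simp only [fg]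
    have e1 : a ^ k * (M ^ (2 * (T - j)) * nu a b M (j - i) k) = b ^ k * M ^ (2 * (T - i)) := by
      unfold nu
      have e3 : a ^ k * (M / a ^ k) = M := Nat.mul_div_cancel' (hM k hkK)
      have e4 : M ^ (2 * (T - i)) = M ^ (2 * (T - j)) * (M ^ (2 * (j - i) - 1) * M) := by
        rw [← pow_succ, ← pow_add]; congr 1; omega
      rw [e4]
      calc a ^ k * (M ^ (2 * (T - j)) * (M ^ (2 * (j - i) - 1) * (b ^ k * (M / a ^ k)))) =
          b ^ k * (M ^ (2 * (T - j)) * (M ^ (2 * (j - i) - 1) * (a ^ k * (M / a ^ k)))) := by ring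
        _ = _ := by rw [e3]
    have e2 : (a : ℤ) ^ k * ((M : ℤ) ^ (2 * (T - j)) * (nu a b M (j - i) k : ℤ)) =
        (b : ℤ) ^ k * (M : ℤ) ^ (2 * (T - i)) := by exact_mod_cast e1
    have hz' : (z : ℤ) + (nu a b M (j - i) k : ℤ) * (X + v.2) = X' + w.2 := by exact_mod_cast hz
    push_cast
    linear_combination (-(q : ℤ) * (a : ℤ) ^ k * (M : ℤ) ^ (2 * (T - j))) * hz' +
      ((q : ℤ) * (X + v.2)) * e2

open Classical in
theorem nt_bound : ∃ C δ : ℝ, 0 < C ∧ 0 < δ ∧ ∀ N : ℕ, 1 ≤ N → ∀ a b : ℕ, 1 ≤ a → 1 ≤ b →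
    a.Coprime b → 1 < a * b → ∀ q : ℕ, Mo a b q → ∀ β : ℤ, IsCoprime β q → ∀ T R M : ℕ, 1 ≤ R → 1 ≤ M →
    (∀ k, k ≤ 2 * R * (T + 1) → a ^ k ∣ M) → ∀ L X : ℕ → ℕ, (∀ i, N ≤ L i) →
    ∀ i : Fin 4 → ℕ, StrictMono i → (∀ c, 1 ≤ i c ∧ i c ≤ T) →
    (((Fintype.piFinset (fun c => range R ×ˢ range (L (i c)))).filter (fun w => ∀ c d, c < d →
      ∃ z : ℕ, z + nu a b M (i d - i c) (2 * R * (i d - i c) + (w d).1 - (w c).1) * (X (i c) + (w c).2) =
        X (i d) + (w d).2 ∧ ¬ GoodE (a ^ (2 * R * (i d - i c) + (w d).1 - (w c).1))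
          (b ^ (2 * R * (i d - i c) + (w d).1 - (w c).1))
          (β * ((a : ℤ) ^ (2 * R * (i d - i c) + (w d).1 - (w c).1) -
            (b : ℤ) ^ (2 * R * (i d - i c) + (w d).1 - (w c).1)) +
          q * ((a ^ (2 * R * (i d - i c) + (w d).1 - (w c).1) *
            M ^ (2 * (T - i d)) * z : ℕ) : ℤ)))).card : ℝ) ≤
      C * (N : ℝ) ^ (-δ) * ∏ c, (((range R ×ˢ range (L (i c))).card : ℕ) : ℝ) := by
  obtain ⟨C, δ, hC, hδ, _, h⟩ := almost_all_pow 4 TwoHit Big hitP_four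
  refine ⟨C, δ, hC, hδ, ?_⟩
  intro N hN a b ha hb hab h1ab q hq β hβ T R M hR hM1 hM L X hL i hi hiT
  obtain ⟨K, hK⟩ : ∃ K : ℕ, K = 2 * R * (T + 1) := ⟨_, rfl⟩
  obtain ⟨V, hV⟩ : ∃ V : Fin 4 → Finset (ℕ × ℕ), V = fun c => range R ×ˢ range (L (i c)) := ⟨_, rfl⟩
  obtain ⟨g, hg⟩ : ∃ g : Fin 4 → ℕ × ℕ → ℤ × ℤ, g = fun c =>
    fg a b q β K (2 * R * (i c)) (M ^ (2 * (T - i c))) (X (i c)) := ⟨_, rfl⟩
  have ha0 : (0 : ℤ) < a := by exact_mod_cast ha
  have hb0 : (0 : ℤ) < b := by exact_mod_cast hb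
  have hq0 : (0 : ℤ) < q := by exact_mod_cast hq.1
  have hginj : ∀ c, Set.InjOn (g c) (V c) := fun c => by
    rw [hg, hV]
    refine fg_injOn a b q ha hb hab h1ab hq.1 β K _ _ _ R _ ?_ (Nat.one_le_pow _ _ hM1)
    have q3 : 2 * R * i c ≤ 2 * R * T := Nat.mul_le_mul_left _ (hiT c).2
    have q4 : 2 * R * (T + 1) = 2 * R * T + 2 * R := by ring
    omega
  have hcard : ∀ c, ((V c).image (g c)).card = (V c).card := fun c =>
    card_image_of_injOn (hginj c)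
  have h1 := h N hN (fun c => (V c).image (g c)) (by
    intro c f hf
    obtain ⟨v, _, rfl⟩ := mem_image.1 hf
    rw [hg]
    simp only [fg]
    positivity) (by
    intro c
    rw [hcard, hV]
    rw [card_product, card_range, card_range]
    exact (hL (i c)).trans (Nat.le_mul_of_pos_left _ hR))
  simp only [hcard] at h1
  have h2 : ∏ c, (((range R ×ˢ range (L (i c))).card : ℕ) : ℝ) = ∏ c, ((V c).card : ℝ) := by
    rw [hV]
  rw [h2]
  refine le_trans ?_ h1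
  rw [Nat.cast_le]
  refine card_le_card_of_injOn (fun w c => g c (w c)) ?_ ?_
  · intro w hw
    rw [mem_coe, mem_filter, Fintype.mem_piFinset] at hw
    simp only [coe_filter, Set.mem_ofPred_eq, Fintype.mem_piFinset]
    refine ⟨fun c => mem_image_of_mem _ (by rw [hV]; exact hw.1 c), ?_, ?_⟩
    · intro p hp
      have hnd : (p : ℤ) ∣ q → ∀ c, ¬ (p : ℤ) ∣ (g c (w c)).2 := by
        intro h3 c h4
        rw [hg] at h4
        simp only [fg] at h4
        have h5 : (p : ℤ) ∣ β := by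
          have := dvd_sub h4 (Dvd.dvd.mul_right h3
            (((M ^ (2 * (T - i c)) : ℕ) : ℤ) * ((X (i c) : ℤ) + (w c).2)))
          simpa using this
        have h6 := hβ.isUnit_of_dvd' h5 h3
        exact (Nat.prime_iff_prime_int.1 hp).not_isUnit h6
      by_cases hp4 : 4 < p
      · obtain ⟨n', hn'⟩ := Pool.Agent.H361R2.exists_avoid' (m := 4) hp hp4
          (fun c => (g c (w c)).1) (fun c => (g c (w c)).2) (by
            rintro c ⟨h3, h4⟩
            have hpz := Nat.prime_iff_prime_int.1 hp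
            have h5 : (p : ℤ) ∣ q := by
              rw [hg] at h3
              simp only [fg] at h3
              rcases hpz.dvd_or_dvd h3 with h6 | h6
              · exact h6
              · rcases hpz.dvd_or_dvd h6 with h7 | h7
                · exact Int.natCast_dvd_natCast.2 (hq.2.2 p hp (Dvd.dvd.mul_right
                    (Int.natCast_dvd_natCast.1 (hpz.dvd_of_dvd_pow h7)) _))
                · exact Int.natCast_dvd_natCast.2 (hq.2.2 p hp (Dvd.dvd.mul_left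
                    (Int.natCast_dvd_natCast.1 (hpz.dvd_of_dvd_pow h7)) _))
            exact hnd h5 c h4)
        exact ⟨n', hn'⟩
      · refine ⟨0, fun c => ?_⟩
        rw [mul_zero, zero_add]
        apply hnd _ c
        have h3 : p ∣ 6 := by
          have h4 : p = 2 ∨ p = 3 := by
            have := hp.two_le
            rcases (by omega : p = 2 ∨ p = 3 ∨ p = 4) with h5 | h5 | h5
            · exact Or.inl h5
            · exact Or.inr h5
            · rw [h5] at hp; exact absurd hp (by norm_num)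
          rcases h4 with h4 | h4 <;> rw [h4] <;> norm_num
        exact Int.natCast_dvd_natCast.2 (h3.trans hq.2.1)
    · rintro ⟨S, hS1, hS2⟩
      have hS3 : 1 < S.card := hS1
      obtain ⟨i', hi', j', hj', hij'⟩ := Finset.one_lt_card.1 hS3
      have key : ∀ c d : Fin 4, c ∈ S → d ∈ S → c < d → False := by
        intro c d hc hd hcd
        obtain ⟨z, hz1, hz2⟩ := hw.2 c d hcd
        apply hz2
        have hwc := hw.1 c
        have hwd := hw.1 d
        rw [mem_product, mem_range, mem_range] at hwc hwd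
        refine good_pair a b q ha hb hab h1ab hq β hβ T R M K hK (fun k hk => hM k (by omega)) (i c) (i d)
          (hi hcd) (hiT d).2 (X (i c)) (X (i d)) (w c) (w d) hwc.1 hwd.1 z hz1 ?_
        refine hS2.mono ?_
        intro n' hn'
        have h5 := hn' c hc
        have h6 := hn' d hd
        rw [hg] at h5 h6
        exact ⟨h5, h6⟩
      rcases lt_or_gt_of_ne hij' with h3 | h3
      · exact key i' j' hi' hj' h3
      · exact key j' i' hj' hi' h3
  · intro w hw w' hw' hww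
    rw [mem_coe, mem_filter, Fintype.mem_piFinset] at hw hw'
    funext c
    refine hginj c ?_ ?_ (congrFun hww c)
    · rw [hV]; exact hw.1 c
    · rw [hV]; exact hw'.1 c

end Pool.Agent.U570.AG
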