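import Pool.Agent.U570.AG.Setup
import Pool.Agent.U570.AF.Count4

/-! The cut norm bound for a pair of classes. -/

set_option autoImplicit false

namespace Pool.Agent.U570.AG

open Finset Pool.Agent.U570.AF

noncomputable section

theorem cutB_gen {P : ℕ} [NeZero P] (ν : ℕ → ℕ) (K M' ℓ L R D N : ℕ) (hℓ : 1 ≤ ℓ)
    (hM : ∀ k k' : ℕ, k ≤ K → k' ≤ K → k ≠ k' → ((ν k : ℤ) - ν k') ∣ M')
    (hL : 1 ≤ L) (hR : 1 ≤ R) (hD : R ≤ D)
    (hDK : D + R ≤ K) (δ κ x y ρ β : ℝ) (hδ : 0 < δ) (hκ : 0 < κ) (hx : 0 ≤ x) (hy : 0 ≤ y)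
    (hx2 : 2 * κ ≤ x ^ 2) (hy2 : 2 ≤ y ^ 2 * (κ * R)) (hρ : 0 ≤ ρ) (hρL : 2 / δ ≤ ρ * L)
    (hρR : ρ * R ≤ 1) (hN : (N : ℝ) ≤ β * P)
    (F : ℕ → ZMod P → ℝ) (hF0 : ∀ k z, 0 ≤ F k z) (hF1 : ∀ k z, F k z ≤ 1) :
    CutB (range R ×ˢ range L) (range R ×ˢ range P)
      (fun v w => (if N ≤ w.2 then ker F ν D v w else 0) - ker (fun k => av M' ℓ (F k)) ν D v w)
      (x + y + ℓ * M' * δ + β) := by
  intro u u' hu hu'
  have h1 := cut_pair ν K M' ℓ L R D hℓ hM hL hR hD hDK δ κ x y ρ hδ hκ hx hy hx2 hy2 hρ hρL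
    hρR F hF0 hF1 u u' hu hu'
  have h2 : |∑ v ∈ range R ×ˢ range L, ∑ w ∈ range R ×ˢ range P,
      ((if N ≤ w.2 then ker F ν D v w else 0) - ker F ν D v w) * (u v * u' w)| ≤
      β * ((range R ×ˢ range L).card * (range R ×ˢ range P).card) := by
    have h3 : ∀ v w : ℕ × ℕ, |((if N ≤ w.2 then ker F ν D v w else 0) - ker F ν D v w) * (u v * u' w)| ≤
        (if w.2 < N then (1 : ℝ) else 0) := by
      intro v w
      have h4 : |u v * u' w| ≤ 1 := by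
        rw [abs_mul]
        exact mul_le_one₀ (hu v) (abs_nonneg _) (hu' w)
      rw [abs_mul]
      by_cases h : N ≤ w.2
      · rw [if_pos h, sub_self, abs_zero, zero_mul]
        split_ifs <;> norm_num
      · rw [if_neg h, if_pos (not_le.1 h), zero_sub, abs_neg]
        have h5 : |ker F ν D v w| ≤ 1 := abs_le_one_of (hF0 _ _) (hF1 _ _)
        exact mul_le_one₀ h5 (abs_nonneg _) h4
    have h6 : ∑ w ∈ range R ×ˢ range P, (if w.2 < N then (1 : ℝ) else 0) ≤ R * N := by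
      rw [sum_product]
      calc ∑ _s ∈ range R, ∑ b ∈ range P, (if b < N then (1 : ℝ) else 0) ≤ ∑ _s ∈ range R, (N : ℝ) := by
            refine sum_le_sum fun s _ => ?_
            rw [← sum_filter, sum_const, nsmul_eq_mul, mul_one]
            have : (range P).filter (fun b => b < N) ⊆ range N := fun b hb =>
              mem_range.2 (mem_filter.1 hb).2
            have := card_le_card this
            rw [card_range] at this
            exact_mod_cast this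
        _ = R * N := by rw [sum_const, card_range, nsmul_eq_mul]
    calc _ ≤ ∑ v ∈ range R ×ˢ range L, ∑ w ∈ range R ×ˢ range P, (if w.2 < N then (1 : ℝ) else 0) := by
          refine (abs_sum_le_sum_abs _ _).trans (sum_le_sum fun v _ => ?_)
          exact (abs_sum_le_sum_abs _ _).trans (sum_le_sum fun w _ => h3 v w)
      _ ≤ ∑ _v ∈ range R ×ˢ range L, (R * N : ℝ) := sum_le_sum fun v _ => h6
      _ = (range R ×ˢ range L).card * (R * N) := by rw [sum_const, nsmul_eq_mul]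
      _ ≤ (range R ×ˢ range L).card * (R * (β * P)) := by
          refine mul_le_mul_of_nonneg_left ?_ (Nat.cast_nonneg _)
          exact mul_le_mul_of_nonneg_left hN (Nat.cast_nonneg _)
      _ = _ := by
          have : (((range R ×ˢ range P).card : ℕ) : ℝ) = R * P := by
            rw [card_product, card_range, card_range]
            push_cast
            rfl
          rw [this]
          ring
  have h7 : ∑ v ∈ range R ×ˢ range L, ∑ w ∈ range R ×ˢ range P,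
      ((if N ≤ w.2 then ker F ν D v w else 0) - ker (fun k => av M' ℓ (F k)) ν D v w) * (u v * u' w) =
      ∑ v ∈ range R ×ˢ range L, ∑ w ∈ range R ×ˢ range P,
      ((if N ≤ w.2 then ker F ν D v w else 0) - ker F ν D v w) * (u v * u' w) +
      ∑ v ∈ range R ×ˢ range L, ∑ w ∈ range R ×ˢ range P,
      (ker F ν D v w - ker (fun k => av M' ℓ (F k)) ν D v w) * (u v * u' w) := by
    simp_rw [← sum_add_distrib]
    exact sum_congr rfl fun v _ => sum_congr rfl fun w _ => by ring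
  rw [h7]
  refine (abs_add_le _ _).trans ?_
  calc _ ≤ β * ((range R ×ˢ range L).card * (range R ×ˢ range P).card : ℝ) +
      (x + y + ℓ * M' * δ) * ((range R ×ˢ range L).card * (range R ×ˢ range P).card) := add_le_add h2 h1
    _ = _ := by ring

/-- the number `R` of exponents of a class -/
theorem cutB_par {P : ℕ} [NeZero P] (h : ℝ) (hh : 0 < h) (r : ℕ) (hr0 : 0 < r) (hr : 6 / h ≤ r)
    (ν : ℕ → ℕ) (K M' ℓ L D N : ℕ) (hℓ : 1 ≤ ℓ)
    (hM : ∀ k k' : ℕ, k ≤ K → k' ≤ K → k ≠ k' → ((ν k : ℤ) - ν k') ∣ M')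
    (hL : 1 ≤ L) (hD : r ^ 4 ≤ D) (hDK : D + r ^ 4 ≤ K)
    (hL2 : 8 * (r : ℝ) ^ 4 * (ℓ * M' + 1) ≤ h * L) (hN : (N : ℝ) ≤ h / 4 * P)
    (F : ℕ → ZMod P → ℝ) (hF0 : ∀ k z, 0 ≤ F k z) (hF1 : ∀ k z, F k z ≤ 1) :
    CutB (range (r ^ 4) ×ˢ range L) (range (r ^ 4) ×ˢ range P)
      (fun v w => (if N ≤ w.2 then ker F ν D v w else 0) - ker (fun k => av M' ℓ (F k)) ν D v w) h := by
  have hrr : (0 : ℝ) < r := by exact_mod_cast hr0
  have hR1 : 1 ≤ r ^ 4 := Nat.one_le_pow _ _ hr0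
  obtain ⟨δ, hδ⟩ : ∃ δ : ℝ, δ = h / (4 * (ℓ * M' + 1)) := ⟨_, rfl⟩
  have hδ0 : 0 < δ := by rw [hδ]; positivity
  obtain ⟨x, hx⟩ : ∃ x : ℝ, x = 3 / (2 * r) := ⟨_, rfl⟩
  have hx0 : 0 ≤ x := by rw [hx]; positivity
  have hx2 : 2 * (1 / (r : ℝ) ^ 2) ≤ x ^ 2 := by
    rw [hx]
    have : (3 / (2 * (r : ℝ))) ^ 2 = 9 / 4 * (1 / (r : ℝ) ^ 2) := by field_simp; norm_num
    rw [this]
    have : 0 ≤ 1 / (r : ℝ) ^ 2 := by positivity
    linarith
  have hy2 : 2 ≤ x ^ 2 * (1 / (r : ℝ) ^ 2 * ((r ^ 4 : ℕ) : ℝ)) := by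
    rw [hx]
    push_cast
    have : (3 / (2 * (r : ℝ))) ^ 2 * (1 / (r : ℝ) ^ 2 * (r : ℝ) ^ 4) = 9 / 4 := by field_simp; norm_num
    rw [this]
    norm_num
  have hsmall : x + x + ℓ * M' * δ + h / 4 ≤ h := by
    have h1 : x + x ≤ h / 2 := by
      rw [hx]
      have : 3 / (2 * (r : ℝ)) + 3 / (2 * r) = 3 / r := by field_simp; norm_num
      rw [this, div_le_iff₀ hrr]
      rw [div_le_iff₀ hh] at hr
      linarith
    have h2 : (ℓ : ℝ) * M' * δ ≤ h / 4 := by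
      rw [hδ]
      have : (ℓ : ℝ) * M' * (h / (4 * (ℓ * M' + 1))) = h / 4 * ((ℓ * M') / (ℓ * M' + 1)) := by
        field_simp
      rw [this]
      refine mul_le_of_le_one_right (by positivity) ?_
      rw [div_le_one (by positivity)]
      linarith
    linarith
  have hρL : 2 / δ ≤ (1 / ((r ^ 4 : ℕ) : ℝ)) * L := by
    push_cast
    rw [hδ]
    have h4 : 2 / (h / (4 * ((ℓ : ℝ) * M' + 1))) = 8 * (ℓ * M' + 1) / h := by field_simp; norm_num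
    rw [h4, one_div, ← div_eq_inv_mul, div_le_div_iff₀ hh (by positivity)]
    linarith
  intro u u' hu hu'
  have h1 := cutB_gen ν K M' ℓ L (r ^ 4) D N hℓ hM hL hR1 hD hDK δ (1 / (r : ℝ) ^ 2) x x
    (1 / ((r ^ 4 : ℕ) : ℝ)) (h / 4) hδ0 (by positivity) hx0 hx0 hx2 hy2 (by positivity) hρL
    (by
      have : (((r ^ 4 : ℕ) : ℝ)) ≠ 0 := by positivity
      rw [one_div, inv_mul_cancel₀ this]) hN F hF0 hF1 u u' hu hu'
  exact h1.trans (mul_le_mul_of_nonneg_right hsmall (by positivity))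

open Classical in
/-- the indicator function of the bad constants at the class `j` -/
def bj (Bd : ℕ → ℕ → ℕ → Prop) (L X : ℕ → ℕ) (j k : ℕ) (z : ZMod (L j)) : ℝ :=
  if Bd j k (X j + z.val) then 1 else 0

theorem bj_nonneg (Bd : ℕ → ℕ → ℕ → Prop) (L X : ℕ → ℕ) (j k : ℕ) (z : ZMod (L j)) :
    0 ≤ bj Bd L X j k z := by
  unfold bj; split_ifs <;> norm_num

theorem bj_le (Bd : ℕ → ℕ → ℕ → Prop) (L X : ℕ → ℕ) (j k : ℕ) (z : ZMod (L j)) :
    bj Bd L X j k z ≤ 1 := by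
  unfold bj; split_ifs <;> norm_num

theorem bj_U1 (Bd : ℕ → ℕ → ℕ → Prop) (L X : ℕ → ℕ) (j k : ℕ) : U1 (bj Bd L X j k) :=
  fun z => abs_le_one_of (bj_nonneg _ _ _ _ _ _) (bj_le _ _ _ _ _ _)

open Classical in
theorem mn_bj (Bd : ℕ → ℕ → ℕ → Prop) (L X : ℕ → ℕ) (j k : ℕ) [NeZero (L j)] (ε : ℝ)
    (h : ε * (L j : ℝ) ≤ (((range (L j)).filter (fun z => Bd j k (X j + z))).card : ℝ)) :
    ε ≤ mn (bj Bd L X j k) := by
  have hP : (0 : ℝ) < L j := Pr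
  unfold mn
  rw [sum_zmod, le_inv_mul_iff₀ hP, mul_comm]
  refine h.trans (le_of_eq ?_)
  rw [card_filter]
  push_cast
  refine sum_congr rfl fun b hb => ?_
  unfold bj
  rw [ZMod.val_cast_of_lt (mem_range.1 hb)]

/-- the bad kernel of a pair of classes, with the boundary removed -/
def kbG (Bd : ℕ → ℕ → ℕ → Prop) (L X : ℕ → ℕ) (ν : ℕ → ℕ → ℕ) (N R i j : ℕ) (v w : ℕ × ℕ) : ℝ :=
  if N ≤ w.2 then ker (fun k (z : ZMod (L j)) => bj Bd L X j k (z - ((ν (j - i) k * X i : ℕ) : ZMod (L j))))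
    (ν (j - i)) (2 * R * (j - i)) v w else 0

/-- the averaged kernel of a pair of classes -/
def kaG (Bd : ℕ → ℕ → ℕ → Prop) (L X : ℕ → ℕ) (ν : ℕ → ℕ → ℕ) (M' ℓ R i j : ℕ) (v w : ℕ × ℕ) : ℝ :=
  ker (fun k => av M' ℓ (fun z : ZMod (L j) => bj Bd L X j k (z - ((ν (j - i) k * X i : ℕ) : ZMod (L j)))))
    (ν (j - i)) (2 * R * (j - i)) v w

theorem kaG_eq (Bd : ℕ → ℕ → ℕ → Prop) (L X : ℕ → ℕ) [∀ j, NeZero (L j)] (ν : ℕ → ℕ → ℕ)
    (M' ℓ R i j : ℕ) (v w : ℕ × ℕ) :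
    kaG Bd L X ν M' ℓ R i j v w = av M' ℓ (bj Bd L X j (2 * R * (j - i) + w.1 - v.1))
      ((w.2 : ZMod (L j)) - ((ν (j - i) (2 * R * (j - i) + w.1 - v.1) * (X i + v.2) : ℕ) : ZMod (L j))) := by
  obtain ⟨n, hn⟩ : ∃ n : ℕ, n = ν (j - i) (2 * R * (j - i) + w.1 - v.1) := ⟨_, rfl⟩
  have h : kaG Bd L X ν M' ℓ R i j v w = av M' ℓ (fun z : ZMod (L j) =>
      bj Bd L X j (2 * R * (j - i) + w.1 - v.1) (z - ((ν (j - i) (2 * R * (j - i) + w.1 - v.1) * X i : ℕ) :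
        ZMod (L j)))) ((w.2 : ZMod (L j)) - (ν (j - i) (2 * R * (j - i) + w.1 - v.1) : ZMod (L j)) *
          (v.2 : ZMod (L j))) := rfl
  rw [h, ← hn, av_shift]
  beta_reduce
  congr 1
  push_cast
  ring

theorem kaG_01 (Bd : ℕ → ℕ → ℕ → Prop) (L X : ℕ → ℕ) (ν : ℕ → ℕ → ℕ)
    (M' ℓ R i j : ℕ) (v w : ℕ × ℕ) :
    0 ≤ kaG Bd L X ν M' ℓ R i j v w ∧ kaG Bd L X ν M' ℓ R i j v w ≤ 1 := by
  have h : kaG Bd L X ν M' ℓ R i j v w = av M' ℓ (fun z : ZMod (L j) =>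
      bj Bd L X j (2 * R * (j - i) + w.1 - v.1) (z - ((ν (j - i) (2 * R * (j - i) + w.1 - v.1) * X i : ℕ) :
        ZMod (L j)))) ((w.2 : ZMod (L j)) - (ν (j - i) (2 * R * (j - i) + w.1 - v.1) : ZMod (L j)) *
          (v.2 : ZMod (L j))) := rfl
  rw [h]
  exact ⟨av_nonneg _ _ _ (fun _ => bj_nonneg _ _ _ _ _ _) _, av_le _ _ _ (fun _ => bj_le _ _ _ _ _ _) _⟩

theorem kbG_01 (Bd : ℕ → ℕ → ℕ → Prop) (L X : ℕ → ℕ) (ν : ℕ → ℕ → ℕ)
    (N R i j : ℕ) (v w : ℕ × ℕ) :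
    0 ≤ kbG Bd L X ν N R i j v w ∧ kbG Bd L X ν N R i j v w ≤ 1 := by
  unfold kbG
  split_ifs
  · exact ⟨bj_nonneg _ _ _ _ _ _, bj_le _ _ _ _ _ _⟩
  · exact ⟨le_rfl, zero_le_one⟩

/-- the meaning of the bad kernel -/
theorem kbG_ne_zero (Bd : ℕ → ℕ → ℕ → Prop) (L X : ℕ → ℕ) [∀ j, NeZero (L j)] (ν : ℕ → ℕ → ℕ)
    (Q R i j : ℕ) (v w : ℕ × ℕ) (hv : v ∈ range R ×ˢ range (L i)) (hw : w ∈ range R ×ˢ range (L j))
    (hQ : ν (j - i) (2 * R * (j - i) + w.1 - v.1) ≤ Q)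
    (h : kbG Bd L X ν (Q * (L i + X i)) R i j v w ≠ 0) :
    ∃ z : ℕ, z + ν (j - i) (2 * R * (j - i) + w.1 - v.1) * (X i + v.2) = X j + w.2 ∧
      Bd j (2 * R * (j - i) + w.1 - v.1) z := by
  rw [mem_product, mem_range, mem_range] at hv hw
  unfold kbG at h
  by_cases hN : Q * (L i + X i) ≤ w.2
  · rw [if_pos hN] at h
    have h1 : ν (j - i) (2 * R * (j - i) + w.1 - v.1) * (X i + v.2) ≤ w.2 := by
      refine le_trans ?_ hN
      exact Nat.mul_le_mul hQ (by omega)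
    have h2 : (w.2 : ZMod (L j)) - (ν (j - i) (2 * R * (j - i) + w.1 - v.1) : ZMod (L j)) *
        (v.2 : ZMod (L j)) - ((ν (j - i) (2 * R * (j - i) + w.1 - v.1) * X i : ℕ) : ZMod (L j)) =
        ((w.2 - ν (j - i) (2 * R * (j - i) + w.1 - v.1) * (X i + v.2) : ℕ) : ZMod (L j)) := by
      rw [Nat.cast_sub h1]
      push_cast
      ring
    have h3 : Bd j (2 * R * (j - i) + w.1 - v.1)
        (X j + (w.2 - ν (j - i) (2 * R * (j - i) + w.1 - v.1) * (X i + v.2))) := by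
      by_contra hcon
      apply h
      have h4 : w.2 - ν (j - i) (2 * R * (j - i) + w.1 - v.1) * (X i + v.2) < L j := by omega
      show bj Bd L X j (2 * R * (j - i) + w.1 - v.1)
        ((w.2 : ZMod (L j)) - (ν (j - i) (2 * R * (j - i) + w.1 - v.1) : ZMod (L j)) *
        (v.2 : ZMod (L j)) - ((ν (j - i) (2 * R * (j - i) + w.1 - v.1) * X i : ℕ) : ZMod (L j))) = 0
      rw [h2]
      unfold bj
      rw [ZMod.val_cast_of_lt h4, if_neg hcon]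
    exact ⟨_, by omega, h3⟩
  · rw [if_neg hN] at h
    exact absurd rfl h

end

end Pool.Agent.U570.AG
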