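import Pool.Agent.U570.AG.Cut

/-! The cut norm bound in physical space, for real functions. -/

set_option autoImplicit false

namespace Pool.Agent.U570.AG

open Finset Pool.Agent.U570.AF

noncomputable section

variable {P : ℕ} [NeZero P]

/-- the average of a real function over a progression -/
def av (N ℓ : ℕ) (f : ZMod P → ℝ) (x : ZMod P) : ℝ :=
  (ℓ : ℝ)⁻¹ * ∑ t ∈ range ℓ, f (x + ((N * t : ℕ) : ZMod P))

omit [NeZero P] in
theorem av_nonneg (N ℓ : ℕ) (f : ZMod P → ℝ) (hf : ∀ x, 0 ≤ f x) (x : ZMod P) :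
    0 ≤ av N ℓ f x :=
  mul_nonneg (by positivity) (sum_nonneg fun _ _ => hf _)

omit [NeZero P] in
theorem av_le (N ℓ : ℕ) (f : ZMod P → ℝ) (hf : ∀ x, f x ≤ 1)
    (x : ZMod P) : av N ℓ f x ≤ 1 := by
  unfold av
  rcases Nat.eq_zero_or_pos ℓ with h | h
  · subst h; simp
  have h0 : (0 : ℝ) < ℓ := by exact_mod_cast h
  rw [inv_mul_le_iff₀ h0, mul_one]
  calc ∑ t ∈ range ℓ, f (x + ((N * t : ℕ) : ZMod P)) ≤ ∑ _t ∈ range ℓ, (1 : ℝ) :=
        sum_le_sum fun _ _ => hf _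
    _ = ℓ := by simp

theorem av_cast (N ℓ : ℕ) (f : ZMod P → ℝ) (x : ZMod P) :
    ((av N ℓ f x : ℝ) : ℂ) = avg (range ℓ) N (fun x => (f x : ℂ)) x := by
  unfold av avg
  rw [card_range]
  push_cast
  rfl

/-- the sum over `ZMod P` is the sum over the representatives -/
theorem sum_zmod (f : ZMod P → ℝ) : ∑ x, f x = ∑ b ∈ range P, f ((b : ℕ) : ZMod P) := by
  refine sum_nbij' (fun x => x.val) (fun b => ((b : ℕ) : ZMod P)) ?_ ?_ ?_ ?_ ?_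
  · intro x _
    exact mem_range.2 (ZMod.val_lt x)
  · intro b _
    exact mem_univ _
  · intro x _
    simp
  · intro b hb
    exact ZMod.val_cast_of_lt (mem_range.1 hb)
  · intro x _
    simp

/-- the cut norm bound in physical space -/
theorem cut_phys (ν : ℕ → ℕ) (K M ℓ L R D : ℕ) (hℓ : 1 ≤ ℓ)
    (hM : ∀ k k' : ℕ, k ≤ K → k' ≤ K → k ≠ k' → ((ν k : ℤ) - ν k') ∣ M)
    (hL : 1 ≤ L) (hR : 1 ≤ R) (hD : R ≤ D)
    (hDK : D + R ≤ K) (δ κ x y ρ : ℝ) (hδ : 0 < δ) (hκ : 0 < κ) (hx : 0 ≤ x) (hy : 0 ≤ y)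
    (hx2 : 2 * κ ≤ x ^ 2) (hy2 : 2 ≤ y ^ 2 * (κ * R)) (hρ : 0 ≤ ρ) (hρL : 2 / δ ≤ ρ * L)
    (hρR : ρ * R ≤ 1)
    (F : ℕ → ZMod P → ℝ) (hF0 : ∀ k z, 0 ≤ F k z) (hF1 : ∀ k z, F k z ≤ 1)
    (u : ℕ → ℕ → ℝ) (hu : ∀ s b, |u s b| ≤ 1) (v : ℕ → ZMod P → ℝ) (hv : ∀ s z, |v s z| ≤ 1) :
    ∑ s ∈ range R, ∑ s' ∈ range R, |∑ b ∈ range L, ∑ z : ZMod P,
      (F (D + s' - s) (z - (ν (D + s' - s) : ZMod P) * (b : ZMod P)) -
        av M ℓ (F (D + s' - s)) (z - (ν (D + s' - s) : ZMod P) * (b : ZMod P))) * (u s b * v s' z)| ≤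
      (R : ℝ) ^ 2 * (L * P) * (x + y + ℓ * M * δ) := by
  have hP0 : (0 : ℝ) < P := by exact_mod_cast Nat.pos_of_ne_zero (NeZero.ne P)
  obtain ⟨Φ, hΦ⟩ : ∃ Φ : ℕ → ZMod P → ℂ, Φ = fun k z => (F k z : ℂ) - avg (range ℓ) M (fun w => (F k w : ℂ)) z :=
    ⟨_, rfl⟩
  have hΦr : ∀ k z, Φ k z = ((F k z - av M ℓ (F k) z : ℝ) : ℂ) := by
    intro k z
    rw [hΦ]
    push_cast
    rw [av_cast]
  have hΦ1 : ∀ k z, ‖Φ k z‖ ≤ 1 := by
    intro k z
    rw [hΦr, Complex.norm_real, Real.norm_eq_abs, abs_le]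
    have h1 := hF0 k z
    have h2 := hF1 k z
    have h3 := av_nonneg M ℓ (F k) (hF0 k) z
    have h4 := av_le M ℓ (F k) (hF1 k) z
    constructor <;> linarith
  have hFc : ∀ k z, ‖(F k z : ℂ)‖ ≤ 1 := by
    intro k z
    rw [Complex.norm_real, Real.norm_eq_abs, abs_le]
    have h1 := hF0 k z
    have h2 := hF1 k z
    constructor <;> linarith
  have hvc : ∀ s z, ‖(v s z : ℂ)‖ ≤ 1 := by
    intro s z
    rw [Complex.norm_real, Real.norm_eq_abs]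
    exact hv s z
  have huc : ∀ s b, ‖(u s b : ℂ)‖ ≤ 1 := by
    intro s z
    rw [Complex.norm_real, Real.norm_eq_abs]
    exact hu s z
  have key := cut_freq ν K L R D hL hR hD hDK δ κ (ℓ * M * δ) x y ρ hδ hκ (by positivity) hx hy hx2
    hy2 hρ hρL hρR (fun k => ft (Φ k)) (fun k => ft (fun z => (F k z : ℂ)))
    (fun s b => (u s b : ℂ)) (fun k => bessel_le _ (hΦ1 k))
    (fun k θ hθ => by
      rw [hΦ]
      exact rat_bound ν K M ℓ δ hδ hℓ hM (fun z => (F k z : ℂ)) θ hθ)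
    (fun k => bessel_le _ (hFc k)) (fun s θ => ft (fun z => (v s z : ℂ)) (-θ)) (fun s => by
      have h := bessel_le (fun z : ZMod P => (v s z : ℂ)) (hvc s)
      rw [← Equiv.sum_comp (Equiv.neg (ZMod P))] at h
      exact h) huc
  have hterm : ∀ s s', |∑ b ∈ range L, ∑ z : ZMod P,
      (F (D + s' - s) (z - (ν (D + s' - s) : ZMod P) * (b : ZMod P)) -
        av M ℓ (F (D + s' - s)) (z - (ν (D + s' - s) : ZMod P) * (b : ZMod P))) *
          (u s b * v s' z)| =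
      (L * P) * ‖∑ θ, ft (Φ (D + s' - s)) θ * ft (fun z => (v s' z : ℂ)) (-θ) *
        lt L (fun b => (u s b : ℂ)) ((ν (D + s' - s) : ZMod P) * θ)‖ := by
    intro s s'
    have h1 := bilin (Φ (D + s' - s)) (fun z => (v s' z : ℂ)) L hL (fun b => (u s b : ℂ))
      ((ν (D + s' - s) : ZMod P))
    rw [← Real.norm_eq_abs, ← Complex.norm_real]
    have h2 : (((∑ b ∈ range L, ∑ z : ZMod P,
      (F (D + s' - s) (z - (ν (D + s' - s) : ZMod P) * (b : ZMod P)) -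
        av M ℓ (F (D + s' - s)) (z - (ν (D + s' - s) : ZMod P) * (b : ZMod P))) *
          (u s b * v s' z) : ℝ)) : ℂ) = ∑ b ∈ range L, ∑ x : ZMod P,
        Φ (D + s' - s) (x - (ν (D + s' - s) : ZMod P) * (b : ZMod P)) * ((u s b : ℂ) * (v s' x : ℂ)) := by
      simp_rw [hΦr]
      push_cast
      rfl
    rw [h2, h1, norm_mul, norm_mul, Complex.norm_natCast, Complex.norm_natCast]
  simp_rw [hterm, ← mul_sum]
  calc (L * P : ℝ) * _ ≤ (L * P) * ((R : ℝ) ^ 2 * (x + y + ℓ * M * δ)) :=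
        mul_le_mul_of_nonneg_left key (by positivity)
    _ = _ := by ring

/-- the kernel on pairs of vertices (exponent, coordinate) -/
def ker (F : ℕ → ZMod P → ℝ) (ν : ℕ → ℕ) (D : ℕ) (v w : ℕ × ℕ) : ℝ :=
  F (D + w.1 - v.1) ((w.2 : ZMod P) - (ν (D + w.1 - v.1) : ZMod P) * (v.2 : ZMod P))

/-- the cut norm of the difference of the kernel and its average -/
theorem cut_pair (ν : ℕ → ℕ) (K M ℓ L R D : ℕ) (hℓ : 1 ≤ ℓ)
    (hM : ∀ k k' : ℕ, k ≤ K → k' ≤ K → k ≠ k' → ((ν k : ℤ) - ν k') ∣ M)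
    (hL : 1 ≤ L) (hR : 1 ≤ R) (hD : R ≤ D)
    (hDK : D + R ≤ K) (δ κ x y ρ : ℝ) (hδ : 0 < δ) (hκ : 0 < κ) (hx : 0 ≤ x) (hy : 0 ≤ y)
    (hx2 : 2 * κ ≤ x ^ 2) (hy2 : 2 ≤ y ^ 2 * (κ * R)) (hρ : 0 ≤ ρ) (hρL : 2 / δ ≤ ρ * L)
    (hρR : ρ * R ≤ 1)
    (F : ℕ → ZMod P → ℝ) (hF0 : ∀ k z, 0 ≤ F k z) (hF1 : ∀ k z, F k z ≤ 1)
    (u u' : ℕ × ℕ → ℝ) (hu : ∀ v, |u v| ≤ 1) (hu' : ∀ v, |u' v| ≤ 1) :
    |∑ v ∈ range R ×ˢ range L, ∑ w ∈ range R ×ˢ range P,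
      (ker F ν D v w - ker (fun k => av M ℓ (F k)) ν D v w) * (u v * u' w)| ≤
      (x + y + ℓ * M * δ) * ((range R ×ˢ range L).card * (range R ×ˢ range P).card) := by
  have key := cut_phys ν K M ℓ L R D hℓ hM hL hR hD hDK δ κ x y ρ hδ hκ hx hy hx2 hy2 hρ hρL hρR
    F hF0 hF1 (fun s b => u (s, b)) (fun s b => hu _) (fun s z => u' (s, z.val)) (fun s z => hu' _)
  have hcard : ((range R ×ˢ range L).card : ℝ) * ((range R ×ˢ range P).card : ℝ) =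
      (R : ℝ) ^ 2 * (L * P) := by
    rw [card_product, card_product, card_range, card_range, card_range]
    push_cast
    ring
  rw [hcard, mul_comm (x + y + ℓ * M * δ)]
  refine le_trans ?_ key
  have e1 : ∑ v ∈ range R ×ˢ range L, ∑ w ∈ range R ×ˢ range P,
      (ker F ν D v w - ker (fun k => av M ℓ (F k)) ν D v w) * (u v * u' w) =
      ∑ s ∈ range R, ∑ s' ∈ range R, ∑ b ∈ range L, ∑ z : ZMod P,
      (F (D + s' - s) (z - (ν (D + s' - s) : ZMod P) * (b : ZMod P)) -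
        av M ℓ (F (D + s' - s)) (z - (ν (D + s' - s) : ZMod P) * (b : ZMod P))) *
          (u (s, b) * u' (s', z.val)) := by
    rw [sum_product]
    refine sum_congr rfl fun s _ => ?_
    simp_rw [sum_product]
    rw [sum_comm]
    refine sum_congr rfl fun s' _ => sum_congr rfl fun b _ => ?_
    rw [sum_zmod]
    refine sum_congr rfl fun b' hb' => ?_
    rw [ZMod.val_cast_of_lt (mem_range.1 hb')]
    rfl
  rw [e1]
  refine (abs_sum_le_sum_abs _ _).trans (sum_le_sum fun s _ => ?_)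
  exact abs_sum_le_sum_abs _ _

end

end Pool.Agent.U570.AG
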