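import Mathlib

/-! Choice of four classes with positive densities of common intersections. -/

set_option autoImplicit false

namespace Pool.Agent.U570.AG

open Finset

open Classical in
/-- a large subfamily whose level sets have a common intersection of positive density -/
theorem sel {Ω ι : Type} [Fintype Ω] (S : Finset ι) (g : ι → Ω → ℝ)
    (h1 : ∀ i ∈ S, ∀ x, g i x ≤ 1) (ε : ℝ) (hε : 0 < ε) (hε1 : ε ≤ 1) (hΩ : 0 < Fintype.card Ω)
    (hm : ∀ i ∈ S, ε * Fintype.card Ω ≤ ∑ x, g i x) :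
    ∃ W ⊆ S, ε / 4 * (S.card : ℝ) ≤ (W.card : ℝ) ∧ ∃ A : Finset Ω,
      (∀ x ∈ A, ∀ i ∈ W, ε / 2 ≤ g i x) ∧
      ε / 4 / 2 ^ S.card * Fintype.card Ω ≤ (A.card : ℝ) := by
  have hΩ0 : (0 : ℝ) < Fintype.card Ω := by exact_mod_cast hΩ
  rcases S.eq_empty_or_nonempty with hS | hS
  · subst hS
    refine ⟨∅, subset_rfl, by simp, univ, by simp, ?_⟩
    simp only [card_empty, pow_zero, div_one, card_univ]
    nlinarith
  have hS0 : (0 : ℝ) < S.card := by exact_mod_cast hS.card_pos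
  obtain ⟨Wx, hWx⟩ : ∃ Wx : Ω → Finset ι, Wx = fun x => S.filter (fun i => ε / 2 ≤ g i x) := ⟨_, rfl⟩
  have ha : (S.card : ℝ) * (ε / 2 * Fintype.card Ω) ≤ ∑ x, ((Wx x).card : ℝ) := by
    have e1 : ∑ x, ((Wx x).card : ℝ) = ∑ i ∈ S,
        (((univ : Finset Ω).filter (fun x => ε / 2 ≤ g i x)).card : ℝ) := by
      have e2 : ∀ x, ((Wx x).card : ℝ) = ∑ i ∈ S, (if ε / 2 ≤ g i x then (1 : ℝ) else 0) := by
        intro x
        rw [hWx]
        simp only
        rw [card_filter]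
        push_cast
        rfl
      have e3 : ∀ i, (((univ : Finset Ω).filter (fun x => ε / 2 ≤ g i x)).card : ℝ) =
          ∑ x, (if ε / 2 ≤ g i x then (1 : ℝ) else 0) := by
        intro i
        rw [card_filter]
        push_cast
        rfl
      simp_rw [e2, e3]
      rw [sum_comm]
    rw [e1, ← nsmul_eq_mul, ← sum_const]
    refine sum_le_sum fun i hi => ?_
    have e4 : ∑ x, g i x ≤ ∑ x, ((if ε / 2 ≤ g i x then (1 : ℝ) else 0) + ε / 2) := by
      refine sum_le_sum fun x _ => ?_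
      have := h1 i hi x
      split_ifs with h
      · linarith
      · linarith [not_le.1 h]
    rw [sum_add_distrib, sum_const, card_univ, nsmul_eq_mul] at e4
    have e5 : ((((univ : Finset Ω).filter (fun x => ε / 2 ≤ g i x)).card : ℕ) : ℝ) =
        ∑ x, (if ε / 2 ≤ g i x then (1 : ℝ) else 0) := by
      rw [card_filter]
      push_cast
      rfl
    rw [e5]
    have := hm i hi
    linarith
  obtain ⟨B, hB⟩ : ∃ B : Finset Ω, B = (univ : Finset Ω).filter
    (fun x => ε / 4 * (S.card : ℝ) ≤ ((Wx x).card : ℝ)) := ⟨_, rfl⟩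
  have hb : ∑ x, ((Wx x).card : ℝ) ≤ B.card * S.card + Fintype.card Ω * (ε / 4 * S.card) := by
    have e1 : ∀ x : Ω, ((Wx x).card : ℝ) ≤ (if ε / 4 * (S.card : ℝ) ≤ ((Wx x).card : ℝ) then
        (S.card : ℝ) else 0) + ε / 4 * S.card := by
      intro x
      have e2 : ((Wx x).card : ℝ) ≤ S.card := by
        have : (Wx x).card ≤ S.card := by rw [hWx]; exact card_filter_le _ _
        exact_mod_cast this
      have e3 : 0 ≤ ε / 4 * (S.card : ℝ) := by positivity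
      split_ifs with h
      · linarith
      · linarith [not_le.1 h]
    refine (sum_le_sum fun x _ => e1 x).trans (le_of_eq ?_)
    rw [sum_add_distrib, sum_const, card_univ, nsmul_eq_mul, ← sum_filter, sum_const, nsmul_eq_mul, hB]
  have hBc : ε / 4 * Fintype.card Ω ≤ B.card := by
    have e1 : (S.card : ℝ) * (ε / 4 * Fintype.card Ω) ≤ S.card * B.card := by nlinarith
    exact le_of_mul_le_mul_left e1 hS0
  by_contra hcon
  push Not at hcon
  have hcov : B ⊆ S.powerset.biUnion (fun W => B.filter (fun x => Wx x = W)) := by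
    intro x hx
    rw [mem_biUnion]
    refine ⟨Wx x, ?_, mem_filter.2 ⟨hx, rfl⟩⟩
    rw [mem_powerset, hWx]
    exact filter_subset _ _
  have h2 : ∀ W ∈ S.powerset, ((B.filter (fun x => Wx x = W)).card : ℝ) <
      ε / 4 / 2 ^ S.card * Fintype.card Ω := by
    intro W hW
    by_cases hW2 : ε / 4 * (S.card : ℝ) ≤ (W.card : ℝ)
    · refine hcon W (mem_powerset.1 hW) hW2 (B.filter (fun x => Wx x = W)) fun x hx i hi => ?_
      rw [mem_filter] at hx
      rw [← hx.2, hWx] at hi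
      exact (mem_filter.1 hi).2
    · have : B.filter (fun x => Wx x = W) = ∅ := by
        rw [filter_eq_empty_iff]
        intro x hx h
        rw [hB, mem_filter] at hx
        apply hW2
        rw [← h]
        exact hx.2
      rw [this]
      simp only [card_empty, Nat.cast_zero]
      positivity
  have h3 : (B.card : ℝ) < ε / 4 * Fintype.card Ω := by
    calc (B.card : ℝ) ≤ ∑ W ∈ S.powerset, ((B.filter (fun x => Wx x = W)).card : ℝ) := by
          have := (card_le_card hcov).trans card_biUnion_le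
          exact_mod_cast this
      _ < ∑ _W ∈ S.powerset, (ε / 4 / 2 ^ S.card * Fintype.card Ω) :=
          sum_lt_sum_of_nonempty (powerset_nonempty S) h2
      _ = ε / 4 * Fintype.card Ω := by
          rw [sum_const, card_powerset, nsmul_eq_mul]
          push_cast
          field_simp
  linarith

/-- lower bound for the mean of a function from a set where it is large -/
theorem mean_lower {Ω : Type} [Fintype Ω] (f : Ω → ℝ) (hf : ∀ x, 0 ≤ f x) (A : Finset Ω) (a δ : ℝ)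
    (ha : 0 ≤ a) (hA : ∀ x ∈ A, a ≤ f x) (hΩ : 0 < Fintype.card Ω)
    (hc : δ * Fintype.card Ω ≤ (A.card : ℝ)) :
    a * δ ≤ (Fintype.card Ω : ℝ)⁻¹ * ∑ x, f x := by
  have hΩ0 : (0 : ℝ) < Fintype.card Ω := by exact_mod_cast hΩ
  rw [le_inv_mul_iff₀ hΩ0]
  calc (Fintype.card Ω : ℝ) * (a * δ) = a * (δ * Fintype.card Ω) := by ring
    _ ≤ a * A.card := mul_le_mul_of_nonneg_left hc ha
    _ = ∑ _x ∈ A, a := by rw [sum_const, nsmul_eq_mul, mul_comm]
    _ ≤ ∑ x ∈ A, f x := sum_le_sum hA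
    _ ≤ ∑ x, f x := sum_le_sum_of_subset_of_nonneg (subset_univ _) fun x _ _ => hf x

/-- choice of four classes -/
theorem patt (ε : ℝ) (hε : 0 < ε) (hε1 : ε ≤ 1) : ∃ (n₀ : ℕ) (c : ℝ), 1 ≤ n₀ ∧ 0 < c ∧
    ∀ (Ω : Fin n₀ → Type) (_ : ∀ b, Fintype (Ω b)) (_ : ∀ b, 0 < Fintype.card (Ω b))
      (g : ∀ b : Fin n₀, Fin n₀ → Ω b → ℝ), (∀ b b' x, 0 ≤ g b b' x) → (∀ b b' x, g b b' x ≤ 1) →
      (∀ b b', b' < b → ε * Fintype.card (Ω b) ≤ ∑ x, g b b' x) →
      ∃ e : Fin 4 → Fin n₀, StrictMono e ∧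
        c ≤ ((Fintype.card (Ω (e 3)) : ℝ)⁻¹ * ∑ x, g (e 3) (e 0) x * (g (e 3) (e 1) x * g (e 3) (e 2) x)) *
          (((Fintype.card (Ω (e 2)) : ℝ)⁻¹ * ∑ x, g (e 2) (e 0) x * g (e 2) (e 1) x) *
            ((Fintype.card (Ω (e 1)) : ℝ)⁻¹ * ∑ x, g (e 1) (e 0) x)) := by
  classical
  obtain ⟨h', hh'⟩ : ∃ h' : ℕ, 8 / ε ≤ h' := exists_nat_ge _
  obtain ⟨h, hh⟩ : ∃ h : ℕ, 4 * ((h' : ℝ) + 1) / ε ≤ h := exists_nat_ge _
  refine ⟨h + 1, ((ε / 2) ^ 3 * (ε / 4 / 2 ^ h)) * (((ε / 2) ^ 2 * (ε / 4 / 2 ^ h)) * ε), by omega,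
    by positivity, ?_⟩
  intro Ω _ hΩ g hg0 hg1 hgm
  obtain ⟨b4, hb4⟩ : ∃ b4 : Fin (h + 1), b4 = Fin.last h := ⟨_, rfl⟩
  obtain ⟨S4, hS4⟩ : ∃ S4 : Finset (Fin (h + 1)), S4 = univ.filter (fun b => b < b4) := ⟨_, rfl⟩
  have hS4c : S4.card = h := by
    rw [hS4, hb4]
    have : (univ.filter (fun b : Fin (h + 1) => b < Fin.last h)) = Iio (Fin.last h) := by
      ext x
      simp only [mem_filter, mem_univ, true_and, mem_Iio]
    rw [this, Fin.card_Iio]
    simp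
  obtain ⟨W4, hW4, hW4c, A4, hA4, hW4d⟩ := sel S4 (g b4) (fun i _ x => hg1 _ _ _) ε hε hε1 (hΩ b4) (fun i hi => by
    rw [hS4] at hi
    exact hgm b4 i (mem_filter.1 hi).2)
  rw [hS4c] at hW4c hW4d
  have hW4n : (h' : ℝ) + 1 ≤ W4.card := by
    refine le_trans ?_ hW4c
    rw [div_le_iff₀ hε] at hh
    linarith
  have hW4n' : h' + 1 ≤ W4.card := by exact_mod_cast hW4n
  have hW4ne : W4.Nonempty := card_pos.1 (by omega)
  obtain ⟨b3, hb3⟩ : ∃ b3, b3 = W4.max' hW4ne := ⟨_, rfl⟩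
  have hb3m : b3 ∈ W4 := by rw [hb3]; exact max'_mem _ _
  have hlt3 : ∀ i ∈ W4.erase b3, i < b3 := by
    intro i hi
    rw [mem_erase] at hi
    have := le_max' W4 i hi.2
    rw [← hb3] at this
    exact lt_of_le_of_ne this hi.1
  have hS3c : (W4.erase b3).card = W4.card - 1 := card_erase_of_mem hb3m
  obtain ⟨W3, hW3, hW3c, A3, hA3, hW3d⟩ := sel (W4.erase b3) (g b3) (fun i _ x => hg1 _ _ _) ε hε hε1 (hΩ b3)
    (fun i hi => hgm b3 i (hlt3 i hi))
  have hW3n : (2 : ℝ) ≤ W3.card := by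
    refine le_trans ?_ hW3c
    have e1 : (h' : ℝ) ≤ ((W4.erase b3).card : ℝ) := by
      rw [hS3c]
      exact_mod_cast (by omega : h' ≤ W4.card - 1)
    rw [div_le_iff₀ hε] at hh'
    have : ε / 4 * (h' : ℝ) ≤ ε / 4 * ((W4.erase b3).card : ℝ) :=
      mul_le_mul_of_nonneg_left e1 (by positivity)
    linarith
  have hW3n' : 1 < W3.card := by
    have : 2 ≤ W3.card := by exact_mod_cast hW3n
    omega
  have hS3h : (W4.erase b3).card ≤ h := by
    have e1 : W4.card ≤ h := (card_le_card hW4).trans hS4c.le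
    omega
  obtain ⟨b1, hb1, b2, hb2, h12⟩ : ∃ b1 ∈ W3, ∃ b2 ∈ W3, b1 < b2 := by
    obtain ⟨x, hx, y, hy, hxy⟩ := one_lt_card.1 hW3n'
    rcases lt_or_gt_of_ne hxy with h0 | h0
    · exact ⟨x, hx, y, hy, h0⟩
    · exact ⟨y, hy, x, hx, h0⟩
  have hb1' : b1 ∈ W4 := mem_of_mem_erase (hW3 hb1)
  have hb2' : b2 ∈ W4 := mem_of_mem_erase (hW3 hb2)
  have h23 : b2 < b3 := hlt3 b2 (hW3 hb2)
  have h34 : b3 < b4 := by
    have := hW4 hb3m
    rw [hS4] at this
    exact (mem_filter.1 this).2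
  refine ⟨![b1, b2, b3, b4], ?_, ?_⟩
  · intro x y hxy
    fin_cases x <;> fin_cases y
    all_goals first
      | exact absurd hxy (by decide)
      | exact h12
      | exact h23
      | exact h34
      | exact h12.trans h23
      | exact h23.trans h34
      | exact h12.trans (h23.trans h34)
  · have p4 : (ε / 2) ^ 3 * (ε / 4 / 2 ^ h) ≤ (Fintype.card (Ω b4) : ℝ)⁻¹ *
        ∑ x, g b4 b1 x * (g b4 b2 x * g b4 b3 x) := by
      refine mean_lower _ (fun x => mul_nonneg (hg0 _ _ _) (mul_nonneg (hg0 _ _ _) (hg0 _ _ _)))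
        _ _ _ (by positivity) (fun x hx => ?_) (hΩ b4) hW4d
      have hx' := hA4 x hx
      have e1 := hx' b1 hb1'
      have e2 := hx' b2 hb2'
      have e3 := hx' b3 hb3m
      calc (ε / 2) ^ 3 = (ε / 2) * ((ε / 2) * (ε / 2)) := by ring
        _ ≤ _ := mul_le_mul e1 (mul_le_mul e2 e3 (by positivity) (hg0 _ _ _)) (by positivity)
            (hg0 _ _ _)
    have p3 : (ε / 2) ^ 2 * (ε / 4 / 2 ^ h) ≤ (Fintype.card (Ω b3) : ℝ)⁻¹ *
        ∑ x, g b3 b1 x * g b3 b2 x := by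
      have hW3d' : ε / 4 / 2 ^ h * Fintype.card (Ω b3) ≤ (A3.card : ℝ) := by
        refine le_trans (mul_le_mul_of_nonneg_right ?_ (Nat.cast_nonneg _)) hW3d
        refine div_le_div_of_nonneg_left (by positivity) (by positivity) ?_
        exact pow_le_pow_right₀ (by norm_num) hS3h
      refine mean_lower _ (fun x => mul_nonneg (hg0 _ _ _) (hg0 _ _ _))
        _ _ _ (by positivity) (fun x hx => ?_) (hΩ b3) hW3d'
      have hx' := hA3 x hx
      have e1 := hx' b1 hb1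
      have e2 := hx' b2 hb2
      calc (ε / 2) ^ 2 = (ε / 2) * (ε / 2) := by ring
        _ ≤ _ := mul_le_mul e1 e2 (by positivity) (hg0 _ _ _)
    have p2 : ε ≤ (Fintype.card (Ω b2) : ℝ)⁻¹ * ∑ x, g b2 b1 x := by
      have hc : (0 : ℝ) < Fintype.card (Ω b2) := by exact_mod_cast hΩ b2
      rw [le_inv_mul_iff₀ hc, mul_comm]
      exact hgm b2 b1 h12
    have q3 : (0 : ℝ) ≤ (ε / 2) ^ 2 * (ε / 4 / 2 ^ h) * ε := by positivity
    have q4 : (0 : ℝ) ≤ (ε / 2) ^ 3 * (ε / 4 / 2 ^ h) := by positivity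
    have q3' : (0 : ℝ) ≤ (ε / 2) ^ 2 * (ε / 4 / 2 ^ h) := by positivity
    exact mul_le_mul p4 (mul_le_mul p3 p2 hε.le (q3'.trans p3)) q3 (q4.trans p4)

end Pool.Agent.U570.AG
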