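import Pool.Agent.U570.AG.Inner
import Pool.Agent.U570.AG.Pig
import Pool.Agent.U570.AF.Core

/-! Choice of the four classes. -/

set_option autoImplicit false
set_option linter.unusedSectionVars false

namespace Pool.Agent.U570.AG

open Finset Pool.Agent.U570.AF

noncomputable section

open Classical in
/-- pigeonhole over the patterns -/
theorem pick {α : Type} {n : ℕ} (Z : Finset α) (hZ : 0 < Z.card)
    (Q : (Fin 4 → Fin n) → (Fin 4 → α) → Prop)
    (h : ∀ w ∈ Fintype.piFinset (fun _ : Fin n => Z), ∃ e : Fin 4 → Fin n, StrictMono e ∧ Q e (w ∘ e)) :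
    ∃ e : Fin 4 → Fin n, StrictMono e ∧
      (Z.card : ℝ) ^ 4 ≤ (n : ℝ) ^ 4 *
        (((Fintype.piFinset (fun _ : Fin 4 => Z)).filter (fun v => Q e v)).card : ℝ) := by
  obtain ⟨A, hA⟩ : ∃ A : (Fin 4 → Fin n) → Finset (Fin n → α), A = fun e =>
    (Fintype.piFinset (fun _ : Fin n => Z)).filter (fun w => StrictMono e ∧ Q e (w ∘ e)) := ⟨_, rfl⟩
  have hcard : (Fintype.piFinset (fun _ : Fin n => Z)).card = Z.card ^ n := by
    rw [Fintype.card_piFinset]; simp
  have h1 : Z.card ^ n ≤ ∑ e, (A e).card := by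
    rw [← hcard]
    refine le_trans (card_le_card ?_) card_biUnion_le
    intro w hw
    obtain ⟨e, he⟩ := h w hw
    rw [mem_biUnion]
    refine ⟨e, mem_univ _, ?_⟩
    rw [hA]
    exact mem_filter.2 ⟨hw, he⟩
  have h2 : ∃ e, Z.card ^ n ≤ n ^ 4 * (A e).card := by
    by_contra hcon
    push Not at hcon
    rcases isEmpty_or_nonempty (Fin 4 → Fin n) with he | he
    · have : ∑ e, (A e).card = 0 := by
        rw [univ_eq_empty, sum_empty]
      have h3 : 0 < Z.card ^ n := pow_pos hZ n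
      omega
    · have h3 : ∑ e, n ^ 4 * (A e).card < ∑ _e : Fin 4 → Fin n, Z.card ^ n :=
        sum_lt_sum_of_nonempty univ_nonempty fun e _ => hcon e
      rw [← mul_sum, sum_const, card_univ, Fintype.card_fun, Fintype.card_fin, Fintype.card_fin,
        smul_eq_mul] at h3
      exact absurd (Nat.mul_le_mul_left (n ^ 4) h1) (not_le.2 h3)
  obtain ⟨e, he⟩ := h2
  have hne : (A e).Nonempty := by
    rw [nonempty_iff_ne_empty]
    intro h0
    rw [h0, card_empty, mul_zero] at he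
    have h3 : 0 < Z.card ^ n := pow_pos hZ n
    omega
  obtain ⟨w, hw⟩ := hne
  have hes : StrictMono e := by
    rw [hA] at hw
    exact (mem_filter.1 hw).2.1
  refine ⟨e, hes, ?_⟩
  have hm := marg (fun _ : Fin n => Z) e hes.injective (fun v => Q e v)
  simp only [prod_const, card_univ, Fintype.card_fin] at hm
  have h4 : (A e).card ≤ ((Fintype.piFinset (fun _ : Fin n => Z)).filter (fun v => Q e (v ∘ e))).card := by
    rw [hA]
    refine card_le_card fun w hw => ?_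
    rw [mem_filter] at hw ⊢
    exact ⟨hw.1, hw.2.2⟩
  have h5 : Z.card ^ n * Z.card ^ 4 ≤ n ^ 4 *
      ((Fintype.piFinset (fun _ : Fin 4 => Z)).filter (fun v => Q e v)).card * Z.card ^ n := by
    calc Z.card ^ n * Z.card ^ 4 ≤ (n ^ 4 * (A e).card) * Z.card ^ 4 := Nat.mul_le_mul_right _ he
      _ ≤ (n ^ 4 * ((Fintype.piFinset (fun _ : Fin n => Z)).filter (fun v => Q e (v ∘ e))).card) *
          Z.card ^ 4 := Nat.mul_le_mul_right _ (Nat.mul_le_mul_left _ h4)
      _ = n ^ 4 * (((Fintype.piFinset (fun _ : Fin n => Z)).filter (fun v => Q e (v ∘ e))).card *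
          Z.card ^ 4) := by ring
      _ = _ := by rw [hm]; ring
  have h6 : Z.card ^ 4 ≤ n ^ 4 *
      ((Fintype.piFinset (fun _ : Fin 4 => Z)).filter (fun v => Q e v)).card := by
    have h7 : 0 < Z.card ^ n := pow_pos hZ n
    refine Nat.le_of_mul_le_mul_right ?_ h7
    rw [mul_comm]
    exact h5
  exact_mod_cast h6

/-- the node of a block and a pair (offset, exponent) -/
def nd {n : ℕ} (D : ℕ) (b : Fin n) (z : ℕ × ℕ) : ℕ × ℕ := (1 + (b : ℕ) * D + z.1, z.2)

theorem nd_lt {n D : ℕ} {b b' : Fin n} (hb : b < b') (z z' : ℕ × ℕ) (hz : z.1 < D) :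
    (nd D b z).1 < (nd D b' z').1 := by
  unfold nd
  have h1 : (b : ℕ) + 1 ≤ b' := hb
  have h2 : ((b : ℕ) + 1) * D ≤ b' * D := Nat.mul_le_mul_right _ h1
  have h3 : ((b : ℕ) + 1) * D = b * D + D := by ring
  simp only
  omega

theorem nd_le {n D : ℕ} (b : Fin n) (z : ℕ × ℕ) (hz : z.1 < D) : (nd D b z).1 ≤ n * D := by
  unfold nd
  have h1 : (b : ℕ) + 1 ≤ n := b.2
  have h2 : ((b : ℕ) + 1) * D ≤ n * D := Nat.mul_le_mul_right _ h1
  have h3 : ((b : ℕ) + 1) * D = b * D + D := by ring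
  simp only
  omega

variable {L X : ℕ → ℕ} [∀ j, NeZero (L j)] {ν : ℕ → ℕ → ℕ} {M Γ T K Q : ℕ} {κ : ℝ}

open Classical in
/-- application of the pattern lemma -/
theorem pat_app (ε : ℝ) (hε : 0 < ε) (hε1 : ε ≤ 1) : ∃ (n₀ : ℕ) (c : ℝ), 1 ≤ n₀ ∧ 0 < c ∧
    ∀ (D R : ℕ) {L X : ℕ → ℕ} [∀ j, NeZero (L j)] {ν : ℕ → ℕ → ℕ} {M Γ T K Q : ℕ} {κ : ℝ},
      T = n₀ * D → 2 * R * (T + 1) ≤ K → Hy L X ν M Γ T K Q κ → ∀ Bd : ℕ → ℕ → ℕ → Prop,
      (∀ j k, 1 ≤ j → j ≤ T → 1 ≤ k → k ≤ K →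
        ε * (L j : ℝ) ≤ (((range (L j)).filter (fun z => Bd j k (X j + z))).card : ℝ)) →
      ∀ w ∈ Fintype.piFinset (fun _ : Fin n₀ => range D ×ˢ range R), ∃ e : Fin 4 → Fin n₀, StrictMono e ∧
        c ≤ PP Bd L X M Γ R (nd D (e 0) (w (e 0))) (nd D (e 1) (w (e 1))) (nd D (e 2) (w (e 2)))
          (nd D (e 3) (w (e 3))) := by
  obtain ⟨n₀, c, hn, hc, key⟩ := patt ε hε hε1
  refine ⟨n₀, c, hn, hc, ?_⟩
  intro D R L X _ ν M Γ T K Q κ hT hK h Bd hBd w hw
  rw [Fintype.mem_piFinset] at hw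
  have hw' : ∀ b, (w b).1 < D ∧ (w b).2 < R := fun b => by
    have := hw b
    rw [mem_product, mem_range, mem_range] at this
    exact this
  obtain ⟨e, he, hce⟩ := key (fun b => ZMod (L (nd D b (w b)).1)) (fun b => ZMod.fintype _)
    (fun b => by
      have : Fintype.card (ZMod (L (nd D b (w b)).1)) = L (nd D b (w b)).1 := ZMod.card _
      rw [this]
      exact Nat.pos_of_ne_zero (NeZero.ne _))
    (fun b b' => gg Bd L X M Γ R (nd D b' (w b')) (nd D b (w b)))
    (fun b b' x => gg_nonneg _ _ _ _ _) (fun b b' x => gg_le _ _ _ _ _)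
    (fun b b' hbb => by
      have hlt := nd_lt hbb (w b') (w b) (hw' b').1
      have hle : (nd D b (w b)).1 ≤ T := by rw [hT]; exact nd_le b (w b) (hw' b).1
      have hex := expo hK hlt hle (hw' b').2 (hw' b).2
      have h1 := mn_bj Bd L X (nd D b (w b)).1
        (2 * R * ((nd D b (w b)).1 - (nd D b' (w b')).1) + (nd D b (w b)).2 - (nd D b' (w b')).2) ε
        (hBd _ _ (by unfold nd; simp only; omega) hle hex.1 hex.2)
      rw [← h.mn_gg Bd R (nd D b' (w b')) (nd D b (w b)) hle] at h1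
      have hP : (0 : ℝ) < L (nd D b (w b)).1 := Pr
      unfold mn at h1
      rw [le_inv_mul_iff₀ hP] at h1
      have : (Fintype.card (ZMod (L (nd D b (w b)).1)) : ℝ) = L (nd D b (w b)).1 := by rw [ZMod.card]
      rw [this, mul_comm]
      exact h1)
  refine ⟨e, he, hce.trans (le_of_eq ?_)⟩
  unfold PP P4 P3 P2 mn
  simp only [ZMod.card]

end

end Pool.Agent.U570.AG
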