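import Pool.Agent.U570.AG.Eval

/-! The scales of the classes. -/

set_option autoImplicit false

namespace Pool.Agent.U570.AG

open Finset

/-- the modulus of the coarse averages at the class `i`, seen from the class `j` -/
def fP (M j i : ℕ) : ℕ := M ^ (2 * (j - i) - 1)

/-- the modulus of the fine averages at the class `i`, seen from the class `j` -/
def fM (M j i : ℕ) : ℕ := M ^ (2 * (j - i) + 1)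

/-- lengths of the averages -/
def lo (Γ : ℕ) (Λ : ℕ → ℕ) (i : ℕ) : ℕ := Γ * Λ i

def lp (Γ : ℕ) (Λ : ℕ → ℕ) (i : ℕ) : ℕ := Γ ^ 2 * Λ i

def lm (Γ : ℕ) (Λ : ℕ → ℕ) (i : ℕ) : ℕ := Γ ^ 3 * Λ (i - 1)

theorem lam_mono (Γ : ℕ) (hΓ : 1 ≤ Γ) (Λ : ℕ → ℕ) (hΛ : ∀ i, 1 ≤ i → Γ ^ 5 * Λ (i - 1) ≤ Λ i) :
    Monotone Λ := by
  refine monotone_nat_of_le_succ fun i => ?_
  have := hΛ (i + 1) (by omega)
  rw [Nat.add_sub_cancel] at this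
  exact (Nat.le_mul_of_pos_left _ (pow_pos hΓ 5)).trans this

theorem sc_of (M T Γ : ℕ) (hM : 1 ≤ M) (κ : ℝ) (hκ : 0 < κ) (hΓ : 1 ≤ Γ)
    (h : 2 * (M : ℝ) ^ (2 * T + 2) ≤ κ * Γ) (Λ : ℕ → ℕ) (hΛ0 : 1 ≤ Λ 0)
    (hΛ : ∀ i, 1 ≤ i → Γ ^ 5 * Λ (i - 1) ≤ Λ i) (j : ℕ) (hj : j ≤ T) :
    Sc j (fP M j) (fM M j) (lm Γ Λ) (lo Γ Λ) (lp Γ Λ) κ := by
  have hmono := lam_mono Γ hΓ Λ hΛ
  have hΛ1 : ∀ i, 1 ≤ Λ i := fun i => hΛ0.trans (hmono (Nat.zero_le i))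
  have hMr : (1 : ℝ) ≤ M := by exact_mod_cast hM
  have hΓr : (1 : ℝ) ≤ Γ := by exact_mod_cast hΓ
  have hM2 : 2 * (M : ℝ) ^ 2 ≤ κ * Γ := by
    refine le_trans ?_ h
    have : (M : ℝ) ^ 2 ≤ (M : ℝ) ^ (2 * T + 2) := pow_le_pow_right₀ hMr (by omega)
    linarith
  have hκΓ : 2 ≤ κ * Γ := by
    have : (1 : ℝ) ≤ (M : ℝ) ^ 2 := one_le_pow₀ hMr
    linarith
  refine ⟨hκ.le, ?_, ?_, ?_, ?_, ?_, ?_, ?_⟩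
  · intro i
    exact Nat.mul_pos (pow_pos hΓ 3) (hΛ1 _)
  · intro i
    exact Nat.mul_pos hΓ (hΛ1 _)
  · intro i
    unfold lo lp
    refine Nat.mul_le_mul_right _ ?_
    rw [pow_two]
    exact Nat.le_mul_of_pos_left _ hΓ
  · intro i i' hi hi'
    refine ⟨M ^ (2 * (i' - i) - 2), ?_, ?_⟩
    · unfold fP fM
      rw [← pow_add]
      congr 1
      omega
    · unfold lp lm
      have h1 : (M : ℝ) ^ (2 * (i' - i) - 2) ≤ (M : ℝ) ^ (2 * T + 2) :=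
        pow_le_pow_right₀ hMr (by omega)
      have h2 : (Λ i : ℝ) ≤ Λ (i' - 1) := by exact_mod_cast hmono (by omega : i ≤ i' - 1)
      have h3 : (0 : ℝ) ≤ Λ i := Nat.cast_nonneg _
      push_cast
      calc 2 * ((M : ℝ) ^ (2 * (i' - i) - 2) * ((Γ : ℝ) ^ 2 * Λ i)) ≤
          2 * ((M : ℝ) ^ (2 * T + 2) * ((Γ : ℝ) ^ 2 * Λ (i' - 1))) := by gcongr
        _ = (2 * (M : ℝ) ^ (2 * T + 2)) * ((Γ : ℝ) ^ 2 * Λ (i' - 1)) := by ring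
        _ ≤ (κ * Γ) * ((Γ : ℝ) ^ 2 * Λ (i' - 1)) := mul_le_mul_of_nonneg_right h (by positivity)
        _ = _ := by ring
  · intro i hi1 hi
    refine ⟨M ^ 2, ?_, ?_⟩
    · unfold fP fM
      rw [← pow_add]
      congr 1
      omega
    · unfold lo lm
      have h1 : ((Γ ^ 5 * Λ (i - 1) : ℕ) : ℝ) ≤ Λ i := by exact_mod_cast hΛ i hi1
      push_cast at h1 ⊢
      have h2 : (Γ : ℝ) ^ 3 ≤ (Γ : ℝ) ^ 5 := pow_le_pow_right₀ hΓr (by norm_num)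
      calc 2 * ((M : ℝ) ^ 2 * ((Γ : ℝ) ^ 3 * Λ (i - 1))) =
          (2 * (M : ℝ) ^ 2) * ((Γ : ℝ) ^ 3 * Λ (i - 1)) := by ring
        _ ≤ (κ * Γ) * ((Γ : ℝ) ^ 5 * Λ (i - 1)) := by gcongr
        _ ≤ (κ * Γ) * Λ i := mul_le_mul_of_nonneg_left h1 (by positivity)
        _ = _ := by ring
  · intro i hi1 hi
    refine ⟨M ^ 2, ?_, ?_⟩
    · unfold fP
      rw [← pow_add]
      congr 1
      omega
    · unfold lo lp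
      have h1 : ((Γ ^ 5 * Λ (i - 1) : ℕ) : ℝ) ≤ Λ i := by exact_mod_cast hΛ i hi1
      push_cast at h1 ⊢
      have h2 : (Γ : ℝ) ^ 2 ≤ (Γ : ℝ) ^ 5 := pow_le_pow_right₀ hΓr (by norm_num)
      calc 2 * ((M : ℝ) ^ 2 * ((Γ : ℝ) ^ 2 * Λ (i - 1))) =
          (2 * (M : ℝ) ^ 2) * ((Γ : ℝ) ^ 2 * Λ (i - 1)) := by ring
        _ ≤ (κ * Γ) * ((Γ : ℝ) ^ 5 * Λ (i - 1)) := by gcongr
        _ ≤ (κ * Γ) * Λ i := mul_le_mul_of_nonneg_left h1 (by positivity)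
        _ = _ := by ring
  · intro i _
    unfold lo lp
    push_cast
    calc 2 * ((Γ : ℝ) * Λ i) ≤ (κ * Γ) * ((Γ : ℝ) * Λ i) := by gcongr
      _ = _ := by ring

/-- the lower bound for a fourfold sum -/
theorem lowS (B0 B1 B2 B3 : Finset ℕ) (G01 G02 G03 G12 G13 G23 : ℕ → ℕ → ℝ)
    (g01 : ∀ x y, 0 ≤ G01 x y ∧ G01 x y ≤ 1) (g02 : ∀ x y, 0 ≤ G02 x y ∧ G02 x y ≤ 1)
    (g12 : ∀ x y, 0 ≤ G12 x y ∧ G12 x y ≤ 1) (P4 P3 P2 e4 e3 : ℝ) (hP4 : 0 ≤ P4) (hP41 : P4 ≤ 1)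
    (hP3 : 0 ≤ P3) (he4 : 0 ≤ e4) (he3 : 0 ≤ e3)
    (h4 : ∀ x0 ∈ B0, ∀ x1 ∈ B1, ∀ x2 ∈ B2, (B3.card : ℝ) * (P4 - e4) ≤
      ∑ x3 ∈ B3, G03 x0 x3 * (G13 x1 x3 * G23 x2 x3))
    (h3 : ∀ x0 ∈ B0, ∀ x1 ∈ B1, (B2.card : ℝ) * (P3 - e3) ≤ ∑ x2 ∈ B2, G02 x0 x2 * G12 x1 x2)
    (h2 : ∀ x0 ∈ B0, (B1.card : ℝ) * P2 ≤ ∑ x1 ∈ B1, G01 x0 x1) :
    (B0.card * B1.card * B2.card * B3.card : ℝ) * (P4 * (P3 * P2) - e3 - e4) ≤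
      ∑ x0 ∈ B0, ∑ x1 ∈ B1, ∑ x2 ∈ B2, ∑ x3 ∈ B3,
        (G01 x0 x1 * G02 x0 x2 * G03 x0 x3 * G12 x1 x2 * G13 x1 x3 * G23 x2 x3) := by
  have s1 : ∀ x0 ∈ B0, ∀ x1 ∈ B1, ∀ x2 ∈ B2,
      (B3.card : ℝ) * P4 * (G01 x0 x1 * (G02 x0 x2 * G12 x1 x2)) - B3.card * e4 ≤
      ∑ x3 ∈ B3, (G01 x0 x1 * G02 x0 x2 * G03 x0 x3 * G12 x1 x2 * G13 x1 x3 * G23 x2 x3) := by
    intro x0 hx0 x1 hx1 x2 hx2
    have q0 : 0 ≤ G01 x0 x1 * (G02 x0 x2 * G12 x1 x2) :=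
      mul_nonneg (g01 _ _).1 (mul_nonneg (g02 _ _).1 (g12 _ _).1)
    have q1 : G01 x0 x1 * (G02 x0 x2 * G12 x1 x2) ≤ 1 :=
      mul_le_one₀ (g01 _ _).2 (mul_nonneg (g02 _ _).1 (g12 _ _).1)
        (mul_le_one₀ (g02 _ _).2 (g12 _ _).1 (g12 _ _).2)
    have e1 : ∑ x3 ∈ B3, (G01 x0 x1 * G02 x0 x2 * G03 x0 x3 * G12 x1 x2 * G13 x1 x3 * G23 x2 x3) =
        (G01 x0 x1 * (G02 x0 x2 * G12 x1 x2)) * ∑ x3 ∈ B3, G03 x0 x3 * (G13 x1 x3 * G23 x2 x3) := by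
      rw [mul_sum]
      exact sum_congr rfl fun x3 _ => by ring
    rw [e1]
    have e2 := mul_le_mul_of_nonneg_left (h4 x0 hx0 x1 hx1 x2 hx2) q0
    refine le_trans ?_ e2
    have e3 : (B3.card : ℝ) * e4 * (G01 x0 x1 * (G02 x0 x2 * G12 x1 x2)) ≤ B3.card * e4 :=
      mul_le_of_le_one_right (by positivity) q1
    linarith
  have s2 : ∀ x0 ∈ B0, ∀ x1 ∈ B1,
      (B3.card : ℝ) * P4 * (B2.card * P3) * G01 x0 x1 - B3.card * B2.card * e3 -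
        B2.card * B3.card * e4 ≤
      ∑ x2 ∈ B2, ∑ x3 ∈ B3, (G01 x0 x1 * G02 x0 x2 * G03 x0 x3 * G12 x1 x2 * G13 x1 x3 * G23 x2 x3) := by
    intro x0 hx0 x1 hx1
    refine le_trans ?_ (sum_le_sum fun x2 hx2 => s1 x0 hx0 x1 hx1 x2 hx2)
    rw [sum_sub_distrib, sum_const, nsmul_eq_mul]
    have e1 : ∑ x2 ∈ B2, (B3.card : ℝ) * P4 * (G01 x0 x1 * (G02 x0 x2 * G12 x1 x2)) =
        ((B3.card : ℝ) * P4 * G01 x0 x1) * ∑ x2 ∈ B2, G02 x0 x2 * G12 x1 x2 := by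
      rw [mul_sum]
      exact sum_congr rfl fun x2 _ => by ring
    rw [e1]
    have q0 : 0 ≤ (B3.card : ℝ) * P4 * G01 x0 x1 := mul_nonneg (by positivity) (g01 _ _).1
    have e2 := mul_le_mul_of_nonneg_left (h3 x0 hx0 x1 hx1) q0
    have q1 : P4 * G01 x0 x1 ≤ 1 := mul_le_one₀ hP41 (g01 _ _).1 (g01 _ _).2
    have e3' : (B3.card : ℝ) * B2.card * e3 * (P4 * G01 x0 x1) ≤ B3.card * B2.card * e3 :=
      mul_le_of_le_one_right (by positivity) q1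
    linarith
  have s3 : ∀ x0 ∈ B0,
      (B3.card : ℝ) * P4 * (B2.card * P3) * (B1.card * P2) - B1.card * (B3.card * B2.card * e3) -
        B1.card * (B2.card * B3.card * e4) ≤
      ∑ x1 ∈ B1, ∑ x2 ∈ B2, ∑ x3 ∈ B3,
        (G01 x0 x1 * G02 x0 x2 * G03 x0 x3 * G12 x1 x2 * G13 x1 x3 * G23 x2 x3) := by
    intro x0 hx0
    refine le_trans ?_ (sum_le_sum fun x1 hx1 => s2 x0 hx0 x1 hx1)
    rw [sum_sub_distrib, sum_sub_distrib, sum_const, sum_const, nsmul_eq_mul, nsmul_eq_mul,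
      ← mul_sum]
    have e2 := mul_le_mul_of_nonneg_left (h2 x0 hx0)
      (by positivity : 0 ≤ (B3.card : ℝ) * P4 * (B2.card * P3))
    linarith
  refine le_trans (le_of_eq ?_) (sum_le_sum fun x0 hx0 => s3 x0 hx0)
  rw [sum_const, nsmul_eq_mul]
  ring

/-- separation of the exponents and the coordinates in a fourfold sum -/
theorem sum_sep (A B0 B1 B2 B3 : Finset ℕ) (f : (ℕ × ℕ) → (ℕ × ℕ) → (ℕ × ℕ) → (ℕ × ℕ) → ℝ) :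
    ∑ p ∈ (A ×ˢ B0) ×ˢ (A ×ˢ B1) ×ˢ (A ×ˢ B2) ×ˢ (A ×ˢ B3), f p.1 p.2.1 p.2.2.1 p.2.2.2 =
      ∑ s0 ∈ A, ∑ s1 ∈ A, ∑ s2 ∈ A, ∑ s3 ∈ A, ∑ x0 ∈ B0, ∑ x1 ∈ B1, ∑ x2 ∈ B2, ∑ x3 ∈ B3,
        f (s0, x0) (s1, x1) (s2, x2) (s3, x3) := by
  have e1 : ∑ p ∈ (A ×ˢ B0) ×ˢ (A ×ˢ B1) ×ˢ (A ×ˢ B2) ×ˢ (A ×ˢ B3), f p.1 p.2.1 p.2.2.1 p.2.2.2 =
      ∑ q ∈ (A ×ˢ A ×ˢ A ×ˢ A) ×ˢ (B0 ×ˢ B1 ×ˢ B2 ×ˢ B3),
        f (q.1.1, q.2.1) (q.1.2.1, q.2.2.1) (q.1.2.2.1, q.2.2.2.1) (q.1.2.2.2, q.2.2.2.2) := by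
    refine sum_nbij' (fun p => ((p.1.1, p.2.1.1, p.2.2.1.1, p.2.2.2.1),
        (p.1.2, p.2.1.2, p.2.2.1.2, p.2.2.2.2)))
      (fun q => ((q.1.1, q.2.1), (q.1.2.1, q.2.2.1), (q.1.2.2.1, q.2.2.2.1), (q.1.2.2.2, q.2.2.2.2)))
      ?_ ?_ ?_ ?_ ?_
    · intro p hp
      simp only [mem_product] at hp ⊢
      tauto
    · intro q hq
      simp only [mem_product] at hq ⊢
      tauto
    · intro p _; rfl
    · intro q _; rfl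
    · intro p _; rfl
  rw [e1]
  simp only [sum_product]

end Pool.Agent.U570.AG
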